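import Pool.Agent.H34.NJ.FulC
import Pool.Agent.H45.JMP.Thl

/-!
# (H2) above the window at which the last coordinate is known

`h2_at`: (H2) at every good window at which the last coordinate is known, if its last rows are not
full. `h2_full`: (H2) across the window `u` above which the last coordinate is known.
-/

set_option autoImplicit false

namespace Pool.NJ34

open Finset Real MvPolynomial
open Pool.Agent.H49.Ent Pool.Agent.H32.Dense Pool.STK Pool.KA Pool.KSAT Pool.K2S Pool.PB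
  Pool.STAT Pool.GEN Pool.S6C Pool.M3F Pool.JPN Pool.GRW Pool.PKG Pool.R1
open Pool.ONE (lst)
open Pool.TOP (TopS RW)
open Pool.PLN (H2S)

variable {n : ℕ} {hn : 2 ≤ n} {S : PCl n} {P : ℝ → ℝ → ℝ} {r : ℝ → ℝ}
  {P' : ℕ → List (Fin n) × Fin n → ℝ → ℝ → ℝ} {Λ : Finset (Fin n) → Fin n → ℝ → ℝ → ℝ}

/-- **(H2) at a good window at which the last coordinate is known**; the constant depends on `n`
only. -/
theorem h2_at (n : ℕ) : ∃ C : ℝ, 0 ≤ C ∧ ∀ {hn : 2 ≤ n} {S : PCl n} {P : ℝ → ℝ → ℝ} {r : ℝ → ℝ}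
    {P' : ℕ → List (Fin n) × Fin n → ℝ → ℝ → ℝ} {Λ : Finset (Fin n) → Fin n → ℝ → ℝ → ℝ},
    Pk hn S P r P' Λ → (∀ k, 1 ≤ k → k < n → FZX k) → (∀ k, 2 ≤ k → k < n → RW k) →
    (∀ Q : ℝ, 0 ≤ Q → Q < 1 → r 1 - r Q < 1 - Q) → ∀ w0 w1 : ℝ, w1 ∈ Wr P P' Λ → P w1 w1 = 1 →
    0 ≤ w0 → w0 < w1 → H2S S w0 w1 (C * (w1 - w0)) := by
  choose D hD using fun k => m3d_ex k
  obtain ⟨Dm, hDm1, hDm⟩ := fin_up n (fun k => (D k : ℝ))
  have hl2 : 0 < Real.log 2 := Real.log_pos one_lt_two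
  have hn0 : (0 : ℝ) ≤ n := Nat.cast_nonneg n
  refine ⟨((n : ℝ) + n * Dm) * Real.log 2, by positivity, ?_⟩
  intro hn S P r P' Λ H hZ hRW hbad w0 w1 hg hP hw0 hw01
  have hw1 : 0 < w1 := hg.1.pos
  have hw11 : w1 < 1 := hg.1.lt
  have hF : FZX (n - 1) := hZ _ (by omega) (by omega)
  have h01 : 0 < w1 - w0 := by linarith
  have hle : ∀ x : ℝ, x ≤ (n : ℝ) + n * Dm →
      x * Real.log 2 * (w1 - w0) ≤ ((n : ℝ) + n * Dm) * Real.log 2 * (w1 - w0) := fun x hx =>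
    mul_le_mul_of_nonneg_right (mul_le_mul_of_nonneg_right hx hl2.le) h01.le
  obtain ⟨v, hv⟩ : ∃ v : ℕ → ℝ, v = fun l => vs Λ (fun i => bse (ow Λ w1 i)) w1 (l + 1) := ⟨_, rfl⟩
  obtain ⟨k, hk, hlt, hone⟩ := fst_one v (fun l => by
    rw [hv]
    exact vs_le1 H.lam _ hw11.le _) (n - 1)
  rcases hk.lt_or_eq with hk' | hk'
  · have hk1 : 1 ≤ k := by
      by_contra hcon
      have h0 : k = 0 := by omega
      have h1 := hone hk'
      rw [h0, hv] at h1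
      have h2 := vs_one H hg.1
      simp only at h1
      linarith
    have hlt' : ∀ i < k, vs Λ (fun i => bse (ow Λ w1 i)) w1 (i + 1) < 1 := fun i hi => by
      have := hlt i hi
      rwa [hv] at this
    have hone' : vs Λ (fun i => bse (ow Λ w1 i)) w1 (k + 1) = 1 := by
      have := hone hk'
      rwa [hv] at this
    have h1 := h2_full_c (hD k) H hZ hg.1 hk1 hk' hlt' hone'
      (fun j => Pool.JMP45.thr_lst H hF hRW hg.1 hk1 hk' hlt' hone' hbad j) hw0 hw01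
    refine h2_mono hw1.le le_rfl hw11.le (hle _ ?_) h1
    have h2 : ((n - k : ℕ) : ℝ) * D k ≤ (n - 1 : ℕ) * Dm := by
      refine mul_le_mul ?_ (hDm k (by omega)) (Nat.cast_nonneg _) (Nat.cast_nonneg _)
      exact_mod_cast Nat.sub_le_sub_left hk1 n
    have h3 : ((n - 1 : ℕ) : ℝ) * Dm ≤ n * Dm :=
      mul_le_mul_of_nonneg_right (by exact_mod_cast Nat.sub_le n 1) (by linarith)
    have h4 : (k : ℝ) + 1 ≤ n := by exact_mod_cast (by omega : k + 1 ≤ n)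
    linarith
  · have h1 := h2_full_b (hD (n - 1)) H hZ (fun h3 => hRW (n - 1) (by omega) (by omega)) hg hP hbad
      (fun j => by
        have := hlt j (by rw [hk']; exact j.2)
        rwa [hv] at this) hw0 hw01
    refine h2_mono hw1.le le_rfl hw11.le (hle _ ?_) h1
    have h2 := hDm (n - 1) (by omega)
    have h3 : (1 : ℝ) * Dm ≤ n * Dm :=
      mul_le_mul_of_nonneg_right (by exact_mod_cast (by omega : 1 ≤ n)) (by linarith)
    linarith

/-- **(H2) across the window `u`** above which the last coordinate is known. -/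
theorem h2_full (H : Pk hn S P r P' Λ) (hZ : ∀ k, 1 ≤ k → k < n → FZX k)
    (hRW : ∀ k, 2 ≤ k → k < n → RW k) {u : ℝ} (hP : ∀ w : ℝ, u < w → w < 1 → P w w = 1)
    (hbad : ∀ Q : ℝ, 0 ≤ Q → Q < 1 → r 1 - r Q < 1 - Q) :
    ∃ C η : ℝ, 0 ≤ C ∧ 0 < η ∧ ∀ w₁ ∈ Wr P P' Λ, u < w₁ → w₁ < u + η → ∀ w₀ : ℝ,
      0 < w₀ → w₀ < u → H2S S w₀ w₁ (C * (w₁ - w₀)) := by
  obtain ⟨C, hC, h⟩ := h2_at n
  exact ⟨C, 1, hC, one_pos, fun w₁ h1 h2 _ w₀ h3 h4 =>
    h H hZ hRW hbad w₀ w₁ h1 (hP w₁ h2 h1.1.lt) h3.le (h4.trans h2)⟩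

end Pool.NJ34
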