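import Pool.Agent.H34.NJ.Eq
import Pool.Agent.H53.JM.Lab2
import Pool.Agent.H71.GEN.Kpf
import Pool.Agent.H96.R1.Twc

/-!
# (H2) below the window of the last row

`h2_mono`: the statement (H2) is monotone in the later window. `h2_eqn`: (H2) at a good window, from
the labels with their equations. `h2_win`: at a good window at which the rows of the last coordinate
above its threshold have a defect. `h2_full_b`: at a good window at which the last coordinate is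
known, if the other coordinates are not. `h2_below`: all windows below the window `u` at which the
last row is reached continuously.
-/

set_option autoImplicit false

namespace Pool.NJ34

open Finset Real MvPolynomial
open Pool.Agent.H49.Ent Pool.Agent.H32.Dense Pool.STK Pool.KA Pool.KSAT Pool.K2S Pool.PB
  Pool.STAT Pool.GEN Pool.S6C Pool.M3F Pool.JPN Pool.GRW Pool.PKG Pool.R1
open Pool.CHT (chsys bet tau Up1)
open Pool.LBT (ThrOf)
open Pool.ONE (lst tgs)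
open Pool.ALL (RateOf)
open Pool.FRN (Wgd Gdy)
open Pool.TOP (T1c T2c TopS Ful RW)
open Pool.PLN (H2S)

section mono

variable {m : ℕ} {S : PCl m}

/-- **(H2) is monotone in the later window** and in the error. -/
theorem h2_mono {w0 w1 w1' e e' : ℝ} (h1 : 0 ≤ w1) (h : w1 ≤ w1') (h' : w1' ≤ 1) (he : e ≤ e')
    (H : H2S S w0 w1' e) : H2S S w0 w1 e' := by
  intro ρ hρ
  refine (H ρ hρ).mono 0 ?_
  intro J _ F A hA V z z' hz
  have hJ0 : (0 : ℝ) ≤ J := Nat.cast_nonneg J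
  have hWJ : ⌊w1' * J⌋₊ ≤ J := by
    refine Nat.floor_le_of_le ?_
    calc w1' * J ≤ 1 * J := mul_le_mul_of_nonneg_right h' hJ0
      _ = J := one_mul _
  have hW : ⌊w1 * J⌋₊ ≤ ⌊w1' * J⌋₊ := Nat.floor_le_floor (mul_le_mul_of_nonneg_right h hJ0)
  refine (hA V z (fun s => z' (s.1, s.2.1, s.2.2 / 2 ^ (⌊w1' * J⌋₊ - ⌊w1 * J⌋₊)))
    (fun ω hω => ?_)).trans ?_
  · rw [hz ω hω, ← slam_coarse F hW hWJ ω]
  · exact mul_le_mul_of_nonneg_right (by linarith) hJ0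

/-- The infimum of the errors is an error. -/
theorem h2_inf {w0 w1 e : ℝ} (H : ∀ e', e < e' → H2S S w0 w1 e') : H2S S w0 w1 e := by
  intro ρ hρ
  refine (H (e + ρ / 2) (by linarith) (ρ / 2) (by positivity)).mono 0 ?_
  intro J _ F A hA V z z' hz
  refine (hA V z z' hz).trans (le_of_eq ?_)
  ring

end mono

theorem T2c.le_sg {m : ℕ} {S : PCl m} {k : Fin m} {α Q σ σ' : ℝ} (h : T2c S k α Q σ)
    (hσ : σ ≤ σ') : T2c S k α Q σ' := by
  intro K ε hε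
  refine (h K ε hε).mono 0 ?_
  intro J _ F A h1 a q s ha hq hs
  exact h1 a q s ha hq ((mul_le_mul_of_nonneg_right (by linarith) (Nat.cast_nonneg J)).trans hs)

theorem T1c.le_sg {m : ℕ} {S : PCl m} {k : Fin m} {α σ σ' : ℝ} (h : T1c S k α σ)
    (hσ : σ ≤ σ') : T1c S k α σ' := by
  intro K ε hε
  refine (h K ε hε).mono 0 ?_
  intro J _ F A h1 l a P hl ha hP
  exact h1 l a P hl ha ((mul_le_mul_of_nonneg_right (by linarith) (Nat.cast_nonneg J)).trans hP)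

variable {n : ℕ} {hn : 2 ≤ n} {S : PCl n} {P : ℝ → ℝ → ℝ} {r : ℝ → ℝ}
  {P' : ℕ → List (Fin n) × Fin n → ℝ → ℝ → ℝ} {Λ : Finset (Fin n) → Fin n → ℝ → ℝ → ℝ}

/-- **(H2) at a good window**, from `T1c` and `T2c`. -/
theorem h2_t12 {Dq : ℕ} (hM : M3D (n - 1) Dq) (H : Pk hn S P r P' Λ) (hF : FZX (n - 1))
    {w0 w1 α Q c η : ℝ} (hg : Gwd P P' Λ w1) (hα : w1 < α) (hα1 : α ≤ 1)
    (hc : 0 < c) (hwQ : w1 ≤ Q) (hQc : Q ≤ 1 - c)
    (ht : ∀ j : Fin (n - 1), vs Λ (fun i => bse (ow Λ w1 i)) w1 (j + 1) ≤ 1 - c)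
    (hT1 : T1c S (lst hn) α (1 - c)) (hT2 : T2c S (lst hn) α Q (1 - c))
    (hη : 1 - min (P w1 w1) Q < η) (hw0 : 0 ≤ w0) (hw01 : w0 < w1) (hw1η : w1 + η < 1) :
    H2S S w0 w1 (((n : ℝ) + Dq) * Real.log 2 * (w1 - w0) + η) := by
  obtain ⟨al, g₀, s, d, e, K₀, N, hal, hg₀, hC⟩ := H.cl
  have hw1 : 0 < w1 := hg.pos
  have hmem : ∀ (τ : ℝ) (J : ℕ) (F : Fam n J) (A : F.Ω → Prop), S.St τ J F A →
      F.Tr ∧ F.Tm (τ * J) ∧ F.Rb (τ * J) ∧ Real.exp (-(τ * J)) ≤ Pe F.p A := by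
    intro τ J F A hA
    obtain ⟨a1, a2, a3, a4, -⟩ := hC.mem τ J F A hA
    exact ⟨a1, a2, a3, a4⟩
  obtain ⟨j, hj⟩ := tht_ex (show 0 < c / 2 by linarith)
  have hcD : 0 < c := hc
  have ht' : ∀ i : Fin (n - 1), vs Λ (fun i => bse (ow Λ w1 i)) w1 (i + 1) ≤ 1 - 3 / 4 * c :=
    fun i => (ht i).trans (by linarith)
  obtain ⟨γ, hγ⟩ : ∃ γ, γ = min w1 (c / 8) := ⟨_, rfl⟩
  have hγ0 : 0 < γ := by rw [hγ]; exact lt_min hw1 (by linarith)
  have hγw : γ ≤ w1 := by rw [hγ]; exact min_le_left _ _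
  have hγc : γ ≤ c / 8 := by rw [hγ]; exact min_le_right _ _
  have hgdy := gdy_gw H hF hg hcD ht' hj
  have hηpos : 0 ≤ η := by
    have h1 := min_le_right (P w1 w1) Q
    linarith
  have heq := eqN_of (Dq := Dq) hM hgdy H.ne hmem (H.cht j) (tht_pos j) H.tgs
    (α := α) (Q := Q) (sg := 1 - 3 / 4 * c) (γ := γ) (T1c.le_sg hT1 (by linarith))
    (T2c.le_sg hT2 (by linarith)) hα1 (by linarith) (hw1.trans_le hwQ) (by linarith) hw1 hα hwQ
    (hg.wgd j) (by omega) (hg.dn j) hg.dnP hγ0 hγw (by linarith) (fun ρ hρ => by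
      rw [sum_one_sub, sum_bet H hF hg hcD ht' hj]
      exact exv_gw H hF hg hρ) hη
  have h2 := h2N hmem (c := cc hn (ow Λ w1)) (r := n - 1) (D := Dq) (w0 := w0) (w1 := w1)
    (kp_fzx hF) (fun ρ hρ => by
      rw [sum_one_sub, sum_bet H hF hg hcD ht' hj]
      exact exv_gw H hF hg hρ) hηpos hw0 hw01 hw1η (fun i => by
      by_cases hi : i = lst hn
      · exact ⟨n - 1, le_rfl, by rw [hi, cc_top]⟩
      · obtain ⟨l, hl, h3⟩ := cc_all hn (ow Λ w1) hi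
        exact ⟨l, hl.le, h3⟩) heq
  refine h2_mono hw1.le le_rfl hg.lt.le (le_of_eq ?_) h2
  have hn1 : ((n - 1 : ℕ) : ℝ) + 1 = n := by
    have : n - 1 + 1 = n := by omega
    exact_mod_cast this
  rw [hn1]

/-- **(H2) at a good window**, if the rows of the last coordinate above the row `Q` have the
defect `c`. -/
theorem h2_win {Dq : ℕ} (hM : M3D (n - 1) Dq) (H : Pk hn S P r P' Λ) (hF : FZX (n - 1))
    (hTop : TopS n) {w0 w1 Q c η : ℝ} (hg : Gwd P P' Λ w1) (hQ : P w1 w1 < Q) (hc : 0 < c)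
    (hc1 : c ≤ 1 - Q - (r 1 - r Q)) (hη : 1 - P w1 w1 < η) (hw0 : 0 ≤ w0) (hw01 : w0 < w1)
    (hw1η : w1 + η < 1) : H2S S w0 w1 (((n : ℝ) + Dq) * Real.log 2 * (w1 - w0) + η) := by
  have H' := H
  obtain ⟨al, g₀, s, d, e, K₀, N, hal, hg₀, hC⟩ := H'.cl
  have hPw : w1 ≤ P w1 w1 := H.tgs.low () w1 w1 hg.pos.le le_rfl hg.lt.le
  have hQc : Q ≤ 1 - c := Pool.TOP.q_le H.rate hc hc1
  obtain ⟨α₀, a1, a2, a3⟩ : ∃ α₀ : ℝ, w1 < α₀ ∧ α₀ ≤ 1 ∧ P α₀ α₀ ≤ Q := by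
    have h2 := hg.conP
    rw [Metric.continuousAt_iff] at h2
    obtain ⟨δ, hδ, h3⟩ := h2 (Q - P w1 w1) (by linarith)
    obtain ⟨a, ha⟩ : ∃ a, a = min (w1 + δ / 2) 1 := ⟨_, rfl⟩
    have e1 : w1 < a := by rw [ha]; exact lt_min (by linarith) hg.lt
    have e2 : a ≤ 1 := by rw [ha]; exact min_le_right _ _
    have e3 : a ≤ w1 + δ / 2 := by rw [ha]; exact min_le_left _ _
    have h4 := @h3 a (by rw [Real.dist_eq, abs_lt]; constructor <;> linarith)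
    rw [Real.dist_eq, dgP_eq P (hg.pos.le.trans e1.le) e2, dgP_eq P hg.pos.le hg.lt.le] at h4
    exact ⟨a, e1, e2, by linarith [(abs_lt.1 h4).2]⟩
  obtain ⟨α₁, b1, b2⟩ := exists_between a1
  obtain ⟨hT1, hT2⟩ := hTop hn al g₀ s d hal hg₀ e K₀ N S hC P r H.tgs H.rate α₁ α₀ Q c
    (hg.pos.trans b1).le b2 a2 a3 hc hc1
  exact h2_t12 hM H hF hg b1 (b2.le.trans a2) hc (hPw.trans hQ.le) hQc
    (fun j => top_gw H hTop hg hQ hc hc1 j) hT1 hT2 (by rwa [min_eq_left hQ.le]) hw0 hw01 hw1η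

/-- The measure of the rows above `Q` which are not full. -/
theorem bad_pos {Q : ℝ} (hbad : ∀ Q : ℝ, 0 ≤ Q → Q < 1 → r 1 - r Q < 1 - Q) (h0 : 0 ≤ Q)
    (h1 : Q < 1) : 0 < 1 - Q - (r 1 - r Q) := by
  have := hbad Q h0 h1
  linarith

/-- **(H2) at a good window at which the last coordinate is known**, if the other coordinates are
not: case (B). -/
theorem h2_full_b {Dq : ℕ} (hM : M3D (n - 1) Dq) (H : Pk hn S P r P' Λ)
    (hZ : ∀ k, 1 ≤ k → k < n → FZX k) (hW : 3 ≤ n → RW (n - 1)) {w0 w1 : ℝ}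
    (hg : w1 ∈ Wr P P' Λ) (hP : P w1 w1 = 1)
    (hbad : ∀ Q : ℝ, 0 ≤ Q → Q < 1 → r 1 - r Q < 1 - Q)
    (ht : ∀ j : Fin (n - 1), vs Λ (fun i => bse (ow Λ w1 i)) w1 (j + 1) < 1)
    (hw0 : 0 ≤ w0) (hw01 : w0 < w1) :
    H2S S w0 w1 (((n : ℝ) + Dq) * Real.log 2 * (w1 - w0)) := by
  have hF : FZX (n - 1) := hZ _ (by omega) (by omega)
  have hw1 : 0 < w1 := hg.1.pos
  have hw11 : w1 < 1 := hg.1.lt
  refine h2_inf fun e' he' => ?_
  obtain ⟨η, hη⟩ : ∃ η : ℝ, η = min (e' - ((n : ℝ) + Dq) * Real.log 2 * (w1 - w0))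
    ((1 - w1) / 2) := ⟨_, rfl⟩
  have hη0 : 0 < η := by
    rw [hη]
    exact lt_min (by linarith) (by linarith)
  have hη1 : η ≤ e' - ((n : ℝ) + Dq) * Real.log 2 * (w1 - w0) := by
    rw [hη]
    exact min_le_left _ _
  have hη2 : η ≤ (1 - w1) / 2 := by
    rw [hη]
    exact min_le_right _ _
  -- the row
  obtain ⟨Q, hQ⟩ : ∃ Q : ℝ, Q = 1 - η / 2 := ⟨_, rfl⟩
  have hQ0 : 0 ≤ Q := by linarith
  have hQ1 : Q < 1 := by linarith
  have hQw : w1 < Q := by linarith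
  -- the largest number
  obtain ⟨t, ht0, ht1⟩ : ∃ t : ℝ, t < 1 ∧
      ∀ j : Fin (n - 1), vs Λ (fun i => bse (ow Λ w1 i)) w1 (j + 1) ≤ t := by
    obtain ⟨j₀, -, hj₀⟩ := Finset.exists_max_image (Finset.univ : Finset (Fin (n - 1)))
      (fun j => vs Λ (fun i => bse (ow Λ w1 i)) w1 (j + 1)) ⟨⟨0, by omega⟩, Finset.mem_univ _⟩
    exact ⟨_, ht j₀, fun j => hj₀ j (Finset.mem_univ _)⟩
  obtain ⟨cD, hcD⟩ : ∃ cD : ℝ, cD = min (1 - Q - (r 1 - r Q)) (1 - t) := ⟨_, rfl⟩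
  have hcD0 : 0 < cD := by
    rw [hcD]
    exact lt_min (bad_pos hbad hQ0 hQ1) (by linarith)
  have hcD1 : cD ≤ 1 - Q - (r 1 - r Q) := by
    rw [hcD]
    exact min_le_left _ _
  have hcD2 : cD ≤ 1 - t := by
    rw [hcD]
    exact min_le_right _ _
  obtain ⟨-, t1, α, b1, b2, b3, b4, b5⟩ := two_t12M H hZ hW hg.1 hg.1 hg le_rfl le_rfl hQw hcD0
    hcD1 (fun j => (ht1 j).trans (by linarith)) (by rw [sub_self]; positivity)
  have hQc : Q ≤ 1 - cD := Pool.TOP.q_le H.rate hcD0 hcD1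
  exact h2_mono hw1.le le_rfl hw11.le (by linarith) (h2_t12 (c := 3 / 4 * cD) hM H hF hg.1 b1 b2.le
    (by positivity) hQw.le (by linarith) t1 b4 b5 (η := η) (by
      rw [hP, min_eq_right hQ1.le]
      linarith) hw0 hw01 (by linarith))

/-- **(H2) below the window of the last row**: `u` is the window at which the last row is reached,
and it is reached continuously. -/
theorem h2_below {Dq : ℕ} (hM : M3D (n - 1) Dq) (H : Pk hn S P r P' Λ) (hF : FZX (n - 1))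
    (hTop : TopS n) {u : ℝ} (hu1 : u < 1)
    (hlt : ∀ w, 0 < w → w < u → P w w < 1)
    (hcon : ∀ t : ℝ, 0 < t → ∃ z, 0 < z ∧ z < u ∧ 1 - P z z < t)
    (hbad : ∀ Q : ℝ, 0 ≤ Q → Q < 1 → r 1 - r Q < 1 - Q) {w0 w1 : ℝ}
    (hw0 : 0 ≤ w0) (hw01 : w0 ≤ w1) (hw1 : w1 < u) :
    H2S S w0 w1 (((n : ℝ) + Dq) * Real.log 2 * (u - w0)) := by
  refine h2_inf fun e' he' => ?_
  obtain ⟨η, hη⟩ : ∃ η : ℝ, η = min (e' - ((n : ℝ) + Dq) * Real.log 2 * (u - w0))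
    ((1 - u) / 2) := ⟨_, rfl⟩
  have hη0 : 0 < η := by
    rw [hη]
    exact lt_min (by linarith) (by linarith)
  have hη1 : η ≤ e' - ((n : ℝ) + Dq) * Real.log 2 * (u - w0) := by
    rw [hη]
    exact min_le_left _ _
  have hη2 : η ≤ (1 - u) / 2 := by
    rw [hη]
    exact min_le_right _ _
  obtain ⟨z, hz0, hzu, hz⟩ := hcon η hη0
  obtain ⟨w', a1, a2, a3⟩ := ex_gw H (x := max z w1) (y := u) (le_max_of_le_left hz0.le)
    (max_lt hzu hw1) hu1.le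
  have b1 : z < w' := (le_max_left _ _).trans_lt a1
  have b2 : w1 < w' := (le_max_right _ _).trans_lt a1
  have hg := a3.1
  have hmono : P z z ≤ P w' w' := (H.tgs.law ()).mono hz0.le le_rfl b1.le b1.le le_rfl hg.lt.le
  have hPl : P w' w' < 1 := hlt w' hg.pos a2
  obtain ⟨Q, hQ1, hQ2⟩ := exists_between hPl
  have hPw : w' ≤ P w' w' := H.tgs.low () w' w' hg.pos.le le_rfl hg.lt.le
  have hQ0 : 0 ≤ Q := by linarith [hg.pos]
  have h1 := h2_win hM H hF hTop (w0 := w0) hg hQ1 (bad_pos hbad hQ0 hQ2) le_rfl (η := η)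
    (by linarith) hw0 (hw01.trans_lt b2) (by linarith)
  refine h2_mono (hw0.trans hw01) b2.le hg.lt.le ?_ h1
  have h3 : ((n : ℝ) + Dq) * Real.log 2 * (w' - w0) ≤ ((n : ℝ) + Dq) * Real.log 2 * (u - w0) := by
    have hl2 : 0 < Real.log 2 := Real.log_pos one_lt_two
    exact mul_le_mul_of_nonneg_left (by linarith) (by positivity)
  linarith

end Pool.NJ34
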