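import Pool.Agent.H34.NJ.Few3
import Pool.Agent.H3.R2.Prt
import Pool.Agent.H73.NJ.Tim
import Pool.Agent.H1.PLN.Stm

/-!
# (H2): the labels at another time are few bits, given the exact point
-/

set_option autoImplicit false

namespace Pool.NJ34

open Finset Real MvPolynomial
open Pool.Agent.H49.Ent Pool.Agent.H32.Dense Pool.STK Pool.KAF Pool.KAL Pool.KS3 Pool.M3F
open Pool.KJA Pool.KA Pool.K2S Pool.KSAT Pool.PB Pool.STAT Pool.GEN Pool.IEN Pool.CLO37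
open Pool.KM7 Pool.S6C Pool.JPN Pool.GEO

variable {m : ℕ}

/-- **The closed labels at the window `w` with their equations**, on events of positive mass;
the precision of the last coordinate is `1 - η`, its weight is at most `η`. -/
def EqN (S : PCl m) (c : ℕ → Fin m) (r D : ℕ) (w : ℝ) (g : ℕ → ℝ) (η : ℝ) : Prop :=
  ∃ K : ℕ, ∀ φ : ℝ, 0 < φ → ∃ κ₀ : ℝ, 0 < κ₀ ∧ Bas S (fun J F A =>
    ∃ (B : F.Ω → Prop) (d : LDat F r), Sub B A ∧ κ₀ * Pe F.p A ≤ Pe F.p B ∧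
      d.Ok c D K ⌊w * J⌋₊ g η φ B)

/-- The same for all precisions. -/
def EqS (S : PCl m) (c : ℕ → Fin m) (r D : ℕ) (w : ℝ) (g : ℕ → ℝ) : Prop :=
  ∀ η : ℝ, 0 < η → EqN S c r D w g η

/-- Statements about all members hold for all events of the members of probability at least `κ`. -/
theorem bas_frc {S : PCl m} {Φ : Stat m} (h : Bas S Φ) {κ : ℝ} (hκ : 0 < κ) :
    Bas S (fun J F A => ∀ B : F.Ω → Prop, Sub B A → κ * Pe F.p A ≤ Pe F.p B → Φ J F B) := by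
  obtain ⟨τ, hτ, J₁, h⟩ := h
  obtain ⟨J₂, hJ₂⟩ := exists_nat_ge (-Real.log κ / (τ / 2))
  refine ⟨τ / 2, by positivity, max J₁ J₂, fun J hJ F A hA B hB hP => ?_⟩
  refine h J ((le_max_left _ _).trans hJ) F B ?_
  have h1 := S.res (τ := τ / 2) (τ' := τ / 2) (by positivity) hA hB (by
    refine le_trans (mul_le_mul_of_nonneg_right ?_ (Pe_nonneg F.isLaw A)) hP
    have hJ' : (J₂ : ℝ) ≤ J := by exact_mod_cast (le_max_right _ _).trans hJ
    have h2 : -Real.log κ / (τ / 2) ≤ J := hJ₂.trans hJ'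
    rw [div_le_iff₀ (by positivity)] at h2
    have h3 : -(τ / 2 * (J : ℝ)) ≤ Real.log κ := by linarith
    exact (Real.exp_le_exp.2 h3).trans (Real.exp_log hκ).le)
  rwa [add_halves] at h1

/-- The masses of the parts. -/
theorem sum_parts {Ω : Type} [Fintype Ω] {p : Ω → ℝ} (hp : IsLaw p) (A : Ω → Prop) (j : Ω → ℕ)
    (N : ℕ) : ∑ i ∈ range N, Pe p (fun ω => A ω ∧ j ω = i) ≤ 1 := by
  classical
  have h1 : ∀ i ∈ range N, Pe p (fun ω => A ω ∧ j ω = i) ≤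
      ∑ ω, if j ω = i then p ω else 0 := by
    intro i _
    rw [Pe_eq]
    refine Finset.sum_le_sum fun ω _ => ?_
    have := hp.nonneg ω
    by_cases h : j ω = i
    · rw [if_pos h]
      split_ifs
      · exact le_rfl
      · exact this
    · rw [if_neg h, if_neg fun h' => h h'.2]
  refine (Finset.sum_le_sum h1).trans ?_
  rw [Finset.sum_comm, ← hp.sum_one]
  refine Finset.sum_le_sum fun ω _ => ?_
  have := hp.nonneg ω
  rw [Finset.sum_ite_eq]
  split_ifs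
  · exact le_rfl
  · exact this

/-- The mass of the bad pairs. -/
theorem bad_le {m J : ℕ} {F : Fam m J} {A : F.Ω → Prop} (hA : 0 < Pe F.p A) {r : ℕ}
    (dd : ℕ → LDat F r) (c : ℕ → Fin m) {D W0 W1 N : ℕ} {C h a b η₁ : ℝ} (j : F.Ω → ℕ)
    (hj : ∀ ω, j ω ≤ N) (ha : 0 ≤ a)
    (hrest : Pe F.p (fun ω => A ω ∧ j ω = N) ≤ η₁ * Pe F.p A)
    (hp : ∀ i < N, Pe (P2 (Pool.Agent.H49.Ent.cond F.p A True) (slam F W0))
      (fun e => (A e.2 ∧ j e.2 = i) ∧
        ¬ (dd i).Gd c D W0 W1 C h ((dd i).z (ptr F J e.2)) (ptr F J e.1)) ≤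
      Pe (Pool.Agent.H49.Ent.cond F.p A True) (fun ω => A ω ∧ j ω = i) * a + b) :
    Pe (P2 (Pool.Agent.H49.Ent.cond F.p A True) (slam F W0))
      (fun e => ¬ Gde dd c D W0 W1 N C h j (fun i ω => A ω ∧ j ω = i) e) ≤ η₁ + a + N * b := by
  classical
  obtain ⟨pA, hpA⟩ : ∃ q, q = Pool.Agent.H49.Ent.cond F.p A True := ⟨_, rfl⟩
  have hlA : IsLaw pA := by
    rw [hpA]
    exact isLaw_cond F.isLaw hA
  rw [← hpA] at hp ⊢
  have hlP := P2_isLaw hlA (slam F W0)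
  have h1 : Pe (P2 pA (slam F W0)) (fun e => A e.2 ∧ j e.2 = N) ≤ η₁ := by
    have h2 := (P2_snd hlA (slam F W0)).law_eq (fun ω => A ω ∧ j ω = N) True
    have h3 : Pe pA (fun ω => A ω ∧ j ω = N) ≤ η₁ := by
      rw [hpA, Pe_cond, div_le_iff₀ hA]
      have h4 : (fun ω => A ω ∧ A ω ∧ j ω = N) = fun ω => A ω ∧ j ω = N := by
        funext ω
        exact propext ⟨fun h => h.2, fun h => ⟨h.1, h⟩⟩
      rw [h4]
      exact hrest
    exact h2.le.trans h3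
  have h2 : Pe (P2 pA (slam F W0))
      (fun e => ¬ Gde dd c D W0 W1 N C h j (fun i ω => A ω ∧ j ω = i) e) ≤
      Pe (P2 pA (slam F W0)) (fun e => A e.2 ∧ j e.2 = N) +
        ∑ i ∈ range N, Pe (P2 pA (slam F W0)) (fun e => (A e.2 ∧ j e.2 = i) ∧
          ¬ (dd i).Gd c D W0 W1 C h ((dd i).z (ptr F J e.2)) (ptr F J e.1)) := by
    obtain ⟨E, hE⟩ : ∃ E : ℕ → F.Ω × F.Ω → Prop, E = fun i e => (A e.2 ∧ j e.2 = i) ∧
      ¬ (dd i).Gd c D W0 W1 C h ((dd i).z (ptr F J e.2)) (ptr F J e.1) := ⟨_, rfl⟩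
    obtain ⟨R, hR⟩ : ∃ R : F.Ω × F.Ω → Prop, R = fun e => A e.2 ∧ j e.2 = N := ⟨_, rfl⟩
    obtain ⟨G, hG'⟩ : ∃ G : F.Ω × F.Ω → Prop, G = fun e =>
      ¬ Gde dd c D W0 W1 N C h j (fun i ω => A ω ∧ j ω = i) e := ⟨_, rfl⟩
    have hE' : ∀ i, (fun e : F.Ω × F.Ω => (A e.2 ∧ j e.2 = i) ∧
      ¬ (dd i).Gd c D W0 W1 C h ((dd i).z (ptr F J e.2)) (ptr F J e.1)) = E i := by
      intro i
      rw [hE]
    simp_rw [hE']
    rw [← hR, ← hG']
    rw [Pe_eq, Pe_eq]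
    simp_rw [Pe_eq]
    rw [Finset.sum_comm, ← Finset.sum_add_distrib]
    refine Finset.sum_le_sum fun e _ => ?_
    have hnn := hlP.nonneg e
    have hs0 : ∀ i ∈ range N, 0 ≤ (if E i e then P2 pA (slam F W0) e else 0) := by
      intro i _
      split_ifs
      · exact hnn
      · exact le_rfl
    have hr0 : 0 ≤ (if R e then P2 pA (slam F W0) e else 0) := by
      split_ifs
      · exact hnn
      · exact le_rfl
    by_cases hG : G e
    · rw [if_pos hG]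
      rcases hnn.eq_or_lt with h0 | h0
      · rw [← h0] at hr0 hs0 ⊢
        exact add_nonneg hr0 (Finset.sum_nonneg hs0)
      have hA2 : A e.2 := by
        have h3 := ((P2_pos hlA e).1 h0).2.1
        rw [hpA] at h3
        exact cond_supp h3
      rcases (hj e.2).eq_or_lt with h3 | h3
      · have hRe : R e := by
          rw [hR]
          exact ⟨hA2, h3⟩
        rw [if_pos hRe]
        exact le_add_of_nonneg_right (Finset.sum_nonneg hs0)
      · have h4 : E (j e.2) e := by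
          rw [hE]
          refine ⟨⟨hA2, rfl⟩, fun h5 => ?_⟩
          rw [hG'] at hG
          exact hG ⟨h3, ⟨hA2, rfl⟩, h5⟩
        have h5 := Finset.single_le_sum hs0 (Finset.mem_range.2 h3)
        rw [if_pos h4] at h5
        exact h5.trans (le_add_of_nonneg_left hr0)
    · rw [if_neg hG]
      exact add_nonneg hr0 (Finset.sum_nonneg hs0)
  have h3 : ∑ i ∈ range N, Pe (P2 pA (slam F W0)) (fun e => (A e.2 ∧ j e.2 = i) ∧
      ¬ (dd i).Gd c D W0 W1 C h ((dd i).z (ptr F J e.2)) (ptr F J e.1)) ≤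
      ∑ i ∈ range N, (Pe pA (fun ω => A ω ∧ j ω = i) * a + b) :=
    Finset.sum_le_sum fun i hi => hp i (Finset.mem_range.1 hi)
  rw [Finset.sum_add_distrib, ← Finset.sum_mul, Finset.sum_const, Finset.card_range,
    nsmul_eq_mul] at h3
  have h4 := mul_le_mul_of_nonneg_right (sum_parts hlA A j N) ha
  linarith

theorem sig_eq {m J : ℕ} {F : Fam m J} {r : ℕ} (dd : ℕ → LDat F r) {i i' : ℕ} (h : i = i')
    {ξ ξ' : PtT F} (hz : (dd i).z ξ = (dd i).z ξ') :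
    (⟨i, (dd i).z ξ⟩ : Σ i, (dd i).V) = ⟨i', (dd i').z ξ'⟩ := by
  subst h
  rw [hz]

/-- **(H2)**, with the loss `η` of the last coordinate. -/
theorem h2N {S : PCl m}
    (hmem : ∀ (τ : ℝ) (J : ℕ) (F : Fam m J) (A : F.Ω → Prop), S.St τ J F A →
      F.Tr ∧ F.Tm (τ * J) ∧ F.Rb (τ * J) ∧ Real.exp (-(τ * J)) ≤ Pe F.p A)
    {c : ℕ → Fin m} {r D : ℕ} {w0 w1 : ℝ} {g : ℕ → ℝ} (hKP : KP r)
    (hex : ∀ ρ : ℝ, 0 < ρ → ExvY S w1 (fun J F ω (i : Fin r) => F.X J ω (c i))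
      ((∑ l ∈ range r, (1 - g l)) - ρ))
    {η : ℝ} (hη0 : 0 ≤ η) (hw0 : 0 ≤ w0) (hw01 : w0 < w1) (hw1η : w1 + η < 1)
    (hc : ∀ i, ∃ l ≤ r, c l = i) (heq : EqN S c r D w1 g η) :
    Pool.PLN.H2S S w0 w1 ((r + 1 + D) * Real.log 2 * (w1 - w0) + η) := by
  classical
  intro ρ hρ
  have hw1 : w1 < 1 := by linarith
  have hl2 : 0 < Real.log 2 := Real.log_pos one_lt_two
  have hl2' : Real.log 2 ≤ 1 := by
    have := Real.log_two_lt_d9
    linarith
  have hl2'' : 1 / 2 ≤ Real.log 2 := by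
    have := Real.log_two_gt_d9
    linarith
  have hD0 : (0 : ℝ) ≤ D := Nat.cast_nonneg D
  -- the constants
  obtain ⟨K, hK⟩ := heq
  obtain ⟨C, hC, hfew⟩ := few_law r D K
  obtain ⟨Ĉ, hĈ, hent⟩ := few_ent r D hC
  obtain ⟨h', hh'⟩ : ∃ h' : ℝ, h' = min (ρ / (16 * (2 * D + 1))) ((1 - η - w1) / 2) := ⟨_, rfl⟩
  have hh'0 : 0 < h' := by
    rw [hh']
    exact lt_min (by positivity) (by linarith)
  have hh'ρ : (2 * (D : ℝ) + 1) * h' ≤ ρ / 16 := by
    have h1 : h' ≤ ρ / (16 * (2 * D + 1)) := by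
      rw [hh']
      exact min_le_left _ _
    rw [le_div_iff₀ (by positivity)] at h1
    linarith
  have hh'w : h' ≤ (1 - η - w1) / 2 := by
    rw [hh']
    exact min_le_right _ _
  obtain ⟨β, hβ⟩ : ∃ β : ℝ, β = ρ / 32 := ⟨_, rfl⟩
  have hβ0 : 0 < β := by
    rw [hβ]
    positivity
  obtain ⟨δ₃, hδ₃⟩ : ∃ δ₃ : ℝ, δ₃ = β * h' / (12 * C) := ⟨_, rfl⟩
  have hδ₃0 : 0 < δ₃ := by
    rw [hδ₃]
    positivity
  obtain ⟨N₀, φ₁, hφ₁, hmx⟩ := mxc_w r hmem (c := c) (g := g) (hw0.trans hw01.le) hw1.le hex hδ₃0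
  obtain ⟨φ, hφ⟩ : ∃ φ : ℝ, φ = min φ₁ (ρ / (16 * (Ĉ + 1))) := ⟨_, rfl⟩
  have hφ0 : 0 < φ := by
    rw [hφ]
    exact lt_min hφ₁ (by positivity)
  have hφφ : φ ≤ φ₁ := by
    rw [hφ]
    exact min_le_left _ _
  have hφρ : Ĉ * φ ≤ ρ / 16 := by
    have h1 : φ ≤ ρ / (16 * (Ĉ + 1)) := by
      rw [hφ]
      exact min_le_right _ _
    rw [le_div_iff₀ (by positivity)] at h1
    nlinarith
  obtain ⟨κ₀, hκ₀, hBas⟩ := hK φ hφ0
  have hη₁0 : 0 < β / 3 := by positivity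
  obtain ⟨N, hN⟩ := Pool.NJ34C.parts κ₀ (β / 3) hκ₀ hη₁0
  obtain ⟨δ₄, hδ₄⟩ : ∃ δ₄ : ℝ, δ₄ = β * h' / (6 * C * (N + 1)) := ⟨_, rfl⟩
  have hN0 : (0 : ℝ) ≤ N := Nat.cast_nonneg N
  have hδ₄0 : 0 < δ₄ := by
    rw [hδ₄]
    positivity
  obtain ⟨θ, hθ, J₁, hbk⟩ := bk_gen hKP (ρ / 16) (by positivity)
  obtain ⟨δ₅, hδ₅⟩ : ∃ δ₅ : ℝ, δ₅ = min (ρ / 32) (θ / 2) := ⟨_, rfl⟩
  have hδ₅0 : 0 < δ₅ := by
    rw [hδ₅]
    exact lt_min (by positivity) (by positivity)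
  have hδ₅ρ : δ₅ ≤ ρ / 32 := by
    rw [hδ₅]
    exact min_le_left _ _
  have hδ₅θ : δ₅ ≤ θ / 2 := by
    rw [hδ₅]
    exact min_le_right _ _
  have hpos : Bas S (fun J F A => 0 < Pe F.p A) :=
    ⟨1, one_pos, 0, fun J _ F A h => lt_of_lt_of_le (Real.exp_pos _) (hmem _ J F A h).2.2.2⟩
  have b1 := bas_frc hBas hη₁0
  have b2 := bas_frc (hmx.and (tdg_w hmem w1 hδ₃0)) (mul_pos hκ₀ hη₁0)
  have b3 := Pool.NJ34C.sgn_few hmem hw0 hw01 hw1.le hθ
  have b4 := Pool.NJ34C.tim_few hmem hw0 hw01.le hw1.le hδ₅0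
  have b5 := Pool.NJ34C.win_few hmem hw0 hw01.le hw1.le hδ₅0
  -- the large numbers
  obtain ⟨ℓN, hℓN⟩ : ∃ ℓN : ℝ, ℓN = Real.log (N + 1) := ⟨_, rfl⟩
  have hℓN0 : 0 ≤ ℓN := by
    rw [hℓN]
    exact Real.log_nonneg (by linarith)
  obtain ⟨cst, hcst⟩ : ∃ cst : ℝ, cst = (r + 1 + D) + 2 + Ĉ + m * Real.log 9 + 2 * ℓN := ⟨_, rfl⟩
  obtain ⟨J₂, hJ₂⟩ := exists_nat_ge (16 * cst / ρ)
  obtain ⟨J₃, hJ₃⟩ := exists_nat_ge (C / h')
  obtain ⟨J₄, hJ₄⟩ := exists_nat_ge (6 * C * (N + 1) / (h' * β))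
  obtain ⟨J₅, hJ₅⟩ := exists_nat_ge (2 * ℓN / θ)
  refine (((b1.and b2).and (hpos.and (tdg_w hmem w0 hδ₄0))).and (b3.and (b4.and b5))).mono
    (max (max (max J₁ J₂) (max J₃ J₄)) (max J₅ 3)) ?_
  rintro J hJ F A ⟨⟨⟨q1, q2⟩, hA, q3⟩, q4, q5, q6⟩
  intro V z z' hz
  obtain ⟨W0, hW0⟩ : ∃ W, W = ⌊w0 * J⌋₊ := ⟨_, rfl⟩
  obtain ⟨W1, hW1⟩ : ∃ W, W = ⌊w1 * J⌋₊ := ⟨_, rfl⟩
  have hJ1 : J₁ ≤ J := (le_max_left _ _).trans ((le_max_left _ _).trans ((le_max_left _ _).trans hJ))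
  have hJ2 : (J₂ : ℝ) ≤ J := by
    exact_mod_cast (le_max_right J₁ _).trans ((le_max_left _ _).trans ((le_max_left _ _).trans hJ))
  have hJ3 : (J₃ : ℝ) ≤ J := by
    exact_mod_cast (le_max_left J₃ J₄).trans ((le_max_right _ _).trans ((le_max_left _ _).trans hJ))
  have hJ4 : (J₄ : ℝ) ≤ J := by
    exact_mod_cast (le_max_right J₃ _).trans ((le_max_right _ _).trans ((le_max_left _ _).trans hJ))
  have hJ5 : (J₅ : ℝ) ≤ J := by
    exact_mod_cast (le_max_left J₅ _).trans ((le_max_right _ _).trans hJ)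
  have hJ6 : (3 : ℝ) ≤ J := by
    exact_mod_cast (le_max_right J₅ _).trans ((le_max_right _ _).trans hJ)
  have hJ0 : (0 : ℝ) < J := by linarith
  have hJcst : cst ≤ ρ / 16 * J := by
    have h1 := hJ₂.trans hJ2
    rw [div_le_iff₀ hρ] at h1
    linarith
  have hJC : C ≤ h' * J := by
    have h1 := hJ₃.trans hJ3
    rw [div_le_iff₀ hh'0] at h1
    linarith
  have hJN : 6 * C * (N + 1) ≤ h' * β * J := by
    have h1 := hJ₄.trans hJ4
    rw [div_le_iff₀ (by positivity)] at h1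
    linarith
  have hJθ : 2 * ℓN ≤ θ * J := by
    have h1 := hJ₅.trans hJ5
    rw [div_le_iff₀ hθ] at h1
    linarith
  have hW : W0 ≤ W1 := by
    rw [hW0, hW1]
    exact Nat.floor_le_floor (mul_le_mul_of_nonneg_right hw01.le hJ0.le)
  have hWw : (W1 : ℝ) ≤ w1 * J := by
    rw [hW1]
    exact Nat.floor_le (mul_nonneg (hw0.trans hw01.le) hJ0.le)
  have hWw0 : w0 * J < W0 + 1 := by
    rw [hW0]
    exact Nat.lt_floor_add_one _
  have hW1J : W1 ≤ J := by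
    have : (W1 : ℝ) ≤ J := hWw.trans (mul_le_of_le_one_left hJ0.le hw1.le)
    exact_mod_cast this
  have hWd : ((W1 - W0 : ℕ) : ℝ) ≤ (w1 - w0) * J + 1 := by
    rw [Nat.cast_sub hW]
    linarith
  obtain ⟨pA, hpA⟩ : ∃ q, q = Pool.Agent.H49.Ent.cond F.p A True := ⟨_, rfl⟩
  have hlA : IsLaw pA := by
    rw [hpA]
    exact isLaw_cond F.isLaw hA
  change CH (P2 (Pool.Agent.H49.Ent.cond F.p A True) (slam F ⌊w0 * J⌋₊)) _ _ ≤ _
  rw [← hW0, ← hpA]
  rw [← hW1] at hz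
  -- the parts
  obtain ⟨j, hjN, hparts, hrest⟩ := hN F.isLaw.nonneg A
    (fun B' => κ₀ * (β / 3) * Pe F.p A ≤ Pe F.p B' ∧ ∃ d : LDat F r, d.Ok c D K W1 g η φ B') (by
      intro B hB hP
      obtain ⟨B', d, h1, h2, h3⟩ := q1 B hB hP
      rw [← hW1] at h3
      refine ⟨B', h1, h2, ?_, d, h3⟩
      refine le_trans ?_ h2
      rw [mul_assoc]
      exact mul_le_mul_of_nonneg_left hP hκ₀.le)
  have hdd : ∀ i, ∃ d : LDat F r, (i < N → (∃ ω, A ω ∧ j ω = i) →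
      d.Ok c D K W1 g η φ (fun ω => A ω ∧ j ω = i) ∧
      κ₀ * (β / 3) * Pe F.p A ≤ Pe F.p (fun ω => A ω ∧ j ω = i)) ∧
      ∀ ω ω', (A ω ∧ j ω = i) → (A ω' ∧ j ω' = i) → slam F W1 ω = slam F W1 ω' →
        d.z (ptr F J ω) = d.z (ptr F J ω') := by
    intro i
    by_cases hi : i < N ∧ ∃ ω, A ω ∧ j ω = i
    · rcases hparts i hi.1 with h1 | h1
      · obtain ⟨h2, d, h3⟩ := h1
        refine ⟨d, fun _ _ => ⟨h3, h2⟩, fun ω ω' hω hω' h4 => ?_⟩
        rw [h3.lab.cls ω hω, h3.lab.cls ω' hω', h4]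
      · obtain ⟨ω, hω⟩ := hi.2
        exact absurd hω (h1 ω)
    · exact ⟨default, fun h1 h2 => absurd ⟨h1, h2⟩ hi, fun _ _ _ _ _ => rfl⟩
  choose dd hdd hddz using hdd
  -- the pairs
  have hlP := P2_isLaw hlA (slam F W0)
  obtain ⟨Kz, hKz⟩ : ∃ Kz : F.Ω × F.Ω → (Σ i, (dd i).V) × V, Kz = fun e =>
    (⟨j e.2, (dd (j e.2)).z (ptr F J e.2)⟩, z (ptr F J e.2)) := ⟨_, rfl⟩
  -- the bad pairs
  have hbad : Pe (P2 pA (slam F W0)) (fun e => ¬ Gde dd c D W0 W1 N C (h' * J) j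
      (fun i ω => A ω ∧ j ω = i) e) ≤ β := by
    have h1 := bad_le hA dd c (D := D) (W0 := W0) (W1 := W1) (N := N) (C := C) (h := h' * J)
      (a := C * (1 + δ₃ * J + δ₃ * J) / (h' * J)) (b := C * (1 + δ₄ * J) / (h' * J))
      (η₁ := β / 3) j hjN (by positivity) hrest (by
      intro i hi
      by_cases hne : ∃ ω, A ω ∧ j ω = i
      · obtain ⟨hOk, hmass⟩ := hdd i hi hne
        obtain ⟨hm', ht1⟩ := q2 (fun ω => A ω ∧ j ω = i) (fun ω h => h.1) hmass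
        have hB : 0 < Pe F.p (fun ω => A ω ∧ j ω = i) := lt_of_lt_of_le (by positivity) hmass
        have hlB := isLaw_cond F.isLaw hB
        obtain ⟨N', -, hMx⟩ := hm' (dd i).P₀ (dd i).g (dd i).sg K (dd i).L (dd i).V (dd i).z
          (dd i).z' (dd i).P (fun l hl => by
            have h2 := hOk.g_ge l hl
            have h3 : φ * J ≤ φ₁ * J := mul_le_mul_of_nonneg_right hφφ hJ0.le
            linarith) (by rw [← hW1]; exact fun i hi => (hOk.wds i hi).2) hOk.P_le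
          (by rw [← hW1]; exact hOk.lab)
        rw [← hW1] at hMx
        have hful := hMx.ful (zx := (dd i).z) (zl := (dd i).z')
          (fun ω hω => hOk.lab.cls ω (cond_supp (B := fun ω => A ω ∧ j ω = i) hω))
        rw [Ex_const hlB.sum_one] at hful
        have hT1 := ht1 (dd i).P₀ (by rw [← hW1]; exact hOk.W_le) hOk.P_le
        rw [← hW1] at hT1
        have hT0 := q3 (dd i).P₀ (by rw [← hW0]; exact hW.trans hOk.W_le) hOk.P_le
        rw [← hW0] at hT0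
        have h2 := hfew (c := c) (W0 := W0) (A := A) (dd i).Qh (dd i).ρ (h := h' * J)
          (X := (dd i).X D C) (μ := δ₃ * J) (δ₁ := δ₃ * J) (δ₂ := δ₄ * J) (fun ω h => h.1) hA hB
          hOk.lab hOk.L_nn hW hOk.W_le hOk.P_le hOk.g_r hOk.wds hOk.eqn hOk.ρ_ge hful
          (by positivity) hT1 hT0 (by positivity) (by positivity) hJC (by
            have h3 : (1 - η - w1) * J ≤ ((dd i).P₀ - W1 : ℕ) := by
              rw [Nat.cast_sub hOk.W_le]
              have h4 := hOk.P_ge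
              have h5 : (0 : ℝ) ≤ (dd i).sg := Nat.cast_nonneg _
              linarith
            have h4 : ((2 ^ ((dd i).P₀ - W1) : ℕ) : ℝ) =
                Real.exp (((dd i).P₀ - W1 : ℕ) * Real.log 2) := by
              rw [Real.exp_nat_mul, Real.exp_log (by norm_num)]
              push_cast
              rfl
            rw [h4]
            refine Real.exp_le_exp.2 ?_
            have h5 : h' * J ≤ (1 - η - w1) / 2 * J := mul_le_mul_of_nonneg_right hh'w hJ0.le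
            have h6 : (1 - η - w1) * J * (1 / 2) ≤ ((dd i).P₀ - W1 : ℕ) * Real.log 2 := by
              refine mul_le_mul h3 hl2'' (by norm_num) ?_
              exact Nat.cast_nonneg _
            linarith) le_rfl
        rw [← hpA] at h2
        rw [← hpA]
        exact h2
      · have h2 : Pe (P2 (Pool.Agent.H49.Ent.cond F.p A True) (slam F W0))
            (fun e => (A e.2 ∧ j e.2 = i) ∧ ¬ (dd i).Gd c D W0 W1 C (h' * J)
              ((dd i).z (ptr F J e.2)) (ptr F J e.1)) = 0 := by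
          rw [Pe_eq]
          refine Finset.sum_eq_zero fun e _ => ?_
          rw [if_neg]
          exact fun h => hne ⟨e.2, h.1⟩
        rw [h2]
        have h3 := Pe_nonneg (isLaw_cond F.isLaw hA) (fun ω => A ω ∧ j ω = i)
        positivity)
    rw [← hpA] at h1
    refine h1.trans ?_
    have hhJ : 0 < h' * J := by positivity
    have e1 : C * (1 + δ₃ * J + δ₃ * J) / (h' * J) ≤ β / 3 := by
      rw [div_le_iff₀ hhJ]
      have h2 : C * (δ₃ * J) = β * h' * J / 12 := by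
        rw [hδ₃]
        field_simp
      have h3 : 6 * C ≤ h' * β * J := by
        refine le_trans ?_ hJN
        have hCN : 6 * C * 1 ≤ 6 * C * (N + 1) :=
          mul_le_mul_of_nonneg_left (by linarith) (by linarith)
        linarith
      linarith
    have e2 : N * (C * (1 + δ₄ * J) / (h' * J)) ≤ β / 3 := by
      rw [← mul_div_assoc, div_le_iff₀ hhJ]
      have h2 : C * (N + 1) * (δ₄ * J) = β * h' * J / 6 := by
        rw [hδ₄]
        field_simp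
      have h3 : 0 ≤ C * (1 + δ₄ * J) := by positivity
      have h4 : N * (C * (1 + δ₄ * J)) ≤ (N + 1) * (C * (1 + δ₄ * J)) :=
        mul_le_mul_of_nonneg_right (by linarith) h3
      linarith
    linarith
  -- the chain
  have g1 : CH (P2 pA (slam F W0)) Kz (fun e => ptr F J e.2) ≤ ℓN := by
    have h1 : CH (P2 pA (slam F W0)) Kz (fun e => ptr F J e.2) ≤
        CH (P2 pA (slam F W0)) (fun e => j e.2) (fun e => ptr F J e.2) := by
      refine CH_mono_left hlP.nonneg fun e e' _ _ h => ?_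
      have h2 := Prod.ext_iff.1 h
      have h3 : j e.2 = j e'.2 := h2.1
      have h4 : ptr F J e.2 = ptr F J e'.2 := h2.2
      rw [hKz]
      refine Prod.ext ?_ ?_
      · exact sig_eq dd h3 (by rw [h4])
      · change z (ptr F J e.2) = z (ptr F J e'.2)
        rw [h4]
    refine h1.trans ?_
    have h2 := CH_le_card hlP.nonneg hlP.sum_one (fun e : F.Ω × F.Ω => j e.2)
      (fun e => ptr F J e.2) (fun _ => Finset.range (N + 1))
      (fun e _ => Finset.mem_range.2 (Nat.lt_succ_of_le (hjN e.2)))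
    rw [Ex_const hlP.sum_one, Finset.card_range] at h2
    push_cast at h2
    rw [hℓN]
    exact h2
  have hsup : ∀ e, 0 < P2 pA (slam F W0) e → A e.2 ∧ slam F W0 e.1 = slam F W0 e.2 := by
    intro e he
    have h1 := (P2_pos hlA e).1 he
    refine ⟨?_, h1.2.2⟩
    have h2 := h1.2.1
    rw [hpA] at h2
    exact cond_supp h2
  have g2 := q5 N j Kz hjN (by
    rw [← hW0, ← hW1, ← hpA]
    intro e e' he he' h1 h2
    have h3 := (hsup e he).1
    have h4 := (hsup e' he').1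
    rw [hKz]
    refine Prod.ext ?_ ?_
    · exact sig_eq dd h1 (hddz (j e.2) e.2 e'.2 ⟨h3, rfl⟩ ⟨h4, h1.symm⟩ h2)
    · change z (ptr F J e.2) = z (ptr F J e'.2)
      rw [hz _ h3, hz _ h4, h2])
  rw [← hW0, ← hW1, ← hpA] at g2 q4 q6
  rw [← hℓN] at g2
  obtain ⟨Y, hY⟩ : ∃ Y : F.Ω × F.Ω → ((Σ i, (dd i).V) × V) ×
      (ℕ × (((Fin m → ℤ) × F.ζ) × ℕ)), Y = fun e =>
      (Kz e, (F.T1 W1 e.2, (bal F W0 e.1, F.T e.1))) := ⟨_, rfl⟩
  have g4 := hbk J hJ1 (P2 pA (slam F W0)) hlP (fun e (i : Fin r) => F.u e.1 (c i))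
    (fun e (i : Fin r) => F.d e.1 (c i)) (fun e i => F.dir e.1 (c i)) W0 W1 hW hW1J
    (fun e => F.T e.1) (fun e => F.T e.2) Y (by
      intro e e' _ _ h
      rw [hY] at h
      have h1 := Prod.ext_iff.1 (Prod.ext_iff.1 h).2
      have h2 := Prod.ext_iff.1 h1.2
      exact ⟨h2.2, h1.1⟩) (by
      intro e he
      exact (Prod.ext_iff.1 (Prod.ext_iff.1 (hsup e he).2).2).2) (by
      refine le_trans ?_ (le_trans g2 (CH_mono_cond hlP.nonneg fun e e' _ _ h => ?_))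
      · have h1 : δ₅ * J ≤ θ / 2 * J := mul_le_mul_of_nonneg_right hδ₅θ hJ0.le
        linarith
      · have h1 := Prod.ext_iff.1 h
        have h2 := Prod.ext_iff.1 h1.2
        have h3 : F.T1 W1 e.2 = F.T1 W1 e'.2 := (Prod.ext_iff.1 (Prod.ext_iff.1 h1.1).2).2
        have h4 : e.1 = e'.1 := h2.2
        have h5 : Kz e = Kz e' := h2.1
        rw [hY]
        simp only [h4, h5, h3]) q4
  have g4' : CH (P2 pA (slam F W0)) (fun e (i : Fin r) => F.X J e.1 (c i)) Y ≤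
      CH (P2 pA (slam F W0)) (fun e (i : Fin r) => F.X J e.2 (c i)) (fun e => (F.T e.2, Y e)) +
        (r * (((W1 - W0 : ℕ) : ℝ) * Real.log 2) + ρ / 16 * J) := by
    have e1 : (fun (e : F.Ω × F.Ω) (i : Fin r) => F.X J e.1 (c i)) = fun e =>
        fl J (pst (fun e (i : Fin r) => F.u e.1 (c i)) (fun e (i : Fin r) => F.d e.1 (c i)) J
          (fun e => (F.T e.1 : ℤ)) e) := by
      funext e i
      change fl J (F.x e.1) (c i) = _
      unfold fl pst Fam.x Fam.t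
      rw [Int.cast_natCast]
      rfl
    have e2 : CH (P2 pA (slam F W0)) (fun e (i : Fin r) => F.X J e.2 (c i))
        (fun e => (F.T e.2, Y e)) = CH (P2 pA (slam F W0)) (fun e =>
        fl J (pst (fun e (i : Fin r) => F.u e.1 (c i)) (fun e (i : Fin r) => F.d e.1 (c i)) J
          (fun e => (F.T e.2 : ℤ)) e)) (fun e => (F.T e.2, Y e)) := by
      have e3 : ∀ e, 0 < P2 pA (slam F W0) e → (fun (i : Fin r) => F.X J e.2 (c i)) =
          fl J (pst (fun e (i : Fin r) => F.u e.1 (c i)) (fun e (i : Fin r) => F.d e.1 (c i)) J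
          (fun e => (F.T e.2 : ℤ)) e) := by
        intro e he
        have h1 := Prod.ext_iff.1 (Prod.ext_iff.1 (hsup e he).2).1
        have h2 : F.u e.1 = F.u e.2 := h1.1
        have h3 : F.d e.1 = F.d e.2 := h1.2
        funext i
        change fl J (F.x e.2) (c i) = _
        unfold fl pst Fam.x Fam.t
        simp only [Int.cast_natCast, h2, h3]
        rfl
      refine CH_congr hlP.nonneg ?_ ?_ (fun _ _ _ _ h => h) (fun _ _ _ _ h => h)
      · intro e e' he he' h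
        exact (e3 e he).symm.trans ((Prod.ext_iff.1 h).1.trans (e3 e' he'))
      · intro e e' he he' h
        exact (e3 e he).trans ((Prod.ext_iff.1 h).1.trans (e3 e' he').symm)
    rw [e1, e2]
    exact g4
  have g5 := hent (F := F) hlA c (W0 := W0) (W1 := W1) (K := K) (N := N) (g := g) (η := η)
    (φ := φ) (h := h' * J) dd j (fun i ω => A ω ∧ j ω = i) Kz (by
      intro e
      rw [hKz]) (fun i hi hne => (hdd i hi hne).1) hW hW1J (by positivity) hφ0.le hη0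
  have g6 := h2_chain hlA hW hW1J Kz c hc g1 g2 q6 (Eb := r * (((W1 - W0 : ℕ) : ℝ) *
    Real.log 2) + ρ / 16 * J) (by
      rw [hY] at g4'
      exact g4') g5
  have g7 : CH (P2 pA (slam F W0)) (fun v => z (ptr F J v.2)) (fun v => ptr F J v.1) ≤
      CH (P2 pA (slam F W0)) Kz (fun e => ptr F J e.1) := by
    refine CH_mono_left hlP.nonneg fun e e' _ _ h => ?_
    have h1 : Kz e = Kz e' := (Prod.ext_iff.1 h).1
    rw [hKz] at h1
    exact (Prod.ext_iff.1 h1).2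
  refine g7.trans (g6.trans ?_)
  have k1 : ((r : ℝ) + 1 + D) * Real.log 2 * ((W1 - W0 : ℕ) : ℝ) ≤
      (r + 1 + D) * Real.log 2 * (w1 - w0) * J + (r + 1 + D) := by
    have h1 : 0 ≤ ((r : ℝ) + 1 + D) * Real.log 2 := by positivity
    have h2 := mul_le_mul_of_nonneg_left hWd h1
    have h3 : ((r : ℝ) + 1 + D) * Real.log 2 ≤ r + 1 + D :=
      mul_le_of_le_one_right (by positivity) hl2'
    linarith
  have k2 : Ĉ * (φ * J) ≤ ρ / 16 * J := by
    rw [← mul_assoc]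
    exact mul_le_mul_of_nonneg_right hφρ hJ0.le
  have k3 : (2 * (D : ℝ) + 1) * (h' * J) ≤ ρ / 16 * J := by
    rw [← mul_assoc]
    exact mul_le_mul_of_nonneg_right hh'ρ hJ0.le
  have k5 : Pe (P2 pA (slam F W0)) (fun e => ¬ Gde dd c D W0 W1 N C (h' * J) j
      (fun i ω => A ω ∧ j ω = i) e) * ((J : ℝ) + 3) ≤ ρ / 16 * J := by
    have h1 : (J : ℝ) + 3 ≤ 2 * J := by linarith
    calc _ ≤ β * (2 * J) := mul_le_mul hbad h1 (by linarith) hβ0.le
      _ = ρ / 16 * J := by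
        rw [hβ]
        ring
  have k6 : δ₅ * J ≤ ρ / 32 * J := mul_le_mul_of_nonneg_right hδ₅ρ hJ0.le
  have k7 : 0 ≤ ρ * J := by positivity
  rw [hcst] at hJcst
  linarith

/-- **(H2)**. -/
theorem h2S {S : PCl m}
    (hmem : ∀ (τ : ℝ) (J : ℕ) (F : Fam m J) (A : F.Ω → Prop), S.St τ J F A →
      F.Tr ∧ F.Tm (τ * J) ∧ F.Rb (τ * J) ∧ Real.exp (-(τ * J)) ≤ Pe F.p A)
    {c : ℕ → Fin m} {r D : ℕ} {w0 w1 : ℝ} {g : ℕ → ℝ} (hKP : KP r)
    (hex : ∀ ρ : ℝ, 0 < ρ → ExvY S w1 (fun J F ω (i : Fin r) => F.X J ω (c i))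
      ((∑ l ∈ range r, (1 - g l)) - ρ))
    (hw0 : 0 ≤ w0) (hw01 : w0 < w1) (hw1 : w1 < 1) (hc : ∀ i, ∃ l ≤ r, c l = i)
    (heq : EqS S c r D w1 g) :
    Pool.PLN.H2S S w0 w1 ((r + 1 + D) * Real.log 2 * (w1 - w0)) := by
  intro ρ hρ
  obtain ⟨η, hη⟩ : ∃ η : ℝ, η = min (ρ / 2) ((1 - w1) / 2) := ⟨_, rfl⟩
  have hη0 : 0 < η := by
    rw [hη]
    exact lt_min (by positivity) (by linarith)
  have hη1 : η ≤ ρ / 2 := by
    rw [hη]
    exact min_le_left _ _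
  have hη2 : η ≤ (1 - w1) / 2 := by
    rw [hη]
    exact min_le_right _ _
  refine (h2N hmem hKP hex hη0.le hw0 hw01 (by linarith) hc (heq η hη0) (ρ / 2)
    (by positivity)).mono 0 fun J _ F A h V z z' hz => (h V z z' hz).trans ?_
  exact mul_le_mul_of_nonneg_right (by linarith) (Nat.cast_nonneg J)

end Pool.NJ34
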