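import Pool.Agent.H99.FRT.TwoH

/-!
# The entropy of the position at a distant time, backwards

A line with a time `t` and a second time `T` whose window of length `2 ^ (-w1)` is known, and which
is nearly uniform in this window given the line: the entropy of the position at the time `t`
exceeds the entropy of the position at the time `T` by at most `k (w1 - w0) log 2`, if the two times
are in one window of length `2 ^ (-w0)`, up to `ε J` (`bk_gen`).
The core is the inequality `KP k` after a projective change of the time: the new time is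
`D (D + M) / |T - t| - D`, where `D` is the distance of `t` from the window of `T`, the direction is
the position at the time `t`.
-/

set_option autoImplicit false

namespace Pool.NJ34

open Finset Real
open Pool.Agent.H49.Ent Pool.Agent.H32.Dense Pool.STK Pool.KA
open Pool.TWO (cond_full fl_split floor_two floor_same law_cond')

variable {k J : ℕ}

/-! ### The new time -/

/-- The new time as a real number. -/
noncomputable def rat (D M a : ℕ) : ℝ := (D : ℝ) * (D + M) / (D + a) - D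

/-- The new time. -/
noncomputable def ntm (D M a : ℕ) : ℕ := ⌊rat D M a / 2⌋₊

theorem rat_le (D M a : ℕ) : rat D M a ≤ M := by
  have hD : (0 : ℝ) ≤ D := Nat.cast_nonneg D
  have hM : (0 : ℝ) ≤ M := Nat.cast_nonneg M
  have ha : (0 : ℝ) ≤ a := Nat.cast_nonneg a
  unfold rat
  have h1 : (D : ℝ) * (D + M) / (D + a) ≤ D + M := by
    rcases hD.eq_or_lt with h | h
    · rw [← h, zero_mul, zero_div]
      linarith
    · rw [div_le_iff₀ (by linarith)]
      nlinarith
  linarith

theorem rat_nonneg {D M a : ℕ} (h : a ≤ M) : 0 ≤ rat D M a := by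
  have hD : (0 : ℝ) ≤ D := Nat.cast_nonneg D
  have hM : (a : ℝ) ≤ M := by exact_mod_cast h
  have ha : (0 : ℝ) ≤ a := Nat.cast_nonneg a
  unfold rat
  rcases hD.eq_or_lt with h | h
  · rw [← h, zero_mul, zero_div, sub_zero]
  · have : (D : ℝ) ≤ D * (D + M) / (D + a) := by
      rw [le_div_iff₀ (by linarith)]
      nlinarith
    linarith

theorem ntm_lt {D M a : ℕ} (hM : 0 < M) : ntm D M a < M := by
  have h1 := rat_le D M a
  have hM' : (0 : ℝ) < M := by exact_mod_cast hM
  unfold ntm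
  rcases le_or_gt 0 (rat D M a / 2) with h | h
  · rw [Nat.floor_lt h]
    linarith
  · rw [Nat.floor_of_nonpos h.le]
    exact hM

theorem ntm_cast {D M a : ℕ} (h : a ≤ M) :
    ((ntm D M a : ℕ) : ℝ) = rat D M a / 2 - Int.fract (rat D M a / 2) := by
  have h0 : 0 ≤ rat D M a / 2 := by
    have := rat_nonneg (D := D) h
    linarith
  have e1 := Int.self_sub_floor (rat D M a / 2)
  have e2 : ((⌊rat D M a / 2⌋ : ℤ) : ℝ) = ((ntm D M a : ℕ) : ℝ) := by
    unfold ntm
    rw [← Int.natCast_floor_eq_floor h0]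
    push_cast
    rfl
  rw [← e2]
  linarith

/-- The times with the same new time. -/
theorem ntm_near {D M a a' : ℕ} (hDM : M ≤ D) (ha : a < M) (ha' : a' < M)
    (h : ntm D M a = ntm D M a') : |(((a : ℤ) - (a' : ℤ) : ℤ) : ℝ)| ≤ 4 := by
  have e1 := ntm_cast (D := D) ha.le
  have e2 := ntm_cast (D := D) ha'.le
  have f1 := Int.fract_nonneg (rat D M a / 2)
  have f2 := Int.fract_lt_one (rat D M a / 2)
  have f3 := Int.fract_nonneg (rat D M a' / 2)
  have f4 := Int.fract_lt_one (rat D M a' / 2)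
  rw [h] at e1
  have hA : (0 : ℝ) ≤ a := Nat.cast_nonneg a
  have hA' : (0 : ℝ) ≤ a' := Nat.cast_nonneg a'
  have hB : (a : ℝ) < M := by exact_mod_cast ha
  have hB' : (a' : ℝ) < M := by exact_mod_cast ha'
  have hD : (M : ℝ) ≤ D := by exact_mod_cast hDM
  have hM : (0 : ℝ) < M := lt_of_le_of_lt hA hB
  have hD0 : (0 : ℝ) < D := hM.trans_le hD
  have hd : |rat D M a - rat D M a'| ≤ 2 := by
    rw [abs_le]
    constructor <;> linarith
  have p1 : (0 : ℝ) < D + a := by linarith
  have p2 : (0 : ℝ) < D + a' := by linarith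
  have e3 : (rat D M a - rat D M a') * ((D + a) * (D + a')) = D * (D + M) * (a' - a) := by
    unfold rat
    field_simp
    ring
  have e4 : |rat D M a - rat D M a'| * ((D + a) * (D + a')) = D * (D + M) * |(a' : ℝ) - a| := by
    have h1 := congrArg abs e3
    rw [abs_mul (rat D M a - rat D M a'), abs_mul ((D : ℝ) * (D + M)),
      abs_of_pos (mul_pos p1 p2), abs_of_pos (mul_pos hD0 (by linarith))] at h1
    exact h1
  have e5 : ((D : ℝ) + a) * (D + a') ≤ (D + M) * (D + M) :=
    mul_le_mul (by linarith) (by linarith) p2.le (by positivity)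
  have e6 : D * (D + M) * |(a' : ℝ) - a| ≤ 2 * ((D + M) * (D + M)) := by
    rw [← e4]
    calc |rat D M a - rat D M a'| * ((D + a) * (D + a')) ≤ 2 * ((D + a) * (D + a')) :=
          mul_le_mul_of_nonneg_right hd (by positivity)
      _ ≤ _ := by linarith
  have e7 : (D : ℝ) * |(a' : ℝ) - a| ≤ 2 * (D + M) := by
    have h1 : ((D : ℝ) + M) * (D * |(a' : ℝ) - a|) ≤ (D + M) * (2 * (D + M)) := by
      calc ((D : ℝ) + M) * (D * |(a' : ℝ) - a|) = D * (D + M) * |(a' : ℝ) - a| := by ring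
        _ ≤ 2 * ((D + M) * (D + M)) := e6
        _ = _ := by ring
    exact le_of_mul_le_mul_left h1 (by linarith)
  have e8 : (D : ℝ) * |(a' : ℝ) - a| ≤ D * 4 := by linarith
  have e9 := le_of_mul_le_mul_left e8 hD0
  push_cast
  rw [abs_sub_comm]
  exact e9

/-! ### The core -/

section core

variable {E S : Type} [Fintype E]

/-- The position at the time `n / 2 ^ J`. -/
noncomputable def pst (u d : E → Fin k → ℝ) (J : ℕ) (n : E → ℤ) (e : E) (i : Fin k) : ℝ :=
  u e i + (n e : ℝ) / 2 ^ J * d e i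

/-- **The family with the new time**: the direction is the position at the time `t`. -/
noncomputable def bfam (Q : E → ℝ) (hQ : IsLaw Q) (u d : E → Fin k → ℝ) (J w N : ℕ)
    (t : E → ℤ) (D a : E → ℕ) (s : ℤ) (Y : E → S) : Fam k N where
  Ω := E
  ζ := S × (Fin k → ℤ)
  fin := inferInstance
  p := Q
  u := fun e i => ((D e : ℝ) * Int.fract (2 ^ w * pst u d J t e i) +
    s * (2 ^ w / 2 ^ J) * ((D e : ℝ) * (D e + ((2 ^ N : ℕ) : ℝ))) * d e i) / (2 * 2 ^ N)
  d := fun e i => Int.fract (2 ^ w * pst u d J t e i)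
  T := fun e => ntm (D e) (2 ^ N) (a e)
  Z := fun e => (Y e, fl w (pst u d J t e))
  isLaw := hQ
  dir := fun e i => by
    rw [abs_of_nonneg (Int.fract_nonneg _)]
    exact (Int.fract_lt_one _).le
  tim := fun e => ntm_lt (by positivity)

/-- The relation between the positions. -/
theorem bfam_x (Q : E → ℝ) (hQ : IsLaw Q) (u d : E → Fin k → ℝ) (J w N : ℕ)
    (t : E → ℤ) (D a : E → ℕ) (s : ℤ) (Y : E → S) (e : E) (i : Fin k) (ha : a e < 2 ^ N)
    (hD : 2 ^ N ≤ D e) :
    2 ^ N * (bfam Q hQ u d J w N t D a s Y).x e i =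
      ((D e : ℝ) + rat (D e) (2 ^ N) (a e)) / 2 *
        (2 ^ w * pst u d J (fun e => t e + s * (D e + a e)) e i - fl w (pst u d J t e) i) -
      Int.fract (rat (D e) (2 ^ N) (a e) / 2) * Int.fract (2 ^ w * pst u d J t e i) := by
  have hx : (bfam Q hQ u d J w N t D a s Y).x e i =
      ((D e : ℝ) * Int.fract (2 ^ w * pst u d J t e i) +
        s * (2 ^ w / 2 ^ J) * ((D e : ℝ) * (D e + ((2 ^ N : ℕ) : ℝ))) * d e i) / (2 * 2 ^ N) +
        ((ntm (D e) (2 ^ N) (a e) : ℕ) : ℝ) / 2 ^ N * Int.fract (2 ^ w * pst u d J t e i) := rfl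
  have hfr : Int.fract (2 ^ w * pst u d J t e i) =
      2 ^ w * pst u d J t e i - fl w (pst u d J t e) i := by
    rw [← Int.self_sub_floor]
    rfl
  have hT : pst u d J (fun e => t e + s * (D e + a e)) e i =
      pst u d J t e i + (s : ℝ) * ((D e : ℝ) + a e) / 2 ^ J * d e i := by
    unfold pst
    push_cast
    ring
  have hDp : (0 : ℝ) < (D e : ℝ) + a e := by
    have h1 : (0 : ℝ) < D e := by
      have : 0 < D e := lt_of_lt_of_le (by positivity) hD
      exact_mod_cast this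
    have : (0 : ℝ) ≤ a e := Nat.cast_nonneg _
    linarith
  have hr : ((D e : ℝ) + rat (D e) (2 ^ N) (a e)) * ((D e : ℝ) + a e) =
      (D e : ℝ) * (D e + ((2 ^ N : ℕ) : ℝ)) := by
    unfold rat
    field_simp
    ring
  rw [hx, ntm_cast ha.le, hT]
  obtain ⟨f, hf⟩ : ∃ f, f = Int.fract (2 ^ w * pst u d J t e i) := ⟨_, rfl⟩
  rw [← hf] at hfr ⊢
  obtain ⟨g, hg⟩ : ∃ g, g = Int.fract (rat (D e) (2 ^ N) (a e) / 2) := ⟨_, rfl⟩
  rw [← hg]
  obtain ⟨x, hxx⟩ : ∃ x, x = pst u d J t e i := ⟨_, rfl⟩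
  rw [← hxx] at hfr ⊢
  obtain ⟨R, hR⟩ : ∃ R, R = rat (D e) (2 ^ N) (a e) := ⟨_, rfl⟩
  rw [← hR] at hr ⊢
  rw [← hr]
  have hz : (2 : ℝ) ^ w * (x + (s : ℝ) * ((D e : ℝ) + a e) / 2 ^ J * d e i) -
      ((fl w (pst u d J t e) i : ℤ) : ℝ) =
      f + 2 ^ w * ((s : ℝ) * ((D e : ℝ) + a e) / 2 ^ J * d e i) := by
    rw [hfr]
    ring
  rw [hz]
  have h2N : (0 : ℝ) < 2 ^ N := by positivity
  have h2J : (0 : ℝ) < 2 ^ J := by positivity
  field_simp
  ring

/-- **The core inequality.** -/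
theorem bk_core {Q : E → ℝ} (hQ : IsLaw Q) (u d : E → Fin k → ℝ) (hd : ∀ e i, |d e i| ≤ 1)
    {w0 w1 : ℕ} (hw : w0 ≤ w1) (hw1 : w1 ≤ J) (t : E → ℤ) (D a : E → ℕ) (s : ℤ)
    (hs : s = 1 ∨ s = -1) (Y : E → S)
    (hY : ∀ e e', 0 < Q e → 0 < Q e' → Y e = Y e' → t e = t e' ∧ D e = D e')
    (hD : ∀ e, 0 < Q e → 2 ^ (J - w1) ≤ D e ∧ D e ≤ 2 ^ (J - w0))
    (ha : ∀ e, 0 < Q e → a e < 2 ^ (J - w1)) {θ V : ℝ}
    (hf : ((J - w1 : ℕ) : ℝ) * Real.log 2 - θ ≤ CH Q a (fun e => ((u e, d e), Y e)))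
    (hV : (bfam Q hQ u d J w0 (J - w1) t D a s Y).V (J - w1) ≤ V) :
    CH Q (fun e => fl J (pst u d J t e)) Y ≤
      CH Q (fun e => fl J (pst u d J (fun e => t e + s * (D e + a e)) e)) (fun e => (a e, Y e)) +
      (V + θ + k * ((((w1 - w0 : ℕ) : ℝ) + 3) * Real.log 2) +
        (Real.log 9 + k * Real.log 7 + k * Real.log 13)) := by
  have hQ0 := hQ.nonneg
  have hwJ : w0 ≤ J := hw.trans hw1
  obtain ⟨N, hN⟩ : ∃ N, N = J - w1 := ⟨_, rfl⟩
  rw [← hN] at hD ha hf hV
  obtain ⟨G, hG⟩ : ∃ G, G = bfam Q hQ u d J w0 N t D a s Y := ⟨_, rfl⟩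
  -- the variables
  obtain ⟨x, hx⟩ : ∃ x : E → Fin k → ℝ, x = pst u d J t := ⟨_, rfl⟩
  obtain ⟨xT, hxT⟩ : ∃ x : E → Fin k → ℝ, x = pst u d J (fun e => t e + s * (D e + a e)) :=
    ⟨_, rfl⟩
  obtain ⟨c, hc⟩ : ∃ c : E → (Fin k → ℤ), c = fun e => fl w0 (x e) := ⟨_, rfl⟩
  obtain ⟨X, hX⟩ : ∃ X : E → (Fin k → ℤ), X = fun e => fl J (x e) := ⟨_, rfl⟩
  obtain ⟨XT, hXT⟩ : ∃ X : E → (Fin k → ℤ), X = fun e => fl J (xT e) := ⟨_, rfl⟩
  obtain ⟨Dd, hDd⟩ : ∃ X : E → (Fin k → ℤ), X = fun e =>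
    fl N (fun i => Int.fract (2 ^ w0 * x e i)) := ⟨_, rfl⟩
  obtain ⟨X', hX'⟩ : ∃ X' : E → (Fin k → ℤ), X' = fun e =>
    fl N ((bfam Q hQ u d J w0 N t D a s Y).x e) := ⟨_, rfl⟩
  obtain ⟨nt, hnt⟩ : ∃ nt : E → ℕ, nt = fun e => ntm (D e) (2 ^ N) (a e) := ⟨_, rfl⟩
  obtain ⟨Z, hZ⟩ : ∃ Z : E → S × (Fin k → ℤ), Z = fun e => (Y e, c e) := ⟨_, rfl⟩
  obtain ⟨a', ha'⟩ : ∃ a' : E → ℤ, a' = fun e => ((a e : ℕ) : ℤ) := ⟨_, rfl⟩
  have g1 : (fun e => fl J (pst u d J t e)) = X := by rw [hX, hx]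
  have g2 : (fun e => fl J (pst u d J (fun e => t e + s * (D e + a e)) e)) = XT := by
    rw [hXT, hxT]
  rw [g1, g2]
  have hN0 : (0 : ℝ) < 2 ^ N := by positivity
  have hJN : (2 : ℝ) ^ (J - w0) = 2 ^ (w1 - w0) * 2 ^ N := by
    rw [hN, ← pow_add]
    congr 1
    omega
  have hJ0 : (2 : ℝ) ^ J = 2 ^ (J - w0) * 2 ^ w0 := by
    rw [← pow_add]
    congr 1
    omega
  have hss : |(s : ℝ)| = 1 := by
    rcases hs with h | h <;> rw [h] <;> norm_num
  have hdist : ∀ e, 0 < Q e → ((D e : ℝ) + a e) / 2 ^ (J - w0) ≤ 2 := by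
    intro e he
    rw [div_le_iff₀ (by positivity)]
    obtain ⟨h1, h2⟩ := hD e he
    have h3 := ha e he
    have h4 : ((D e + a e : ℕ) : ℝ) ≤ ((2 * 2 ^ (J - w0) : ℕ) : ℝ) := by
      exact_mod_cast (by omega : D e + a e ≤ 2 * 2 ^ (J - w0))
    push_cast at h4
    exact h4
  -- the position at the second time
  have hxx : ∀ e i, 2 ^ w0 * x e i = 2 ^ w0 * xT e i -
      (s : ℝ) * (((D e : ℝ) + a e) / 2 ^ (J - w0)) * d e i := by
    intro e i
    rw [hx, hxT]
    unfold pst
    push_cast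
    rw [hJ0]
    field_simp
    ring
  -- the inequality for the new family
  have hV' : CH Q Dd Z ≤ CH Q X' (fun e => (nt e, Z e)) + V := by
    have e1 : (bfam Q hQ u d J w0 N t D a s Y).V N =
        CH Q Dd Z - CH Q X' (fun e => (nt e, Z e)) - k * (((N : ℝ) - N) * Real.log 2) := by
      rw [hDd, hX', hZ, hnt, hc, hx]
      rfl
    rw [e1, sub_self, zero_mul, mul_zero, sub_zero] at hV
    linarith
  -- step 1
  have s1 : CH Q X Y ≤ CH Q c Y + CH Q Dd Z + k * ((((w1 - w0 : ℕ) : ℝ) + 3) * Real.log 2) := by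
    have t1 := CH_le_add hQ0 X c Y
    have t2 := CH_le_add hQ0 X Dd (fun e => (c e, Y e))
    have t3 : CH Q Dd (fun e => (c e, Y e)) ≤ CH Q Dd Z := by
      refine CH_mono_cond hQ0 fun e e' _ _ h => ?_
      have h1 := Prod.ext_iff.1 h
      rw [hZ]
      exact Prod.ext h1.2 h1.1
    have t4 : CH Q X (fun e => (Dd e, (c e, Y e))) ≤
        k * ((((w1 - w0 : ℕ) : ℝ) + 3) * Real.log 2) := by
      refine (CH_le_vec hQ0 hQ.sum_one X _ (fun _ => 2 ^ (w1 - w0) + 1) ?_).trans ?_
      · intro e e' _ _ h i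
        have h1 := Prod.ext_iff.1 h
        have h2 : Dd e = Dd e' := h1.1
        have h3 : c e = c e' := (Prod.ext_iff.1 h1.2).1
        have h4 : X e i = 2 ^ (J - w0) * c e i +
            fl (J - w0) (fun i => Int.fract (2 ^ w0 * x e i)) i := by
          rw [hX, hc]
          exact fl_split hwJ (x e) i
        have h5 : X e' i = 2 ^ (J - w0) * c e' i +
            fl (J - w0) (fun i => Int.fract (2 ^ w0 * x e' i)) i := by
          rw [hX, hc]
          exact fl_split hwJ (x e') i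
        have h6 : |(2 : ℝ) ^ N * Int.fract (2 ^ w0 * x e i) -
            2 ^ N * Int.fract (2 ^ w0 * x e' i)| ≤ 1 := by
          rw [hDd] at h2
          exact floor_same (congrFun h2 i)
        have h7 : |(2 : ℝ) ^ (J - w0) * Int.fract (2 ^ w0 * x e i) -
            2 ^ (J - w0) * Int.fract (2 ^ w0 * x e' i)| ≤ 2 ^ (w1 - w0) := by
          have e1 : (2 : ℝ) ^ (J - w0) * Int.fract (2 ^ w0 * x e i) -
              2 ^ (J - w0) * Int.fract (2 ^ w0 * x e' i) = 2 ^ (w1 - w0) *
                ((2 : ℝ) ^ N * Int.fract (2 ^ w0 * x e i) -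
                  2 ^ N * Int.fract (2 ^ w0 * x e' i)) := by
            rw [hJN]
            ring
          rw [e1, abs_mul, abs_of_pos (by positivity : (0 : ℝ) < 2 ^ (w1 - w0))]
          calc (2 : ℝ) ^ (w1 - w0) * _ ≤ 2 ^ (w1 - w0) * 1 :=
                mul_le_mul_of_nonneg_left h6 (by positivity)
            _ = _ := mul_one _
        have h8 := floor_two h7
        rw [h4, h5, h3]
        have e2 : (2 ^ (J - w0) * c e' i + fl (J - w0) (fun i => Int.fract (2 ^ w0 * x e i)) i -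
            (2 ^ (J - w0) * c e' i + fl (J - w0) (fun i => Int.fract (2 ^ w0 * x e' i)) i) : ℤ) =
            fl (J - w0) (fun i => Int.fract (2 ^ w0 * x e i)) i -
              fl (J - w0) (fun i => Int.fract (2 ^ w0 * x e' i)) i := by ring
        rw [e2]
        exact h8
      · rw [Ex_const hQ.sum_one]
        refine mul_le_mul_of_nonneg_left ?_ (Nat.cast_nonneg _)
        have h1 : (1 : ℝ) ≤ 2 ^ (w1 - w0) := one_le_pow₀ (by norm_num)
        calc Real.log (2 * (2 ^ (w1 - w0) + 1) + 1) ≤ Real.log (2 ^ (w1 - w0 + 3)) := by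
              apply Real.log_le_log (by positivity)
              rw [pow_add]
              linarith
          _ = _ := by
              rw [Real.log_pow]
              push_cast
              ring
    linarith
  -- step 3
  have s3 : CH Q X' (fun e => (nt e, Z e)) ≤ Real.log 9 +
      CH Q X' (fun e => (a' e, (nt e, Z e))) := by
    have t1 := CH_le_add hQ0 X' a' (fun e => (nt e, Z e))
    have t2 : CH Q a' (fun e => (nt e, Z e)) ≤ Real.log 9 := by
      refine (CH_le_int hQ0 hQ.sum_one a' _ (fun _ => 4) ?_).trans (le_of_eq ?_)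
      · intro e e' he he' h
        have h1 := Prod.ext_iff.1 h
        have h2 : Y e = Y e' := by
          have h3 := h1.2
          rw [hZ] at h3
          exact (Prod.ext_iff.1 h3).1
        obtain ⟨-, h4⟩ := hY e e' he he' h2
        have h5 : ntm (D e) (2 ^ N) (a e) = ntm (D e) (2 ^ N) (a e') := by
          have h6 : nt e = nt e' := h1.1
          rw [hnt] at h6
          simp only at h6
          rw [h6, h4]
        rw [ha']
        exact ntm_near (hD e he).1 (ha e he) (ha e' he') h5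
      · rw [Ex_const hQ.sum_one]
        norm_num
    linarith
  -- equal positions at the second time
  have hXTn : ∀ e e' i, XT e = XT e' →
      2 ^ (J - w0) * |2 ^ w0 * xT e i - 2 ^ w0 * xT e' i| ≤ 1 := by
    intro e e' i h
    rw [hXT] at h
    have h1 := congrFun h i
    have h2 : |(2 : ℝ) ^ J * xT e i - 2 ^ J * xT e' i| ≤ 1 := floor_same h1
    have h3 : (2 : ℝ) ^ J * xT e i - 2 ^ J * xT e' i =
        2 ^ (J - w0) * (2 ^ w0 * xT e i - 2 ^ w0 * xT e' i) := by
      rw [hJ0]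
      ring
    rw [h3, abs_mul, abs_of_pos (by positivity : (0 : ℝ) < 2 ^ (J - w0))] at h2
    exact h2
  -- step 4
  have s4 : CH Q X' (fun e => (a' e, (nt e, Z e))) ≤
      CH Q XT (fun e => (c e, (a e, Y e))) + k * Real.log 7 := by
    have t1 := CH_le_add hQ0 X' XT (fun e => (a' e, (nt e, Z e)))
    have t2 : CH Q XT (fun e => (a' e, (nt e, Z e))) ≤ CH Q XT (fun e => (c e, (a e, Y e))) := by
      refine CH_mono_cond hQ0 fun e e' _ _ h => ?_
      have e1 := Prod.ext_iff.1 h
      have e2 := (Prod.ext_iff.1 e1.2).2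
      rw [hZ] at e2
      have e3 := Prod.ext_iff.1 e2
      have e4 : a' e = a' e' := e1.1
      have e5 : a e = a e' := by
        rw [ha'] at e4
        have e6 : ((a e : ℕ) : ℤ) = ((a e' : ℕ) : ℤ) := e4
        exact_mod_cast e6
      exact Prod.ext e3.2 (Prod.ext e5 e3.1)
    have t3 : CH Q X' (fun e => (XT e, (a' e, (nt e, Z e)))) ≤ k * Real.log 7 := by
      refine (CH_le_vec hQ0 hQ.sum_one X' _ (fun _ => 3) ?_).trans (le_of_eq ?_)
      · intro e e' he he' h i
        have e1 := Prod.ext_iff.1 h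
        have e2 := Prod.ext_iff.1 e1.2
        have e3 := (Prod.ext_iff.1 e2.2).2
        rw [hZ] at e3
        have e4 := Prod.ext_iff.1 e3
        have e5 : a e = a e' := by
          have e6 : a' e = a' e' := e2.1
          rw [ha'] at e6
          have e7 : ((a e : ℕ) : ℤ) = ((a e' : ℕ) : ℤ) := e6
          exact_mod_cast e7
        have e7 : Y e = Y e' := e4.1
        have e8 : c e = c e' := e4.2
        obtain ⟨-, e9⟩ := hY e e' he he' e7
        have b1 := bfam_x Q hQ u d J w0 N t D a s Y e i (ha e he) (hD e he).1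
        have b2 := bfam_x Q hQ u d J w0 N t D a s Y e' i (ha e' he') (hD e' he').1
        rw [← e9, ← e5] at b2
        have b3 := hXTn e e' i e1.1
        rw [← hx] at b1 b2
        have b4 : (fl w0 (x e) i : ℤ) = fl w0 (x e') i := by
          rw [hc] at e8
          exact congrFun e8 i
        rw [← b4] at b2
        have b5 : pst u d J (fun e => t e + s * (D e + a e)) = xT := hxT.symm
        rw [b5] at b1 b2
        obtain ⟨R, hR⟩ : ∃ R : ℝ, R = rat (D e) (2 ^ N) (a e) := ⟨_, rfl⟩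
        rw [← hR] at b1 b2
        have hR0 : 0 ≤ R := by rw [hR]; exact rat_nonneg (ha e he).le
        have hR1 : R ≤ D e := by
          have h1 := rat_le (D e) (2 ^ N) (a e)
          have h2 : (((2 : ℕ) ^ N : ℕ) : ℝ) ≤ D e := by exact_mod_cast (hD e he).1
          rw [hR]
          exact h1.trans h2
        have hR2 : ((D e : ℝ) + R) / 2 ≤ 2 ^ (J - w0) := by
          have h2 : (D e : ℝ) ≤ (((2 : ℕ) ^ (J - w0) : ℕ) : ℝ) := by exact_mod_cast (hD e he).2
          push_cast at h2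
          linarith
        have hR3 : 0 ≤ ((D e : ℝ) + R) / 2 := by positivity
        obtain ⟨f, hf'⟩ : ∃ f : ℝ, f = Int.fract (R / 2) := ⟨_, rfl⟩
        rw [← hf'] at b1 b2
        have hf0 : 0 ≤ f := by rw [hf']; exact Int.fract_nonneg _
        have hf1 : f ≤ 1 := by rw [hf']; exact (Int.fract_lt_one _).le
        have c1 := Int.fract_nonneg ((2 : ℝ) ^ w0 * x e i)
        have c2 := (Int.fract_lt_one ((2 : ℝ) ^ w0 * x e i)).le
        have c3 := Int.fract_nonneg ((2 : ℝ) ^ w0 * x e' i)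
        have c4 := (Int.fract_lt_one ((2 : ℝ) ^ w0 * x e' i)).le
        obtain ⟨x1, hx1⟩ : ∃ y : ℝ, y = Int.fract ((2 : ℝ) ^ w0 * x e i) := ⟨_, rfl⟩
        obtain ⟨x2, hx2⟩ : ∃ y : ℝ, y = Int.fract ((2 : ℝ) ^ w0 * x e' i) := ⟨_, rfl⟩
        rw [← hx1] at b1 c1 c2
        rw [← hx2] at b2 c3 c4
        have key : |2 ^ N * (bfam Q hQ u d J w0 N t D a s Y).x e i -
            2 ^ N * (bfam Q hQ u d J w0 N t D a s Y).x e' i| ≤ 2 := by
          rw [b1, b2]
          have g1 : ((D e : ℝ) + R) / 2 * (2 ^ w0 * xT e i - (fl w0 (x e) i : ℤ)) - f * x1 -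
              (((D e : ℝ) + R) / 2 * (2 ^ w0 * xT e' i - (fl w0 (x e) i : ℤ)) - f * x2) =
              ((D e : ℝ) + R) / 2 * (2 ^ w0 * xT e i - 2 ^ w0 * xT e' i) - f * (x1 - x2) := by
            ring
          rw [g1]
          refine (abs_sub _ _).trans ?_
          rw [abs_mul, abs_mul, abs_of_nonneg hR3, abs_of_nonneg hf0]
          have g2 : |x1 - x2| ≤ 1 := by
            rw [abs_le]
            constructor <;> linarith
          have g3 : ((D e : ℝ) + R) / 2 * |2 ^ w0 * xT e i - 2 ^ w0 * xT e' i| ≤ 1 :=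
            (mul_le_mul_of_nonneg_right hR2 (abs_nonneg _)).trans b3
          have g4 : f * |x1 - x2| ≤ 1 * 1 := mul_le_mul hf1 g2 (abs_nonneg _) zero_le_one
          linarith
        have := floor_two key
        rw [hX']
        exact this.trans (by norm_num)
      · rw [Ex_const hQ.sum_one]
        norm_num
    linarith
  -- step 5
  have s5 : CH Q c Y ≤ CH Q c (fun e => (a e, Y e)) + θ := by
    have t1 := CH_chain hQ0 c a Y
    have t2 := CH_chain hQ0 a c Y
    have t3 : CH Q (fun e => (c e, a e)) Y = CH Q (fun e => (a e, c e)) Y :=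
      Pool.MIC.CH_swl hQ0 c a Y
    have t4 : CH Q a Y ≤ (N : ℝ) * Real.log 2 := by
      have h1 := CH_le_card hQ0 hQ.sum_one a Y (fun _ => Finset.range (2 ^ N))
        (fun e he => Finset.mem_range.2 (ha e he))
      rw [Ex_const hQ.sum_one, Finset.card_range] at h1
      push_cast at h1
      rwa [Real.log_pow] at h1
    have t5 : CH Q a (fun e => ((u e, d e), Y e)) ≤ CH Q a (fun e => (c e, Y e)) := by
      refine CH_mono_cond hQ0 fun e e' he he' h => ?_
      have e1 := Prod.ext_iff.1 h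
      have e2 : u e = u e' := (Prod.ext_iff.1 e1.1).1
      have e3 : d e = d e' := (Prod.ext_iff.1 e1.1).2
      have e4 : Y e = Y e' := e1.2
      obtain ⟨e5, -⟩ := hY e e' he he' e4
      have e6 : x e = x e' := by
        rw [hx]
        funext i
        unfold pst
        rw [e2, e3, e5]
      have e7 : c e = c e' := by
        rw [hc]
        simp only
        rw [e6]
      exact Prod.ext e7 e4
    linarith
  have s6 : CH Q c (fun e => (a e, Y e)) + CH Q XT (fun e => (c e, (a e, Y e))) ≤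
      CH Q XT (fun e => (a e, Y e)) + k * Real.log 13 := by
    have t1 := CH_chain hQ0 XT c (fun e => (a e, Y e))
    have t2 := CH_chain hQ0 c XT (fun e => (a e, Y e))
    have t3 : CH Q (fun e => (XT e, c e)) (fun e => (a e, Y e)) =
        CH Q (fun e => (c e, XT e)) (fun e => (a e, Y e)) :=
      Pool.MIC.CH_swl hQ0 XT c (fun e => (a e, Y e))
    have t4 : CH Q c (fun e => (XT e, (a e, Y e))) ≤ k * Real.log 13 := by
      refine (CH_le_vec hQ0 hQ.sum_one c _ (fun _ => 6) ?_).trans (le_of_eq ?_)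
      · intro e e' he he' h i
        have e1 := Prod.ext_iff.1 h
        have e2 := Prod.ext_iff.1 e1.2
        have e3 : a e = a e' := e2.1
        have e4 : Y e = Y e' := e2.2
        obtain ⟨-, e5⟩ := hY e e' he he' e4
        have b1 := hXTn e e' i e1.1
        have b2 : |2 ^ w0 * xT e i - 2 ^ w0 * xT e' i| ≤ 1 := by
          have h1 : (1 : ℝ) ≤ 2 ^ (J - w0) := one_le_pow₀ (by norm_num)
          exact (le_mul_of_one_le_left (abs_nonneg _) h1).trans b1
        have b3 := hdist e he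
        have b4 : (0 : ℝ) ≤ ((D e : ℝ) + a e) / 2 ^ (J - w0) := by positivity
        have b5 := hd e i
        have b6 := hd e' i
        have b7 : |d e i - d e' i| ≤ 2 := by
          rw [abs_le] at b5 b6 ⊢
          constructor <;> linarith [b5.1, b5.2, b6.1, b6.2]
        have key : |2 ^ w0 * x e i - 2 ^ w0 * x e' i| ≤ 5 := by
          rw [hxx e i, hxx e' i, ← e5, ← e3]
          obtain ⟨q, hq⟩ : ∃ q : ℝ, q = ((D e : ℝ) + a e) / 2 ^ (J - w0) := ⟨_, rfl⟩
          rw [← hq] at b3 b4 ⊢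
          have g1 : 2 ^ w0 * xT e i - (s : ℝ) * q * d e i -
              (2 ^ w0 * xT e' i - (s : ℝ) * q * d e' i) =
              (2 ^ w0 * xT e i - 2 ^ w0 * xT e' i) - s * (q * (d e i - d e' i)) := by ring
          rw [g1]
          refine (abs_sub _ _).trans ?_
          rw [abs_mul, abs_mul, hss, one_mul, abs_of_nonneg b4]
          have g2 : q * |d e i - d e' i| ≤ 2 * 2 := mul_le_mul b3 b7 (abs_nonneg _) (by norm_num)
          linarith
        have h9 := floor_two key
        rw [hc]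
        exact h9.trans (by norm_num)
      · rw [Ex_const hQ.sum_one]
        norm_num
    linarith
  linarith

end core

end Pool.NJ34
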