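import Pool.Agent.H34.NJ.Bk

/-!
# The entropy of the position at a distant time, backwards: the assembly
-/

set_option autoImplicit false

namespace Pool.NJ34

open Finset Real
open Pool.Agent.H49.Ent Pool.Agent.H32.Dense Pool.STK Pool.KA Pool.KSAT Pool.K2S
open Pool.TWO (cond_full fl_split floor_two floor_same law_cond')

variable {k J : ℕ}

section gen

variable {E S : Type} [Fintype E]

/-- The side of the window of the second time. -/
def sgn (M : ℕ) (t T : E → ℕ) (e : E) : ℤ :=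
  if t e / M + 1 < T e / M then 1 else if T e / M + 1 < t e / M then -1 else 0

/-- The distance of the first time from the window of the second time. -/
def dst (M : ℕ) (t T : E → ℕ) (e : E) : ℕ :=
  if t e / M + 1 < T e / M then T e / M * M - t e else t e - (T e / M + 1) * M + 1

/-- The second time in its window, seen from the first time. -/
def ofs (M : ℕ) (t T : E → ℕ) (e : E) : ℕ :=
  if t e / M + 1 < T e / M then T e % M else M - 1 - T e % M

omit [Fintype E] in
theorem sgn_mem (M : ℕ) (t T : E → ℕ) (e : E) : sgn M t T e ∈ ({0, 1, -1} : Finset ℤ) := by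
  unfold sgn
  split_ifs <;> simp

omit [Fintype E] in
/-- The arithmetic of the two times. -/
theorem two_ar {M L : ℕ} (hM : 0 < M) (t T : E → ℕ) (e : E) (hL : t e / L = T e / L)
    (hL0 : 0 < L) {j : ℤ} (hj : sgn M t T e = j) (hj0 : j ≠ 0) :
    (j = 1 ∨ j = -1) ∧ M ≤ dst M t T e ∧ dst M t T e ≤ L ∧ ofs M t T e < M ∧
      (T e : ℤ) = t e + j * (dst M t T e + ofs M t T e) := by
  have h1 := Nat.div_add_mod (T e) M
  have h2 := Nat.mod_lt (T e) hM
  have h3 := Nat.div_add_mod (t e) M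
  have h4 := Nat.mod_lt (t e) hM
  have l1 := Nat.div_add_mod (T e) L
  have l2 := Nat.mod_lt (T e) hL0
  have l3 := Nat.div_add_mod (t e) L
  have l4 := Nat.mod_lt (t e) hL0
  rw [hL] at l3
  obtain ⟨q, hq⟩ : ∃ q, q = T e / M := ⟨_, rfl⟩
  obtain ⟨q', hq'⟩ : ∃ q, q = t e / M := ⟨_, rfl⟩
  obtain ⟨a, ha⟩ : ∃ a, a = T e % M := ⟨_, rfl⟩
  obtain ⟨a', ha'⟩ : ∃ a, a = t e % M := ⟨_, rfl⟩
  unfold sgn at hj
  unfold dst ofs
  rw [← hq, ← ha] at h1
  rw [← hq', ← ha'] at h3
  rw [← hq, ← hq'] at hj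
  rw [← ha] at h2
  rw [← ha'] at h4
  rw [← hq, ← hq', ← ha]
  by_cases hc : q' + 1 < q
  · rw [if_pos hc] at hj
    rw [if_pos hc, if_pos hc]
    have m1 : (q' + 2) * M ≤ q * M := Nat.mul_le_mul_right M (by omega)
    have m2 : M * q = q * M := Nat.mul_comm _ _
    have m3 : M * q' = q' * M := Nat.mul_comm _ _
    have m4 : (q' + 2) * M = q' * M + 2 * M := by ring
    have m5 : t e ≤ q * M := by omega
    refine ⟨Or.inl hj.symm, by omega, by omega, h2, ?_⟩
    rw [← hj]
    push_cast [Nat.cast_sub m5]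
    have : (T e : ℤ) = q * M + a := by
      have : T e = q * M + a := by omega
      exact_mod_cast this
    rw [this]
    ring
  · rw [if_neg hc] at hj
    rw [if_neg hc, if_neg hc]
    by_cases hc' : q + 1 < q'
    · rw [if_pos hc'] at hj
      have m1 : (q + 2) * M ≤ q' * M := Nat.mul_le_mul_right M (by omega)
      have m2 : M * q = q * M := Nat.mul_comm _ _
      have m3 : M * q' = q' * M := Nat.mul_comm _ _
      have m4 : (q + 2) * M = q * M + 2 * M := by ring
      have m6 : (q + 1) * M = q * M + M := by ring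
      have m5 : (q + 1) * M ≤ t e := by omega
      refine ⟨Or.inr hj.symm, by omega, by omega, by omega, ?_⟩
      rw [← hj]
      have n1 : ((t e - (q + 1) * M + 1 : ℕ) : ℤ) = t e - (q + 1) * M + 1 := by
        push_cast [Nat.cast_sub m5]
        ring
      have n2 : ((M - 1 - a : ℕ) : ℤ) = M - 1 - a := by
        have : a + 1 ≤ M := h2
        rw [Nat.sub_sub, Nat.cast_sub (by omega)]
        push_cast
        ring
      have n3 : (T e : ℤ) = q * M + a := by
        have : T e = q * M + a := by omega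
        exact_mod_cast this
      rw [n1, n2, n3]
      ring
    · rw [if_neg hc'] at hj
      exact absurd hj.symm hj0

/-- The trivial bound. -/
theorem bk_triv {q : E → ℝ} (hq : IsLaw q) (u d : E → Fin k → ℝ) (hd : ∀ e i, |d e i| ≤ 1)
    {w0 w1 : ℕ} (t T : E → ℕ) (Y : E → S)
    (hY : ∀ e e', 0 < q e → 0 < q e' → Y e = Y e' → t e = t e' ∧
      T e / 2 ^ (J - w1) = T e' / 2 ^ (J - w1))
    (hw : ∀ e, 0 < q e → t e / 2 ^ (J - w0) = T e / 2 ^ (J - w0)) :
    CH q (fun e => fl J (pst u d J (fun e => t e) e)) Y ≤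
      CH q (fun e => fl J (pst u d J (fun e => T e) e)) (fun e => (T e, Y e)) +
      (((J - w1 : ℕ) : ℝ) * Real.log 2 + k * ((((J - w0 : ℕ) : ℝ) + 4) * Real.log 2)) := by
  have hq0 := hq.nonneg
  obtain ⟨X, hX⟩ : ∃ X : E → (Fin k → ℤ), X = fun e => fl J (pst u d J (fun e => t e) e) :=
    ⟨_, rfl⟩
  obtain ⟨XT, hXT⟩ : ∃ X : E → (Fin k → ℤ), X = fun e => fl J (pst u d J (fun e => T e) e) :=
    ⟨_, rfl⟩
  rw [← hX, ← hXT]
  have t1 := CH_le_add hq0 X T Y
  have t2 := CH_le_add hq0 X XT (fun e => (T e, Y e))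
  have t3 : CH q T Y ≤ ((J - w1 : ℕ) : ℝ) * Real.log 2 := by
    have h1 : CH q T Y = CH q (fun e => T e % 2 ^ (J - w1)) Y := by
      refine CH_congr hq0 ?_ ?_ (fun _ _ _ _ h => h) (fun _ _ _ _ h => h)
      · intro e e' he he' h
        have h1 : T e = T e' := (Prod.ext_iff.1 h).1
        change T e % _ = T e' % _
        rw [h1]
      · intro e e' he he' h
        have h1 : T e % 2 ^ (J - w1) = T e' % 2 ^ (J - w1) := (Prod.ext_iff.1 h).1
        have h2 : Y e = Y e' := (Prod.ext_iff.1 h).2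
        obtain ⟨-, h3⟩ := hY e e' he he' h2
        rw [← Nat.div_add_mod (T e) (2 ^ (J - w1)), ← Nat.div_add_mod (T e') (2 ^ (J - w1)),
          h1, h3]
    rw [h1]
    have h2 := CH_le_card hq0 hq.sum_one (fun e => T e % 2 ^ (J - w1)) Y
      (fun _ => Finset.range (2 ^ (J - w1)))
      (fun e _ => Finset.mem_range.2 (Nat.mod_lt _ (by positivity)))
    rw [Ex_const hq.sum_one, Finset.card_range] at h2
    push_cast at h2
    rwa [Real.log_pow] at h2
  have t4 : CH q X (fun e => (XT e, (T e, Y e))) ≤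
      k * ((((J - w0 : ℕ) : ℝ) + 4) * Real.log 2) := by
    have hxx : ∀ e, 0 < q e → ∀ i, |2 ^ J * pst u d J (fun e => t e) e i -
        2 ^ J * pst u d J (fun e => T e) e i| ≤ 2 ^ (J - w0) := by
      intro e he i
      have e1 : 2 ^ J * pst u d J (fun e => (t e : ℤ)) e i -
          2 ^ J * pst u d J (fun e => (T e : ℤ)) e i = ((t e : ℝ) - T e) * d e i := by
        unfold pst
        push_cast
        field_simp
        ring
      rw [e1, abs_mul]
      have h1 := hw e he
      have l0 : 0 < 2 ^ (J - w0) := by positivity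
      have l1 := Nat.div_add_mod (T e) (2 ^ (J - w0))
      have l2 := Nat.mod_lt (T e) l0
      have l3 := Nat.div_add_mod (t e) (2 ^ (J - w0))
      have l4 := Nat.mod_lt (t e) l0
      rw [h1] at l3
      have l5 : (t e : ℤ) - T e ≤ 2 ^ (J - w0) := by
        have : t e ≤ T e + 2 ^ (J - w0) := by omega
        have h2 : (t e : ℤ) ≤ T e + 2 ^ (J - w0) := by exact_mod_cast this
        linarith
      have l6 : (T e : ℤ) - t e ≤ 2 ^ (J - w0) := by
        have : T e ≤ t e + 2 ^ (J - w0) := by omega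
        have h2 : (T e : ℤ) ≤ t e + 2 ^ (J - w0) := by exact_mod_cast this
        linarith
      have l5' : (t e : ℝ) - T e ≤ 2 ^ (J - w0) := by exact_mod_cast l5
      have l6' : (T e : ℝ) - t e ≤ 2 ^ (J - w0) := by exact_mod_cast l6
      have h3 : |(t e : ℝ) - T e| ≤ 2 ^ (J - w0) := by
        rw [abs_le]
        constructor <;> linarith
      calc |(t e : ℝ) - T e| * |d e i| ≤ 2 ^ (J - w0) * 1 :=
            mul_le_mul h3 (hd e i) (abs_nonneg _) (by positivity)
        _ = 2 ^ (J - w0) := mul_one _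
    refine (CH_le_vec hq0 hq.sum_one X _ (fun _ => 2 * 2 ^ (J - w0) + 2) ?_).trans ?_
    · intro e e' he he' h i
      have e1 : XT e = XT e' := (Prod.ext_iff.1 h).1
      rw [hXT] at e1
      have e2 : |(2 : ℝ) ^ J * pst u d J (fun e => T e) e i -
          2 ^ J * pst u d J (fun e => T e) e' i| ≤ 1 := floor_same (congrFun e1 i)
      have e3 := hxx e he i
      have e4 := hxx e' he' i
      have e5 : |2 ^ J * pst u d J (fun e => t e) e i - 2 ^ J * pst u d J (fun e => t e) e' i| ≤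
          2 * 2 ^ (J - w0) + 1 := by
        rw [abs_le] at e2 e3 e4 ⊢
        constructor <;> linarith [e2.1, e2.2, e3.1, e3.2, e4.1, e4.2]
      have e6 := floor_two e5
      rw [hX]
      refine e6.trans (le_of_eq ?_)
      ring
    · rw [Ex_const hq.sum_one]
      refine mul_le_mul_of_nonneg_left ?_ (Nat.cast_nonneg _)
      have h1 : (1 : ℝ) ≤ 2 ^ (J - w0) := one_le_pow₀ (by norm_num)
      calc Real.log (2 * (2 * 2 ^ (J - w0) + 2) + 1) ≤ Real.log (2 ^ (J - w0 + 4)) := by
            apply Real.log_le_log (by positivity)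
            rw [pow_add]
            linarith
        _ = (((J - w0 : ℕ) : ℝ) + 4) * Real.log 2 := by
            rw [Real.log_pow]
            push_cast
            ring
  linarith

/-- **The inequality on the part of the sign `j`.** -/
theorem bk_part {q : E → ℝ} (hq : IsLaw q) (u d : E → Fin k → ℝ) (hd : ∀ e i, |d e i| ≤ 1)
    {w0 w1 : ℕ} (hw01 : w0 ≤ w1) (hw1 : w1 ≤ J) (t T : E → ℕ) (Y : E → S)
    (hY : ∀ e e', 0 < q e → 0 < q e' → Y e = Y e' → t e = t e' ∧
      T e / 2 ^ (J - w1) = T e' / 2 ^ (J - w1))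
    (hw : ∀ e, 0 < q e → t e / 2 ^ (J - w0) = T e / 2 ^ (J - w0))
    {j : ℤ} (hj : ∀ e, 0 < q e → sgn (2 ^ (J - w1)) t T e = j) (hj0 : j ≠ 0) {θ ε : ℝ}
    (hf : ((J - w1 : ℕ) : ℝ) * Real.log 2 - θ ≤ CH q T (fun e => ((u e, d e), Y e)))
    (hK : ∀ F : Fam k (J - w1), F.Tm (θ + Real.log 9) → F.V (J - w1) ≤ ε) :
    CH q (fun e => fl J (pst u d J (fun e => t e) e)) Y ≤
      CH q (fun e => fl J (pst u d J (fun e => T e) e)) (fun e => (T e, Y e)) +
      (ε + θ + k * ((((w1 - w0 : ℕ) : ℝ) + 3) * Real.log 2) +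
        (Real.log 9 + k * Real.log 7 + k * Real.log 13)) := by
  have hq0 := hq.nonneg
  obtain ⟨M, hM⟩ : ∃ M : ℕ, M = 2 ^ (J - w1) := ⟨_, rfl⟩
  have hM0 : 0 < M := by rw [hM]; positivity
  have har : ∀ e, 0 < q e → (j = 1 ∨ j = -1) ∧ M ≤ dst M t T e ∧ dst M t T e ≤ 2 ^ (J - w0) ∧
      ofs M t T e < M ∧ (T e : ℤ) = t e + j * (dst M t T e + ofs M t T e) := fun e he =>
    two_ar hM0 t T e (hw e he) (by positivity) (by rw [hM]; exact hj e he) hj0
  obtain ⟨e₀, he₀⟩ : ∃ e, 0 < q e := by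
    by_contra hcon
    push Not at hcon
    have h1 := hq.sum_one
    have h2 : ∑ e, q e ≤ 0 := Finset.sum_nonpos fun e _ => hcon e
    linarith
  obtain ⟨hs, -⟩ := har e₀ he₀
  obtain ⟨D, hD⟩ : ∃ D, D = dst M t T := ⟨_, rfl⟩
  obtain ⟨a, ha⟩ : ∃ a, a = ofs M t T := ⟨_, rfl⟩
  have hYD : ∀ e e', 0 < q e → 0 < q e' → Y e = Y e' → ((t e : ℤ)) = t e' ∧ D e = D e' := by
    intro e e' he he' h
    obtain ⟨h1, h2⟩ := hY e e' he he' h
    refine ⟨by rw [h1], ?_⟩
    rw [hD]
    unfold dst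
    rw [hM, h1, h2]
  -- equal given `Y`
  have hTa : ∀ e e', 0 < q e → 0 < q e' → Y e = Y e' → a e = a e' → T e = T e' := by
    intro e e' he he' h h'
    obtain ⟨h1, h2⟩ := hYD e e' he he' h
    have h3 := (har e he).2.2.2.2
    have h4 := (har e' he').2.2.2.2
    rw [← hD, ← ha] at h3 h4
    have h5 : (T e : ℤ) = T e' := by rw [h3, h4, h1, h2, h']
    exact_mod_cast h5
  have haT : ∀ e e', 0 < q e → 0 < q e' → Y e = Y e' → T e = T e' → a e = a e' := by
    intro e e' he he' h h'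
    obtain ⟨h1, -⟩ := hY e e' he he' h
    rw [ha]
    unfold ofs
    rw [h1, h']
  have hfa : ((J - w1 : ℕ) : ℝ) * Real.log 2 - θ ≤ CH q a (fun e => ((u e, d e), Y e)) := by
    refine hf.trans (le_of_eq ?_)
    refine CH_congr hq0 ?_ ?_ (fun _ _ _ _ h => h) (fun _ _ _ _ h => h)
    · intro e e' he he' h
      have h1 : T e = T e' := (Prod.ext_iff.1 h).1
      have h2 : Y e = Y e' := (Prod.ext_iff.1 (Prod.ext_iff.1 h).2).2
      exact haT e e' he he' h2 h1
    · intro e e' he he' h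
      have h1 : a e = a e' := (Prod.ext_iff.1 h).1
      have h2 : Y e = Y e' := (Prod.ext_iff.1 (Prod.ext_iff.1 h).2).2
      exact hTa e e' he he' h2 h1
  -- the new family
  have hV : (bfam q hq u d J w0 (J - w1) (fun e => (t e : ℤ)) D a j Y).V (J - w1) ≤ ε := by
    refine hK _ ?_
    change ((J - w1 : ℕ) : ℝ) * Real.log 2 - (θ + Real.log 9) ≤
      CH q (fun e => ntm (D e) (2 ^ (J - w1)) (a e)) (fun e =>
        (((fun i => ((D e : ℝ) * Int.fract (2 ^ w0 * pst u d J (fun e => (t e : ℤ)) e i) +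
          j * (2 ^ w0 / 2 ^ J) * ((D e : ℝ) * (D e + ((2 ^ (J - w1) : ℕ) : ℝ))) * d e i) /
            (2 * 2 ^ (J - w1))),
          (fun i => Int.fract (2 ^ w0 * pst u d J (fun e => (t e : ℤ)) e i))),
          (Y e, fl w0 (pst u d J (fun e => (t e : ℤ)) e))))
    have h1 : CH q (fun e => ntm (D e) (2 ^ (J - w1)) (a e)) (fun e => ((u e, d e), Y e)) ≤
      CH q (fun e => ntm (D e) (2 ^ (J - w1)) (a e)) (fun e =>
        (((fun i => ((D e : ℝ) * Int.fract (2 ^ w0 * pst u d J (fun e => (t e : ℤ)) e i) +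
          j * (2 ^ w0 / 2 ^ J) * ((D e : ℝ) * (D e + ((2 ^ (J - w1) : ℕ) : ℝ))) * d e i) /
            (2 * 2 ^ (J - w1))),
          (fun i => Int.fract (2 ^ w0 * pst u d J (fun e => (t e : ℤ)) e i))),
          (Y e, fl w0 (pst u d J (fun e => (t e : ℤ)) e)))) := by
      refine CH_mono_cond hq0 fun e e' he he' h => ?_
      have e1 := Prod.ext_iff.1 h
      have e2 : u e = u e' := (Prod.ext_iff.1 e1.1).1
      have e3 : d e = d e' := (Prod.ext_iff.1 e1.1).2
      have e4 : Y e = Y e' := e1.2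
      obtain ⟨e5, e6⟩ := hYD e e' he he' e4
      have e7 : pst u d J (fun e => (t e : ℤ)) e = pst u d J (fun e => (t e : ℤ)) e' := by
        funext i
        unfold pst
        simp only
        rw [e2, e3, e5]
      change (((fun i => ((D e : ℝ) * Int.fract (2 ^ w0 * pst u d J (fun e => (t e : ℤ)) e i) +
          j * (2 ^ w0 / 2 ^ J) * ((D e : ℝ) * (D e + ((2 ^ (J - w1) : ℕ) : ℝ))) * d e i) /
            (2 * 2 ^ (J - w1))),
          (fun i => Int.fract (2 ^ w0 * pst u d J (fun e => (t e : ℤ)) e i))),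
          (Y e, fl w0 (pst u d J (fun e => (t e : ℤ)) e))) =
        (((fun i => ((D e' : ℝ) * Int.fract (2 ^ w0 * pst u d J (fun e => (t e : ℤ)) e' i) +
          j * (2 ^ w0 / 2 ^ J) * ((D e' : ℝ) * (D e' + ((2 ^ (J - w1) : ℕ) : ℝ))) * d e' i) /
            (2 * 2 ^ (J - w1))),
          (fun i => Int.fract (2 ^ w0 * pst u d J (fun e => (t e : ℤ)) e' i))),
          (Y e', fl w0 (pst u d J (fun e => (t e : ℤ)) e')))
      rw [e3, e4, e6, e7]
    have h2 : CH q a (fun e => ((u e, d e), Y e)) ≤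
        CH q (fun e => ntm (D e) (2 ^ (J - w1)) (a e)) (fun e => ((u e, d e), Y e)) +
          Real.log 9 := by
      obtain ⟨nt, hnt⟩ : ∃ nt : E → ℕ, nt = fun e => ntm (D e) (2 ^ (J - w1)) (a e) := ⟨_, rfl⟩
      rw [← hnt]
      have t0 : CH q a (fun e => ((u e, d e), Y e)) =
          CH q (fun e => ((a e : ℕ) : ℤ)) (fun e => ((u e, d e), Y e)) := by
        refine CH_congr hq0 ?_ ?_ (fun _ _ _ _ h => h) (fun _ _ _ _ h => h)
        · intro e e' _ _ h
          have e1 : a e = a e' := (Prod.ext_iff.1 h).1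
          change ((a e : ℕ) : ℤ) = ((a e' : ℕ) : ℤ)
          rw [e1]
        · intro e e' _ _ h
          have e1 : ((a e : ℕ) : ℤ) = ((a e' : ℕ) : ℤ) := (Prod.ext_iff.1 h).1
          exact_mod_cast e1
      rw [t0]
      have t1 := CH_le_add hq0 (fun e => ((a e : ℕ) : ℤ)) nt (fun e => ((u e, d e), Y e))
      have t2 : CH q (fun e => ((a e : ℕ) : ℤ)) (fun e => (nt e, ((u e, d e), Y e))) ≤
          Real.log 9 := by
        refine (CH_le_int hq0 hq.sum_one _ _ (fun _ => 4) ?_).trans (le_of_eq ?_)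
        · intro e e' he he' h
          have h1 := Prod.ext_iff.1 h
          have h2 : Y e = Y e' := (Prod.ext_iff.1 h1.2).2
          obtain ⟨-, h4⟩ := hYD e e' he he' h2
          have h5 : ntm (D e) (2 ^ (J - w1)) (a e) = ntm (D e) (2 ^ (J - w1)) (a e') := by
            have h6 : nt e = nt e' := h1.1
            rw [hnt] at h6
            simp only at h6
            rw [h6, h4]
          refine ntm_near ?_ ?_ ?_ h5
          · rw [hD, ← hM]
            exact (har e he).2.1
          · rw [ha, ← hM]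
            exact (har e he).2.2.2.1
          · rw [ha, ← hM]
            exact (har e' he').2.2.2.1
        · rw [Ex_const hq.sum_one]
          norm_num
      linarith
    linarith
  have hcore := bk_core hq u d hd hw01 hw1 (fun e => (t e : ℤ)) D a j hs Y hYD
    (fun e he => by
      rw [hD, ← hM]
      exact ⟨(har e he).2.1, (har e he).2.2.1⟩)
    (fun e he => by
      rw [ha, ← hM]
      exact (har e he).2.2.2.1) hfa hV
  -- the position at the second time
  have hXT : CH q (fun e => fl J (pst u d J (fun e => (t e : ℤ) + j * (D e + a e)) e))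
      (fun e => (a e, Y e)) = CH q (fun e => fl J (pst u d J (fun e => (T e : ℤ)) e))
      (fun e => (T e, Y e)) := by
    have hp : ∀ e, 0 < q e → pst u d J (fun e => (t e : ℤ) + j * (D e + a e)) e =
        pst u d J (fun e => (T e : ℤ)) e := by
      intro e he
      have h3 := (har e he).2.2.2.2
      rw [← hD, ← ha] at h3
      funext i
      unfold pst
      simp only
      rw [h3]
    refine CH_congr hq0 ?_ ?_ ?_ ?_
    · intro e e' he he' h
      have h1 := (Prod.ext_iff.1 h).1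
      simp only at h1
      rw [hp e he, hp e' he'] at h1
      exact h1
    · intro e e' he he' h
      have h1 := (Prod.ext_iff.1 h).1
      simp only at h1
      change fl J (pst u d J (fun e => (t e : ℤ) + j * (D e + a e)) e) =
        fl J (pst u d J (fun e => (t e : ℤ) + j * (D e + a e)) e')
      rw [hp e he, hp e' he']
      exact h1
    · intro e e' he he' h
      have h1 := Prod.ext_iff.1 h
      exact Prod.ext (hTa e e' he he' h1.2 h1.1) h1.2
    · intro e e' he he' h
      have h1 := Prod.ext_iff.1 h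
      exact Prod.ext (haT e e' he he' h1.2 h1.1) h1.2
  rw [hXT] at hcore
  exact hcore

end gen

/-- **The backward inequality.** -/
theorem bk_gen (h : KP k) : ∀ ε > 0, ∃ θ > 0, ∃ J₀ : ℕ, ∀ J ≥ J₀, ∀ {E S : Type} [Fintype E]
    (Q : E → ℝ), IsLaw Q → ∀ (u d : E → Fin k → ℝ), (∀ e i, |d e i| ≤ 1) →
    ∀ (w0 w1 : ℕ), w0 ≤ w1 → w1 ≤ J → ∀ (t T : E → ℕ) (Y : E → S),
    (∀ e e', 0 < Q e → 0 < Q e' → Y e = Y e' → t e = t e' ∧
      T e / 2 ^ (J - w1) = T e' / 2 ^ (J - w1)) →
    (∀ e, 0 < Q e → t e / 2 ^ (J - w0) = T e / 2 ^ (J - w0)) →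
    ((J - w1 : ℕ) : ℝ) * Real.log 2 - θ * J ≤ CH Q T (fun e => ((u e, d e), Y e)) →
    law Q (sgn (2 ^ (J - w1)) t T) 0 ≤ θ →
    CH Q (fun e => fl J (pst u d J (fun e => t e) e)) Y ≤
      CH Q (fun e => fl J (pst u d J (fun e => T e) e)) (fun e => (T e, Y e)) +
      (k * (((w1 - w0 : ℕ) : ℝ) * Real.log 2) + ε * J) := by
  classical
  intro ε hε
  have hl2 : 0 < Real.log 2 := Real.log_pos (by norm_num)
  have hl2' : Real.log 2 ≤ 1 := by
    have := Real.log_two_lt_d9
    linarith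
  have hlog : ∀ (x : ℝ) (n : ℕ), 1 ≤ x → x ≤ 2 ^ n → 0 ≤ Real.log x ∧ Real.log x ≤ n := by
    intro x n hx hn
    refine ⟨Real.log_nonneg hx, ?_⟩
    have h1 := Real.log_le_log (by linarith) hn
    rw [Real.log_pow] at h1
    have h2 : (n : ℝ) * Real.log 2 ≤ n * 1 := mul_le_mul_of_nonneg_left hl2' (Nat.cast_nonneg n)
    linarith
  obtain ⟨-, hl9⟩ := hlog 9 4 (by norm_num) (by norm_num)
  obtain ⟨hl70, hl7⟩ := hlog 7 3 (by norm_num) (by norm_num)
  obtain ⟨hl130, hl13⟩ := hlog 13 4 (by norm_num) (by norm_num)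
  have hl90 : 0 ≤ Real.log 9 := Real.log_nonneg (by norm_num)
  push_cast at hl9 hl7 hl13
  have hk1 : (0 : ℝ) < k + 1 := by positivity
  have hk0 : (0 : ℝ) ≤ k := Nat.cast_nonneg k
  -- the constants
  obtain ⟨δ, hδ⟩ : ∃ δ : ℝ, δ = min 1 (ε / (16 * (k + 1))) := ⟨_, rfl⟩
  have hδ0 : 0 < δ := by rw [hδ]; exact lt_min one_pos (by positivity)
  have hδ1 : δ ≤ 1 := by rw [hδ]; exact min_le_left _ _
  have hδk : δ * (k + 1) ≤ ε / 16 := by
    have h1 : δ ≤ ε / (16 * (k + 1)) := by rw [hδ]; exact min_le_right _ _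
    rw [le_div_iff₀ (by positivity)] at h1
    linarith
  obtain ⟨η, hη⟩ : ∃ η : ℝ, η = ε / (8 * (k + 1)) := ⟨_, rfl⟩
  have hη0 : 0 < η := by rw [hη]; positivity
  have hηk : η * (k + 1) = ε / 8 := by
    rw [hη]
    field_simp
  obtain ⟨θ₁, hθ₁, J₁, hJ₁⟩ := h (ε / 8) (by positivity)
  obtain ⟨θ, hθ⟩ : ∃ θ : ℝ, θ = min δ (min (δ * θ₁ * η / 4) (δ * ε / 16)) := ⟨_, rfl⟩
  have hθ0 : 0 < θ := by
    rw [hθ]
    exact lt_min hδ0 (lt_min (by positivity) (by positivity))
  have hθδ : θ ≤ δ := by rw [hθ]; exact min_le_left _ _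
  have hθ2 : θ / δ ≤ θ₁ * η / 4 := by
    rw [div_le_iff₀ hδ0]
    have : θ ≤ δ * θ₁ * η / 4 := by
      rw [hθ]
      exact (min_le_right _ _).trans (min_le_left _ _)
    linarith
  have hθ3 : θ / δ ≤ ε / 16 := by
    rw [div_le_iff₀ hδ0]
    have : θ ≤ δ * ε / 16 := by
      rw [hθ]
      exact (min_le_right _ _).trans (min_le_right _ _)
    linarith
  refine ⟨θ, hθ0, ?_⟩
  obtain ⟨C, hC⟩ : ∃ C : ℝ, C = J₁ / η + 16 / (θ₁ * η) + (ε + 12 * k + 4) * 8 / ε := ⟨_, rfl⟩
  refine ⟨⌈C⌉₊ + 1, fun J hJ => ?_⟩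
  intro E S _ Q hQ u d hd w0 w1 hw01 hw1 t T Y hY hw hf hz
  have hQ0 := hQ.nonneg
  have hJC : C ≤ J := (Nat.le_ceil C).trans (by exact_mod_cast (by omega : ⌈C⌉₊ ≤ J))
  have hJ0 : (0 : ℝ) < J := by exact_mod_cast (by omega : 0 < J)
  have p1 : (0 : ℝ) ≤ (J₁ : ℝ) / η := by positivity
  have p2 : (0 : ℝ) ≤ 16 / (θ₁ * η) := by positivity
  have p3 : (0 : ℝ) ≤ (ε + 12 * k + 4) * 8 / ε := by positivity
  have c1 : (J₁ : ℝ) ≤ η * J := by
    have h1 : (J₁ : ℝ) / η ≤ J := by linarith
    rw [div_le_iff₀ hη0] at h1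
    linarith
  have c2 : 16 ≤ θ₁ * η * J := by
    have h1 : 16 / (θ₁ * η) ≤ J := by linarith
    rw [div_le_iff₀ (by positivity)] at h1
    linarith
  have c3 : (ε + 12 * k + 4) * 8 ≤ ε * J := by
    have h1 : (ε + 12 * k + 4) * 8 / ε ≤ J := by linarith
    rw [div_le_iff₀ hε] at h1
    linarith
  obtain ⟨N, hNN⟩ : ∃ N : ℝ, N = ((J - w1 : ℕ) : ℝ) := ⟨_, rfl⟩
  have hN0 : 0 ≤ N := by rw [hNN]; positivity
  have hNJ' : N ≤ J := by
    rw [hNN]
    exact_mod_cast Nat.sub_le _ _
  obtain ⟨y, hy⟩ : ∃ y : ℝ, y = ((w1 - w0 : ℕ) : ℝ) := ⟨_, rfl⟩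
  have hy0 : 0 ≤ y := by rw [hy]; positivity
  have hyN : ((J - w0 : ℕ) : ℝ) = N + y := by
    rw [hNN, hy]
    have : J - w0 = (J - w1) + (w1 - w0) := by omega
    rw [this]
    push_cast
    ring
  have hNyJ : N + y ≤ J := by
    rw [← hyN]
    exact_mod_cast Nat.sub_le _ _
  obtain ⟨X, hX⟩ : ∃ X : E → (Fin k → ℤ), X = fun e => fl J (pst u d J (fun e => t e) e) :=
    ⟨_, rfl⟩
  obtain ⟨XT, hXT⟩ : ∃ X : E → (Fin k → ℤ), X = fun e => fl J (pst u d J (fun e => T e) e) :=
    ⟨_, rfl⟩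
  obtain ⟨E₂, hE₂⟩ : ∃ E : ℝ, E = N * Real.log 2 + k * ((N + y + 4) * Real.log 2) := ⟨_, rfl⟩
  have hE₂0 : 0 ≤ E₂ := by rw [hE₂]; positivity
  have htriv : ∀ q : E → ℝ, IsLaw q → (∀ e, 0 < q e → 0 < Q e) →
      CH q X Y ≤ CH q XT (fun e => (T e, Y e)) + E₂ := by
    intro q hq hqQ
    have h1 := bk_triv (J := J) hq u d hd (w0 := w0) (w1 := w1) t T Y
      (fun e e' he he' => hY e e' (hqQ e he) (hqQ e' he')) (fun e he => hw e (hqQ e he))
    rw [hyN, ← hNN, ← hE₂, ← hX, ← hXT] at h1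
    exact h1
  rw [← hX, ← hXT, ← hy]
  rcases lt_or_ge N (η * J) with hN | hN
  · have h1 := htriv Q hQ (fun _ h => h)
    have h2 : E₂ ≤ k * (y * Real.log 2) + ((k + 1) * (η * J) + 4 * k) := by
      rw [hE₂]
      have h3 : (k + 1) * (N * Real.log 2) ≤ (k + 1) * (η * J) := by
        refine mul_le_mul_of_nonneg_left ?_ hk1.le
        nlinarith
      have h4 : k * (4 * Real.log 2) ≤ k * 4 := mul_le_mul_of_nonneg_left (by linarith) hk0
      calc N * Real.log 2 + k * ((N + y + 4) * Real.log 2) =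
            k * (y * Real.log 2) + ((k + 1) * (N * Real.log 2) + k * (4 * Real.log 2)) := by ring
        _ ≤ _ := by linarith
    have h5 : (k + 1) * (η * J) = ε / 8 * J := by
      rw [← hηk]
      ring
    have h6 : 0 ≤ ε * J := by positivity
    linarith
  · have hNJ : J₁ ≤ J - w1 := by
      have h1 : (J₁ : ℝ) ≤ ((J - w1 : ℕ) : ℝ) := by
        rw [← hNN]
        linarith
      exact_mod_cast h1
    obtain ⟨A, hA⟩ : ∃ A : E → ℤ, A = sgn (2 ^ (J - w1)) t T := ⟨_, rfl⟩
    rw [← hA] at hz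
    have hAY : ∀ e e', 0 < Q e → 0 < Q e' → Y e = Y e' → A e = A e' := by
      intro e e' he he' h'
      obtain ⟨h1, h2⟩ := hY e e' he he' h'
      rw [hA]
      unfold sgn
      rw [h1, h2]
    -- the second time on the parts
    have hmax : ∀ q : E → ℝ, IsLaw q → (∀ e, 0 < q e → 0 < Q e) →
        CH q T (fun e => ((u e, d e), Y e)) ≤ N * Real.log 2 := by
      intro q hq hqQ
      have h1 : CH q T (fun e => ((u e, d e), Y e)) =
          CH q (fun e => T e % 2 ^ (J - w1)) (fun e => ((u e, d e), Y e)) := by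
        refine CH_congr hq.nonneg ?_ ?_ (fun _ _ _ _ h => h) (fun _ _ _ _ h => h)
        · intro e e' he he' h
          have h1 : T e = T e' := (Prod.ext_iff.1 h).1
          change T e % _ = T e' % _
          rw [h1]
        · intro e e' he he' h
          have h1 : T e % 2 ^ (J - w1) = T e' % 2 ^ (J - w1) := (Prod.ext_iff.1 h).1
          have h2 : Y e = Y e' := (Prod.ext_iff.1 (Prod.ext_iff.1 h).2).2
          obtain ⟨-, h3⟩ := hY e e' (hqQ e he) (hqQ e' he') h2
          rw [← Nat.div_add_mod (T e) (2 ^ (J - w1)), ← Nat.div_add_mod (T e') (2 ^ (J - w1)),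
            h1, h3]
      rw [h1]
      have h2 := CH_le_card hq.nonneg hq.sum_one (fun e => T e % 2 ^ (J - w1))
        (fun e => ((u e, d e), Y e)) (fun _ => Finset.range (2 ^ (J - w1)))
        (fun e _ => Finset.mem_range.2 (Nat.mod_lt _ (by positivity)))
      rw [Ex_const hq.sum_one, Finset.card_range] at h2
      push_cast at h2
      rw [Real.log_pow] at h2
      rw [hNN]
      exact h2
    have hcl : ∀ j, 0 < law Q A j → IsLaw (Pool.Agent.H49.Ent.cond Q A j) := fun j hj =>
      law_cond' hQ A hj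
    have hcs : ∀ j e, 0 < Pool.Agent.H49.Ent.cond Q A j e → 0 < Q e ∧ A e = j := fun j e he =>
      (cond_pos_iff hQ0 _ _ e).1 he
    have hpart : ∀ j, δ ≤ law Q A j → N * Real.log 2 - θ / δ * J ≤
        CH (Pool.Agent.H49.Ent.cond Q A j) T (fun e => ((u e, d e), Y e)) := by
      intro j hj
      have hj0 : 0 < law Q A j := lt_of_lt_of_le hδ0 hj
      have h1 := cond_full hQ (X := T) (Y := fun e => ((u e, d e), Y e)) (A := A) (a := j)
        (L := N * Real.log 2) (e := θ * J) (c := 0) hj0 (by rw [hNN]; exact hf)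
        (le_of_eq (CH_eq_zero hQ0 (fun e e' he he' h' =>
          hAY e e' he he' (Prod.ext_iff.1 h').2)))
        (fun b hb => hmax _ (hcl b hb) (fun e he => (hcs b e he).1))
      have h2 : 0 ≤ N * Real.log 2 -
          CH (Pool.Agent.H49.Ent.cond Q A j) T (fun e => ((u e, d e), Y e)) :=
        sub_nonneg.2 (hmax _ (hcl j hj0) (fun e he => (hcs j e he).1))
      have h3 := (mul_le_mul_of_nonneg_right hj h2).trans h1
      have h4 : N * Real.log 2 -
          CH (Pool.Agent.H49.Ent.cond Q A j) T (fun e => ((u e, d e), Y e)) ≤ θ / δ * J := by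
        rw [div_mul_eq_mul_div, le_div_iff₀ hδ0]
        linarith
      linarith
    have htime : θ / δ * J + Real.log 9 ≤ θ₁ * ((J - w1 : ℕ) : ℝ) := by
      rw [← hNN]
      have h1 : θ / δ * J ≤ θ₁ * η / 4 * J := mul_le_mul_of_nonneg_right hθ2 hJ0.le
      have h2 : θ₁ * (η * J) ≤ θ₁ * N := mul_le_mul_of_nonneg_left hN hθ₁.le
      have h3 : θ₁ * (η * J) = θ₁ * η * J := by ring
      linarith
    -- condition on the sign
    have hsw : ∀ {R U : Type} (X : E → R) (W : E → U), (∀ e e', 0 < Q e → 0 < Q e' → W e = W e' →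
        Y e = Y e') → CH Q X W = CH Q X (fun e => (W e, A e)) := by
      intro R U X W hW
      refine CH_congr hQ0 (fun _ _ _ _ e => (Prod.ext_iff.1 e).1)
        (fun _ _ _ _ e => (Prod.ext_iff.1 e).1) ?_ ?_
      · intro e e' he he' h'
        exact Prod.ext h' (hAY e e' he he' (hW e e' he he' h'))
      · intro e e' _ _ h'
        exact (Prod.ext_iff.1 h').1
    rw [hsw X Y (fun _ _ _ _ h => h), hsw XT (fun e => (T e, Y e))
      (fun _ _ _ _ h => (Prod.ext_iff.1 h).2), CH_split hQ0, CH_split hQ0]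
    obtain ⟨E₁, hE₁⟩ : ∃ E : ℝ, E = ε / 8 * N + θ / δ * J + k * ((y + 3) * Real.log 2) +
      (Real.log 9 + k * Real.log 7 + k * Real.log 13) := ⟨_, rfl⟩
    have hE₁0 : 0 ≤ E₁ := by rw [hE₁]; positivity
    have hone : ∀ j, law Q A j * CH (Pool.Agent.H49.Ent.cond Q A j) X Y ≤
        law Q A j * CH (Pool.Agent.H49.Ent.cond Q A j) XT (fun e => (T e, Y e)) +
          (law Q A j * E₁ + δ * E₂) := by
      intro j
      have hlj := law_nonneg hQ0 A j
      rcases hlj.eq_or_lt with h0 | h0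
      · rw [← h0]
        have := mul_nonneg hδ0.le hE₂0
        linarith
      · have hlaw := hcl j h0
        have ht := htriv _ hlaw (fun e he => (hcs j e he).1)
        by_cases hj : j = 0
        · have h1 := mul_le_mul_of_nonneg_left ht hlj
          have h2 : law Q A j * E₂ ≤ δ * E₂ := by
            rw [hj]
            exact mul_le_mul_of_nonneg_right (hz.trans hθδ) hE₂0
          have h3 := mul_nonneg hlj hE₁0
          linarith
        · by_cases hjp : δ ≤ law Q A j
          · have h1 := bk_part (J := J) hlaw u d hd hw01 hw1 t T Y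
              (fun e e' he he' => hY e e' (hcs j e he).1 (hcs j e' he').1)
              (fun e he => hw e (hcs j e he).1) (j := j)
              (fun e he => by
                have := (hcs j e he).2
                rw [hA] at this
                exact this) hj (θ := θ / δ * J) (ε := ε / 8 * N)
              (by
                have := hpart j hjp
                rw [← hNN]
                exact this)
              (by
                intro F hF
                have h1 : F.Tm (θ₁ * ((J - w1 : ℕ) : ℝ)) := by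
                  unfold Fam.Tm at hF ⊢
                  linarith
                have h2 := hJ₁ (J - w1) hNJ F h1
                rw [hNN]
                exact h2)
            rw [← hX, ← hXT, ← hy] at h1
            have h4 := mul_le_mul_of_nonneg_left h1 hlj
            have h3 := mul_nonneg hδ0.le hE₂0
            rw [hE₁]
            linarith
          · have h1 := mul_le_mul_of_nonneg_left ht hlj
            have h2 := mul_le_mul_of_nonneg_right (not_le.1 hjp).le hE₂0
            have h3 := mul_nonneg hlj hE₁0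
            linarith
    have hsum := Finset.sum_le_sum (s := univ.image A) fun j _ => hone j
    rw [Finset.sum_add_distrib, Finset.sum_add_distrib, ← Finset.sum_mul] at hsum
    have hs1 : ∑ j ∈ univ.image A, law Q A j = 1 := by
      rw [sum_law, hQ.sum_one]
    have hs2 : ∑ _j ∈ univ.image A, δ * E₂ ≤ 3 * (δ * E₂) := by
      rw [Finset.sum_const, nsmul_eq_mul]
      refine mul_le_mul_of_nonneg_right ?_ (by positivity)
      have h1 : univ.image A ⊆ ({0, 1, -1} : Finset ℤ) := by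
        intro x hx
        obtain ⟨v, -, rfl⟩ := Finset.mem_image.1 hx
        rw [hA]
        exact sgn_mem _ t T v
      have h2 := Finset.card_le_card h1
      have h3 : ({0, 1, -1} : Finset ℤ).card = 3 := by decide
      rw [h3] at h2
      exact_mod_cast h2
    rw [hs1, one_mul] at hsum
    have hE2' : δ * E₂ ≤ ε / 16 * J + ε / 4 := by
      have h1 : E₂ ≤ (k + 1) * (J + 4) := by
        rw [hE₂]
        have h3 : N * Real.log 2 ≤ J + 4 := by nlinarith
        have h4 : (N + y + 4) * Real.log 2 ≤ J + 4 := by nlinarith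
        have h5 : k * ((N + y + 4) * Real.log 2) ≤ k * ((J : ℝ) + 4) :=
          mul_le_mul_of_nonneg_left h4 hk0
        linarith
      calc δ * E₂ ≤ δ * ((k + 1) * (J + 4)) := mul_le_mul_of_nonneg_left h1 hδ0.le
        _ = δ * (k + 1) * (J + 4) := by ring
        _ ≤ ε / 16 * (J + 4) := mul_le_mul_of_nonneg_right hδk (by positivity)
        _ = ε / 16 * J + ε / 4 := by ring
    have hfin : ε / 8 * N ≤ ε / 8 * J := mul_le_mul_of_nonneg_left hNJ' (by positivity)
    have hth : θ / δ * J ≤ ε / 16 * J := mul_le_mul_of_nonneg_right hθ3 hJ0.le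
    have hc1 : k * ((y + 3) * Real.log 2) ≤ k * (y * Real.log 2) + 3 * k := by
      have : k * (3 * Real.log 2) ≤ k * 3 := mul_le_mul_of_nonneg_left (by linarith) hk0
      linarith
    have hc2 : k * Real.log 7 ≤ k * 3 := mul_le_mul_of_nonneg_left hl7 hk0
    have hc3 : k * Real.log 13 ≤ k * 4 := mul_le_mul_of_nonneg_left hl13 hk0
    rw [hE₁] at hsum
    linarith

end Pool.NJ34
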