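import Pool.Agent.H34.NJ.Bk2
import Pool.Agent.H37.CLO.Lne
import Pool.Agent.H71.GEN.Defs
import Pool.Agent.H2.GEN.ChT

/-!
# The labels of the other times are few, given the exact point: the entropy

`h2_chain`: two samples `e.1`, `e.2` of one line in one window of length `2 ^ (-W0)`. A variable
`Kz` which is few bits given the point of `e.2`, and which does not determine the time of `e.2` in
its window of length `2 ^ (-W1)`, is few bits given the point of `e.1`, up to the gain of the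
positions.
-/

set_option autoImplicit false

namespace Pool.NJ34

open Finset Real
open Pool.Agent.H49.Ent Pool.Agent.H32.Dense Pool.STK Pool.KA Pool.KSAT Pool.K2S Pool.PB Pool.KM7
open Pool.TWO (floor_two floor_same)
open Pool.GEN

variable {m J : ℕ}

/-- The ball of radius `2 ^ (-w)` at the beginning of the window, with the side information. -/
noncomputable def bal (F : Fam m J) (w : ℕ) (ω : F.Ω) : (Fin m → ℤ) × F.ζ :=
  (fl w (F.x1 w ω), F.Z ω)

theorem bal_slam (F : Fam m J) (w : ℕ) {ω ω' : F.Ω} (h : slam F w ω = slam F w ω') :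
    bal F w ω = bal F w ω' := by
  have h1 := Prod.ext_iff.1 h
  have h2 := Prod.ext_iff.1 h1.2
  have h3 : F.u ω = F.u ω' := (Prod.ext_iff.1 h1.1).1
  have h4 : F.d ω = F.d ω' := (Prod.ext_iff.1 h1.1).2
  have h5 : F.T1 w ω = F.T1 w ω' := h2.2
  have h6 : F.x1 w ω = F.x1 w ω' := by
    funext i
    unfold Fam.x1
    rw [h3, h4, h5]
  unfold bal
  rw [h6, show F.Z ω = F.Z ω' from h2.1]

/-- The window of `2 ^ (-w)` contains the window of `2 ^ (-w')`. -/
theorem T1_div (F : Fam m J) {w w' : ℕ} (h : w ≤ w') (h' : w' ≤ J) (ω : F.Ω) :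
    F.T1 w ω = F.T1 w' ω / 2 ^ (w' - w) := by
  unfold Fam.T1
  rw [Nat.div_div_eq_div_mul, ← pow_add]
  congr 2
  omega

/-- The ball is a bounded choice, given the point. -/
theorem bal_few (F : Fam m J) {w : ℕ} (hw : w ≤ J) {E : Type} [Fintype E] {q : E → ℝ}
    (hq : IsLaw q) (f : E → F.Ω) :
    CH q (fun e => bal F w (f e)) (fun e => ptr F J (f e)) ≤ m * Real.log 9 := by
  have hq0 := hq.nonneg
  have h1 : CH q (fun e => bal F w (f e)) (fun e => ptr F J (f e)) =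
      CH q (fun e => fl w (F.x1 w (f e))) (fun e => ptr F J (f e)) := by
    refine CH_congr hq0 ?_ ?_ (fun _ _ _ _ h => h) (fun _ _ _ _ h => h)
    · intro e e' _ _ h
      exact (Prod.ext_iff.1 (Prod.ext_iff.1 h).1).1
    · intro e e' _ _ h
      have h2 := Prod.ext_iff.1 h
      have h3 : (F.X J (f e), F.W (f e)) = (F.X J (f e'), F.W (f e')) := h2.2
      exact Prod.ext h2.1 (Prod.ext_iff.1 (Prod.ext_iff.1 h3).2).2
  rw [h1]
  refine (CH_le_vec hq0 hq.sum_one _ _ (fun _ => 4) ?_).trans (le_of_eq ?_)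
  · intro e e' _ _ h i
    have h3 : (F.X J (f e), F.W (f e)) = (F.X J (f e'), F.W (f e')) := h
    have h4 : F.X J (f e) i = F.X J (f e') i := congrFun (Prod.ext_iff.1 h3).1 i
    have h5 : |(2 : ℝ) ^ J * F.x (f e) i - 2 ^ J * F.x (f e') i| ≤ 1 := floor_same h4
    have hw0 : (0 : ℝ) < 2 ^ w := by positivity
    have h6 : |(2 : ℝ) ^ w * F.x (f e) i - 2 ^ w * F.x (f e') i| ≤ 1 := by
      have e1 : (2 : ℝ) ^ J = 2 ^ (J - w) * 2 ^ w := by
        rw [← pow_add]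
        congr 1
        omega
      have e2 : (2 : ℝ) ^ J * F.x (f e) i - 2 ^ J * F.x (f e') i =
          2 ^ (J - w) * (2 ^ w * F.x (f e) i - 2 ^ w * F.x (f e') i) := by
        rw [e1]
        ring
      rw [e2, abs_mul, abs_of_pos (by positivity : (0 : ℝ) < 2 ^ (J - w))] at h5
      have e3 : (1 : ℝ) ≤ 2 ^ (J - w) := one_le_pow₀ (by norm_num)
      exact (le_mul_of_one_le_left (abs_nonneg _) e3).trans h5
    have hn : ∀ ω : F.Ω, |(2 : ℝ) ^ w * F.x ω i - 2 ^ w * F.x1 w ω i| ≤ 1 := by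
      intro ω
      have h7 := Pool.CHT.near_win F i hw ω
      rw [← mul_sub, abs_mul, abs_of_pos hw0]
      calc (2 : ℝ) ^ w * |F.x ω i - F.x1 w ω i| ≤ 2 ^ w * (1 / 2 ^ w) :=
            mul_le_mul_of_nonneg_left h7 hw0.le
        _ = 1 := by field_simp
    have h8 := hn (f e)
    have h9 := hn (f e')
    have key : |(2 : ℝ) ^ w * F.x1 w (f e) i - 2 ^ w * F.x1 w (f e') i| ≤ 3 := by
      rw [abs_le] at h6 h8 h9 ⊢
      constructor <;> linarith [h6.1, h6.2, h8.1, h8.2, h9.1, h9.2]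
    exact (floor_two key).trans (by norm_num)
  · rw [Ex_const hq.sum_one]
    norm_num

/-- **The chain of entropies.** -/
theorem h2_chain {F : Fam m J} {p : F.Ω → ℝ} (hp : IsLaw p) {W0 W1 : ℕ} (hW : W0 ≤ W1)
    (hW1 : W1 ≤ J) {U : Type} (Kz : F.Ω × F.Ω → U) {r : ℕ} (c : ℕ → Fin m)
    (hc : ∀ i, ∃ l ≤ r, c l = i) {c₀ δ δ' Eb En : ℝ}
    (h1 : CH (P2 p (slam F W0)) Kz (fun e => ptr F J e.2) ≤ c₀)
    (h2 : ((J - W1 : ℕ) : ℝ) * Real.log 2 - δ ≤
      CH (P2 p (slam F W0)) (fun e => F.T e.2) (fun e => (slam F W1 e.2, (Kz e, e.1))))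
    (h3 : ((W1 - W0 : ℕ) : ℝ) * Real.log 2 - δ' ≤
      CH (P2 p (slam F W0)) (fun e => F.T1 W1 e.2) (fun e => e.1))
    (h4 : CH (P2 p (slam F W0)) (fun e (i : Fin r) => F.X J e.1 (c i))
        (fun e => (Kz e, (F.T1 W1 e.2, (bal F W0 e.1, F.T e.1)))) ≤
      CH (P2 p (slam F W0)) (fun e (i : Fin r) => F.X J e.2 (c i))
        (fun e => (F.T e.2, (Kz e, (F.T1 W1 e.2, (bal F W0 e.1, F.T e.1))))) + Eb)
    (h5 : CH (P2 p (slam F W0)) (fun e => F.X J e.1 (c r))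
        (fun e => ((fun (i : Fin r) => F.X J e.1 (c i)),
          (Kz e, (F.T1 W1 e.2, (bal F W0 e.1, F.T e.1))))) ≤ En) :
    CH (P2 p (slam F W0)) Kz (fun e => ptr F J e.1) ≤
      ((W1 - W0 : ℕ) : ℝ) * Real.log 2 + Eb + En + (m * Real.log 9 + c₀ + δ + δ') := by
  classical
  have hPl := P2_isLaw hp (slam F W0)
  have hpos : ∀ e : F.Ω × F.Ω, 0 < P2 p (slam F W0) e → slam F W0 e.1 = slam F W0 e.2 :=
    fun e he => ((P2_pos hp e).1 he).2.2
  have hswap : Psh (P2 p (slam F W0)) Prod.swap (P2 p (slam F W0)) := by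
    have := Pool.CLO37.cp_swap_psh p (slam F W0)
    rw [Pool.CLO37.cp_eq] at this
    exact this
  obtain ⟨P, hP⟩ : ∃ P, P = P2 p (slam F W0) := ⟨_, rfl⟩
  rw [← hP] at hPl hpos hswap h1 h2 h3 h4 h5 ⊢
  have hP0 := hPl.nonneg
  -- the variables
  obtain ⟨b, hb⟩ : ∃ b : F.Ω × F.Ω → (Fin m → ℤ) × F.ζ, b = fun e => bal F W0 e.1 := ⟨_, rfl⟩
  obtain ⟨wd, hwd⟩ : ∃ wd : F.Ω × F.Ω → ℕ, wd = fun e => F.T1 W1 e.2 := ⟨_, rfl⟩
  obtain ⟨t1, ht1⟩ : ∃ t : F.Ω × F.Ω → ℕ, t = fun e => F.T e.1 := ⟨_, rfl⟩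
  obtain ⟨T2, hT2⟩ : ∃ t : F.Ω × F.Ω → ℕ, t = fun e => F.T e.2 := ⟨_, rfl⟩
  obtain ⟨x1, hx1⟩ : ∃ x : F.Ω × F.Ω → Fin m → ℤ, x = fun e => F.X J e.1 := ⟨_, rfl⟩
  obtain ⟨x2, hx2⟩ : ∃ x : F.Ω × F.Ω → Fin m → ℤ, x = fun e => F.X J e.2 := ⟨_, rfl⟩
  obtain ⟨V1, hV1⟩ : ∃ x : F.Ω × F.Ω → Fin r → ℤ, x = fun e (i : Fin r) => F.X J e.1 (c i) :=
    ⟨_, rfl⟩
  obtain ⟨V2, hV2⟩ : ∃ x : F.Ω × F.Ω → Fin r → ℤ, x = fun e (i : Fin r) => F.X J e.2 (c i) :=
    ⟨_, rfl⟩
  obtain ⟨N1, hN1⟩ : ∃ x : F.Ω × F.Ω → ℤ, x = fun e => F.X J e.1 (c r) := ⟨_, rfl⟩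
  obtain ⟨Us, hUs⟩ : ∃ Us : F.Ω × F.Ω → ℕ × (((Fin m → ℤ) × F.ζ) × ℕ),
    Us = fun e => (wd e, (b e, t1 e)) := ⟨_, rfl⟩
  have hY : (fun e => (Kz e, (F.T1 W1 e.2, (bal F W0 e.1, F.T e.1)))) =
      fun e => (Kz e, Us e) := by
    rw [hUs, hwd, hb, ht1]
  have h4' : CH P V1 (fun e => (Kz e, Us e)) ≤ CH P V2 (fun e => (T2 e, (Kz e, Us e))) + Eb := by
    rw [hV1, hV2, hT2, hUs, hwd, hb, ht1]
    exact h4
  have h5' : CH P N1 (fun e => (V1 e, (Kz e, Us e))) ≤ En := by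
    rw [hN1, hV1, hUs, hwd, hb, ht1]
    exact h5
  -- same ball, same side information
  have hbb : ∀ e, 0 < P e → bal F W0 e.1 = bal F W0 e.2 := fun e he => bal_slam F W0 (hpos e he)
  -- step 0
  have a0 : CH P Kz (fun e => ptr F J e.1) ≤ m * Real.log 9 +
      CH P Kz (fun e => (b e, ptr F J e.1)) := by
    have t1 := CH_le_add hP0 Kz b (fun e => ptr F J e.1)
    have t2 := bal_few F (hW.trans hW1) hPl (fun e : F.Ω × F.Ω => e.1)
    rw [← hb] at t2
    linarith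
  -- the window of the second time
  have hwl : ∀ {R : Type} (W : F.Ω × F.Ω → R), (∀ e e', 0 < P e → 0 < P e' → W e = W e' →
      F.T e.1 = F.T e'.1) → CH P wd W ≤ ((W1 - W0 : ℕ) : ℝ) * Real.log 2 := by
    intro R W hW'
    have e0 : CH P wd W = CH P (fun e => wd e % 2 ^ (W1 - W0)) W := by
      refine CH_congr hP0 ?_ ?_ (fun _ _ _ _ h => h) (fun _ _ _ _ h => h)
      · intro e e' _ _ h
        have h1 : wd e = wd e' := (Prod.ext_iff.1 h).1
        change wd e % _ = wd e' % _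
        rw [h1]
      · intro e e' he he' h
        have h1 : wd e % 2 ^ (W1 - W0) = wd e' % 2 ^ (W1 - W0) := (Prod.ext_iff.1 h).1
        have h3 : F.T e.1 = F.T e'.1 := hW' e e' he he' (Prod.ext_iff.1 h).2
        have h4 : F.T1 W0 e.1 = F.T1 W0 e'.1 := by
          unfold Fam.T1
          rw [h3]
        have h5 : ∀ e, 0 < P e → F.T1 W0 e.1 = wd e / 2 ^ (W1 - W0) := by
          intro e he
          have h6 : F.T1 W0 e.1 = F.T1 W0 e.2 :=
            (Prod.ext_iff.1 (Prod.ext_iff.1 (hpos e he)).2).2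
          rw [h6, hwd]
          exact T1_div F hW hW1 e.2
        have h6 := h5 e he
        have h7 := h5 e' he'
        rw [← Nat.div_add_mod (wd e) (2 ^ (W1 - W0)), ← Nat.div_add_mod (wd e') (2 ^ (W1 - W0)),
          h1, ← h6, ← h7, h4]
    rw [e0]
    have e1 := CH_le_card hP0 hPl.sum_one (fun e => wd e % 2 ^ (W1 - W0))
      W (fun _ => Finset.range (2 ^ (W1 - W0)))
      (fun e _ => Finset.mem_range.2 (Nat.mod_lt _ (by positivity)))
    rw [Ex_const hPl.sum_one, Finset.card_range] at e1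
    push_cast at e1
    rwa [Real.log_pow] at e1
  -- step 1
  have a1 : CH P Kz (fun e => (b e, ptr F J e.1)) ≤ ((W1 - W0 : ℕ) : ℝ) * Real.log 2 +
      CH P Kz (fun e => (x1 e, Us e)) := by
    have s1 := CH_le_add hP0 Kz wd (fun e => (b e, ptr F J e.1))
    have s2 : CH P wd (fun e => (b e, ptr F J e.1)) ≤ ((W1 - W0 : ℕ) : ℝ) * Real.log 2 := by
      refine hwl _ fun e e' _ _ h => ?_
      have h2 : (F.X J e.1, F.W e.1) = (F.X J e'.1, F.W e'.1) := (Prod.ext_iff.1 h).2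
      exact (Prod.ext_iff.1 (Prod.ext_iff.1 h2).2).1
    have s3 : CH P Kz (fun e => (wd e, (b e, ptr F J e.1))) ≤
        CH P Kz (fun e => (x1 e, Us e)) := by
      refine CH_mono_cond hP0 fun e e' _ _ h => ?_
      have g1 := Prod.ext_iff.1 h
      have g2 := Prod.ext_iff.1 g1.2
      have g3 : (F.X J e.1, F.W e.1) = (F.X J e'.1, F.W e'.1) := g2.2
      have g4 := Prod.ext_iff.1 g3
      have g5 : F.T e.1 = F.T e'.1 := (Prod.ext_iff.1 g4.2).1
      rw [hx1, hUs, ht1]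
      exact Prod.ext g4.1 (Prod.ext g1.1 (Prod.ext g2.1 g5))
    linarith
  -- step 2
  have a2 : CH P Kz (fun e => (x1 e, Us e)) =
      CH P Kz Us + CH P x1 (fun e => (Kz e, Us e)) - CH P x1 Us := by
    have s1 := CH_chain hP0 Kz x1 Us
    have s2 := CH_chain hP0 x1 Kz Us
    have s3 : CH P (fun e => (Kz e, x1 e)) Us = CH P (fun e => (x1 e, Kz e)) Us :=
      Pool.MIC.CH_swl hP0 Kz x1 Us
    linarith
  -- step 3
  obtain ⟨Ts, hTs⟩ : ∃ Ts : F.Ω × F.Ω → ℕ × ((Fin m → ℤ) × F.ζ), Ts = fun e => (T2 e, b e) :=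
    ⟨_, rfl⟩
  have a3 : CH P Kz Ts + CH P x2 (fun e => (Kz e, Ts e)) ≤ c₀ + CH P x2 Ts := by
    have s1 := CH_chain hP0 Kz x2 Ts
    have s2 := CH_chain hP0 x2 Kz Ts
    have s3 : CH P (fun e => (Kz e, x2 e)) Ts = CH P (fun e => (x2 e, Kz e)) Ts :=
      Pool.MIC.CH_swl hP0 Kz x2 Ts
    have s4 : CH P Kz (fun e => (x2 e, Ts e)) ≤ CH P Kz (fun e => ptr F J e.2) := by
      refine CH_mono_cond hP0 fun e e' he he' h => ?_
      have g1 := Prod.ext_iff.1 h
      rw [hTs] at g1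
      have g2 := Prod.ext_iff.1 g1.2
      have g3 : F.X J e.2 = F.X J e'.2 := by
        have g4 : x2 e = x2 e' := g1.1
        rw [hx2] at g4
        exact g4
      have g4 : F.T e.2 = F.T e'.2 := by
        have g5 : T2 e = T2 e' := g2.1
        rw [hT2] at g5
        exact g5
      have g5 : F.Z e.2 = F.Z e'.2 := by
        have g6 : b e = b e' := g2.2
        rw [hb] at g6
        have g7 : bal F W0 e.1 = bal F W0 e'.1 := g6
        rw [hbb e he, hbb e' he'] at g7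
        exact (Prod.ext_iff.1 g7).2
      exact Prod.ext g3 (Prod.ext g4 g5)
    linarith
  -- step 4
  have a4 : CH P Kz Us ≤ CH P Kz Ts + δ := by
    obtain ⟨Wb, hWb⟩ : ∃ Wb : F.Ω × F.Ω → ℕ × ((Fin m → ℤ) × F.ζ), Wb = fun e => (wd e, b e) :=
      ⟨_, rfl⟩
    have s0 : CH P Kz Us ≤ CH P Kz Wb := by
      refine CH_mono_cond hP0 fun e e' _ _ h => ?_
      rw [hUs] at h
      have g1 := Prod.ext_iff.1 h
      rw [hWb]
      exact Prod.ext g1.1 (Prod.ext_iff.1 g1.2).1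
    have s1 := CH_chain hP0 Kz T2 Wb
    have s2 := CH_chain hP0 T2 Kz Wb
    have s3 : CH P (fun e => (Kz e, T2 e)) Wb = CH P (fun e => (T2 e, Kz e)) Wb :=
      Pool.MIC.CH_swl hP0 Kz T2 Wb
    have s4 : CH P Kz (fun e => (T2 e, Wb e)) ≤ CH P Kz Ts := by
      refine CH_mono_cond hP0 fun e e' _ _ h => ?_
      have g1 := Prod.ext_iff.1 h
      rw [hWb] at g1
      rw [hTs]
      exact Prod.ext g1.1 (Prod.ext_iff.1 g1.2).2
    have s5 : CH P T2 Wb ≤ ((J - W1 : ℕ) : ℝ) * Real.log 2 := by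
      have e0 : CH P T2 Wb = CH P (fun e => T2 e % 2 ^ (J - W1)) Wb := by
        refine CH_congr hP0 ?_ ?_ (fun _ _ _ _ h => h) (fun _ _ _ _ h => h)
        · intro e e' _ _ h
          have h1 : T2 e = T2 e' := (Prod.ext_iff.1 h).1
          change T2 e % _ = T2 e' % _
          rw [h1]
        · intro e e' he he' h
          have h1 : T2 e % 2 ^ (J - W1) = T2 e' % 2 ^ (J - W1) := (Prod.ext_iff.1 h).1
          have h2 : Wb e = Wb e' := (Prod.ext_iff.1 h).2
          rw [hWb] at h2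
          have h3 : wd e = wd e' := (Prod.ext_iff.1 h2).1
          rw [hwd] at h3
          have h4 : F.T e.2 / 2 ^ (J - W1) = F.T e'.2 / 2 ^ (J - W1) := h3
          rw [hT2] at h1 ⊢
          change F.T e.2 = F.T e'.2
          have h5 : F.T e.2 % 2 ^ (J - W1) = F.T e'.2 % 2 ^ (J - W1) := h1
          rw [← Nat.div_add_mod (F.T e.2) (2 ^ (J - W1)),
            ← Nat.div_add_mod (F.T e'.2) (2 ^ (J - W1)), h4, h5]
      rw [e0]
      have e1 := CH_le_card hP0 hPl.sum_one (fun e => T2 e % 2 ^ (J - W1))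
        Wb (fun _ => Finset.range (2 ^ (J - W1)))
        (fun e _ => Finset.mem_range.2 (Nat.mod_lt _ (by positivity)))
      rw [Ex_const hPl.sum_one, Finset.card_range] at e1
      push_cast at e1
      rwa [Real.log_pow] at e1
    have s6 : CH P (fun e => F.T e.2) (fun e => (slam F W1 e.2, (Kz e, e.1))) ≤
        CH P T2 (fun e => (Kz e, Wb e)) := by
      rw [hT2]
      refine CH_mono_cond hP0 fun e e' _ _ h => ?_
      have g1 := Prod.ext_iff.1 h
      have g2 := Prod.ext_iff.1 g1.2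
      have g3 : F.T1 W1 e.2 = F.T1 W1 e'.2 := (Prod.ext_iff.1 (Prod.ext_iff.1 g1.1).2).2
      have g4 : e.1 = e'.1 := g2.2
      refine Prod.ext g2.1 ?_
      rw [hWb, hwd, hb]
      exact Prod.ext g3 (by
        change bal F W0 e.1 = bal F W0 e'.1
        rw [g4])
    linarith
  -- step 5
  have a5 : CH P x2 Ts ≤ CH P x1 Us + δ' := by
    have s0 : CH P x2 Ts = CH P x1 (fun e => (t1 e, b e)) := by
      have e1 := Psh.CH_eq hswap (fun e => F.X J e.2) (fun e => (F.T e.2, bal F W0 e.2))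
      have e2 : CH P x2 Ts = CH P (fun e => F.X J e.2) (fun e => (F.T e.2, bal F W0 e.2)) := by
        rw [hx2, hTs, hT2, hb]
        refine CH_congr hP0 (fun _ _ _ _ h => (Prod.ext_iff.1 h).1)
          (fun _ _ _ _ h => (Prod.ext_iff.1 h).1) ?_ ?_
        · intro e e' he he' h
          have g1 := Prod.ext_iff.1 h
          have g2 : bal F W0 e.1 = bal F W0 e'.1 := g1.2
          rw [hbb e he, hbb e' he'] at g2
          exact Prod.ext g1.1 g2
        · intro e e' he he' h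
          have g1 := Prod.ext_iff.1 h
          have g2 : bal F W0 e.2 = bal F W0 e'.2 := g1.2
          rw [← hbb e he, ← hbb e' he'] at g2
          exact Prod.ext g1.1 g2
      rw [e2, hx1, ht1, hb]
      exact e1.symm
    obtain ⟨tb, htb⟩ : ∃ tb : F.Ω × F.Ω → ℕ × ((Fin m → ℤ) × F.ζ), tb = fun e => (t1 e, b e) :=
      ⟨_, rfl⟩
    rw [← htb] at s0
    have s1 := CH_chain hP0 wd x1 tb
    have s2 := CH_chain hP0 x1 wd tb
    have s3 : CH P (fun e => (wd e, x1 e)) tb = CH P (fun e => (x1 e, wd e)) tb :=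
      Pool.MIC.CH_swl hP0 wd x1 tb
    have s4 : CH P wd tb ≤ ((W1 - W0 : ℕ) : ℝ) * Real.log 2 := by
      refine hwl _ fun e e' _ _ h => ?_
      rw [htb, ht1] at h
      exact (Prod.ext_iff.1 h).1
    have s5 : CH P (fun e => F.T1 W1 e.2) (fun e => e.1) ≤ CH P wd (fun e => (x1 e, tb e)) := by
      rw [hwd]
      refine CH_mono_cond hP0 fun e e' _ _ h => ?_
      have g1 : e.1 = e'.1 := h
      rw [hx1, htb, ht1, hb]
      change (F.X J e.1, (F.T e.1, bal F W0 e.1)) = (F.X J e'.1, (F.T e'.1, bal F W0 e'.1))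
      rw [g1]
    have s6 : CH P x1 (fun e => (wd e, tb e)) ≤ CH P x1 Us := by
      refine le_of_eq (CH_congr hP0 (fun _ _ _ _ h => (Prod.ext_iff.1 h).1)
          (fun _ _ _ _ h => (Prod.ext_iff.1 h).1) ?_ ?_)
      · intro e e' _ _ h
        rw [htb] at h
        have g1 := Prod.ext_iff.1 h
        have g2 := Prod.ext_iff.1 g1.2
        rw [hUs]
        exact Prod.ext g1.1 (Prod.ext g2.2 g2.1)
      · intro e e' _ _ h
        rw [hUs] at h
        have g1 := Prod.ext_iff.1 h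
        have g2 := Prod.ext_iff.1 g1.2
        rw [htb]
        exact Prod.ext g1.1 (Prod.ext g2.2 g2.1)
    linarith
  -- step 6
  have a6 : CH P x1 (fun e => (Kz e, Us e)) ≤ CH P V1 (fun e => (Kz e, Us e)) +
      CH P N1 (fun e => (V1 e, (Kz e, Us e))) := by
    rw [← CH_chain hP0]
    refine CH_mono_left hP0 fun e e' _ _ h => ?_
    have g1 := Prod.ext_iff.1 (Prod.ext_iff.1 h).1
    have g2 : N1 e = N1 e' := g1.1
    have g3 : V1 e = V1 e' := g1.2
    rw [hN1] at g2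
    rw [hV1] at g3
    rw [hx1]
    funext i
    obtain ⟨l, hl, hli⟩ := hc i
    rcases Nat.lt_or_ge l r with h6 | h6
    · have h7 := congrFun g3 ⟨l, h6⟩
      rw [← hli]
      exact h7
    · have h7 : l = r := by omega
      rw [← hli, h7]
      exact g2
  -- step 7
  have a7 : CH P V2 (fun e => (T2 e, (Kz e, Us e))) ≤ CH P x2 (fun e => (Kz e, Ts e)) := by
    have s1 : CH P V2 (fun e => (T2 e, (Kz e, Us e))) ≤ CH P V2 (fun e => (Kz e, Ts e)) := by
      refine CH_mono_cond hP0 fun e e' _ _ h => ?_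
      have g1 := Prod.ext_iff.1 h
      have g2 := Prod.ext_iff.1 g1.2
      rw [hUs] at g2
      have g3 := Prod.ext_iff.1 (Prod.ext_iff.1 g2.2).2
      rw [hTs]
      exact Prod.ext g2.1 (Prod.ext g1.1 g3.1)
    refine s1.trans (CH_mono_left hP0 fun e e' _ _ h => ?_)
    have g1 : x2 e = x2 e' := (Prod.ext_iff.1 h).1
    rw [hx2] at g1
    rw [hV2]
    funext i
    exact congrFun g1 (c i)
  linarith

end Pool.NJ34
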