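import Pool.Agent.H34.NJ.H2
import Pool.Agent.H53.JM.Lab1

/-!
# (H2) in a class: the labels with their equations, and the bound for the loss
-/

set_option autoImplicit false

namespace Pool.NJ34

open Finset Real MvPolynomial
open Pool.Agent.H49.Ent Pool.Agent.H32.Dense Pool.STK Pool.KA Pool.KSAT Pool.K2S Pool.KS3 Pool.PB
  Pool.STAT Pool.STAT.CLO Pool.GEN Pool.S6C Pool.M3F Pool.JPN Pool.GEO
open Pool.LBT (ThrOf)
open Pool.ONE (tgs)
open Pool.CHT (TmH chsys bet tau Pts bas_ev tmH_of_reg)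
open Pool.TOP (T1c T2c t1n)
open Pool.FRN (Gdy Wgd UpA)

variable {m : ℕ} {θ : ℝ} {S : PCl m} {P : List (Fin m) × Fin m → ℝ → ℝ → ℝ}

/-- **The labels with their equations**: the degree `Dq` of the equation is universal. -/
theorem eqN_of {Dq : ℕ} (hM : M3D (m - 1) Dq) {k : Fin m} {w : ℝ} {c : ℕ → Fin m}
    (h : Gdy P k w w c)
    (hne : S.Ne) (hmem : ∀ (τ : ℝ) (J : ℕ) (F : Fam m J) (A : F.Ω → Prop), S.St τ J F A →
      F.Tr ∧ F.Tm (τ * J) ∧ F.Rb (τ * J) ∧ Real.exp (-(τ * J)) ≤ Pe F.p A)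
    (hP : ThrOf (chsys m θ) S P) (hθ : 0 < θ) {Pt : ℝ → ℝ → ℝ}
    (hPt : ThrOf (tgs k) S (fun _ => Pt)) {α Q sg γ : ℝ} (hT1 : T1c S k α (sg - 2 * γ))
    (hT2 : T2c S k α Q sg) (hα : α ≤ 1) (hsgθ : sg + θ < 1) (hQ0 : 0 < Q) (hQ : Q ≤ sg)
    (hw : 0 < w) (hwα : w < α) (hwQ : w ≤ Q) (hwd : w ∈ Wgd P) (hm : 2 ≤ m)
    (hd : ∀ i, Dn1 (P i) w) (hdt : Dn1 Pt w) (hγ : 0 < γ) (hγw : γ ≤ w) (hwγ : w + 2 * γ ≤ sg)
    (hex : ∀ ρ : ℝ, 0 < ρ → ExvY S w (fun J F ω (i : Fin (m - 1)) => F.X J ω (c i))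
      ((∑ l ∈ range (m - 1), (1 - bet P c l w w)) - ρ)) {η : ℝ}
    (hη : 1 - min (Pt w w) Q < η) :
    EqN S c (m - 1) Dq w (fun l => bet P c l w w) η := by
  classical
  obtain ⟨D, sh, sh₂, K', S₀, E₀, -, -, -, -, hl⟩ := lab1D hM h hne hmem hP hθ hPt hT1 hT2 hα
    hsgθ hQ0 hQ hw hwα hwQ hwd hm hd hdt hγ hγw hwγ hex
  obtain ⟨C, hC, hjet⟩ := jetQ (m - 1) Dq K'
  refine ⟨K', fun φ hφ => ?_⟩
  have hw1 : w < 1 := hwα.trans_le hα
  have hS : TmH S := tmH_of_reg hmem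
  have hsg1 : sg < 1 := by linarith
  have hbd := h.bd hne hP hθ hS hT1 hα (by linarith) (by linarith) hw le_rfl hwα
  have hlow : ∀ l, w ≤ bet P c l w w := fun l => hP.low _ w w hw.le le_rfl hw1.le
  obtain ⟨pN, hpN⟩ : ∃ pN : ℝ, pN = min (Pt w w) Q := ⟨_, rfl⟩
  rw [← hpN] at hη hl
  have hpNsg : pN ≤ sg := by
    rw [hpN]
    exact (min_le_right _ _).trans hQ
  obtain ⟨r, hr⟩ : ∃ r, r = m - 1 := ⟨_, rfl⟩
  rw [← hr] at hl hjet hbd ⊢
  obtain ⟨δ, hδ⟩ : ∃ δ : ℝ, δ = min (φ / 4) (min γ (η - (1 - pN))) := ⟨_, rfl⟩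
  have hδ0 : 0 < δ := by
    rw [hδ]
    exact lt_min (by positivity) (lt_min hγ (by linarith))
  have hδφ : δ ≤ φ / 4 := by
    rw [hδ]
    exact min_le_left _ _
  have hδγ : δ ≤ γ := by
    rw [hδ]
    exact (min_le_right _ _).trans (min_le_left _ _)
  have hδη : δ ≤ η - (1 - pN) := by
    rw [hδ]
    exact (min_le_right _ _).trans (min_le_right _ _)
  obtain ⟨K₁, hK₁, hbas⟩ := hl δ hδ0
  refine ⟨K₁⁻¹, inv_pos.2 hK₁, ?_⟩
  obtain ⟨J₁, hJ₁⟩ := exists_nat_ge (((sh : ℝ) + 2) / (φ / 4))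
  obtain ⟨J₂, hJ₂⟩ := exists_nat_ge (Real.log C / (φ / 4))
  refine hbas.mono (max J₁ J₂) ?_
  rintro J hJ F A ⟨B, e, EN, kk, g, g₁, g₂, L, G, H, V, z, z', Pv, Qv, T, kf, hBA, hPe, hN, hL⟩
  have hJ0 : (0 : ℝ) ≤ J := Nat.cast_nonneg J
  have hJ1 : ((sh : ℝ) + 2) ≤ φ / 4 * J := by
    have h1 : (J₁ : ℝ) ≤ J := by exact_mod_cast (le_max_left _ _).trans hJ
    have h2 := hJ₁.trans h1
    rw [div_le_iff₀ (by positivity)] at h2
    linarith
  have hJ2 : Real.log C ≤ φ / 4 * J := by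
    have h1 : (J₂ : ℝ) ≤ J := by exact_mod_cast (le_max_right _ _).trans hJ
    have h2 := hJ₂.trans h1
    rw [div_le_iff₀ (by positivity)] at h2
    linarith
  obtain ⟨W, hW⟩ : ∃ W, W = ⌊w * J⌋₊ := ⟨_, rfl⟩
  have hWw : (W : ℝ) ≤ w * J := by
    rw [hW]
    exact Nat.floor_le (by positivity)
  rw [← hW] at hL ⊢
  obtain ⟨sW, hsW⟩ : ∃ sW, sW = ⌊(sg - pN) * J⌋₊ := ⟨_, rfl⟩
  have hsW1 : (sW : ℝ) ≤ (sg - pN) * J := by
    rw [hsW]
    exact Nat.floor_le (mul_nonneg (by linarith) hJ0)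
  rw [← hsW] at hL hN
  have hδφJ : δ * J ≤ φ / 4 * J := mul_le_mul_of_nonneg_right hδφ hJ0
  have hδγJ : δ * J ≤ γ * J := mul_le_mul_of_nonneg_right hδγ hJ0
  have hδηJ : δ * J ≤ (η - (1 - pN)) * J := mul_le_mul_of_nonneg_right hδη hJ0
  have hγJ : 0 ≤ γ * J := by positivity
  have hWr : W ≤ g₂ r := by
    have h1 := hN.g2l
    have h2 : (W : ℝ) ≤ g₂ r := by
      have h3 : (w + 2 * γ) * J ≤ sg * J := mul_le_mul_of_nonneg_right hwγ hJ0
      linarith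
    exact_mod_cast h2
  have hrJ : g₂ r ≤ J := by
    have h1 := hN.g2N
    have h2 := hN.g1J
    omega
  have hgl : ∀ l < r, g₂ l ≤ g₂ r ∧ (W : ℝ) ≤ g₂ l + (sh + δ * J) ∧
      (bet P c l w w - φ) * J ≤ g₂ l := by
    intro l hl'
    have h1 := hN.g2 l hl'
    have h1' : (g₂ l : ℝ) + sh = g l := by exact_mod_cast h1
    have h2 := abs_le.1 (hN.gV l hl')
    have h3 := hN.g2l
    have h4 := mul_le_mul_of_nonneg_right (hbd l hl') hJ0
    have h5 := mul_le_mul_of_nonneg_right (hlow l) hJ0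
    have hsh : (0 : ℝ) ≤ sh := Nat.cast_nonneg _
    refine ⟨?_, ?_, ?_⟩
    · have h6 : (g₂ l : ℝ) ≤ g₂ r := by linarith [h2.2]
      exact_mod_cast h6
    · linarith [h2.1]
    · have h6 : 0 ≤ φ * J := by positivity
      linarith [h2.1]
  have hwid : ∀ i < r + 1, wid W g₂ i ≤ g₂ r := by
    intro i hi
    unfold wid
    by_cases h0 : i = 0
    · rw [if_pos h0]
      exact hWr
    · rw [if_neg h0]
      exact (hgl (i - 1) (by omega)).1
  obtain ⟨Qh, ρ, hρ, hQ, hρ1⟩ := hjet (P₀ := g₂ r) Qv T kf hL.nlab hWr le_rfl hwid hL.jet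
  have hshJ : (0 : ℝ) ≤ sh := Nat.cast_nonneg sh
  refine ⟨B, ⟨g₂ r, sW, ⌈δ * J⌉₊ + sh, g₂, L, V, z, z', Pv, Qh, ρ⟩, hBA, ?_, ?_⟩
  · rw [inv_mul_le_iff₀ hK₁]
    exact hPe
  · refine ⟨fun l hl' => (hgl l hl').2.2, hWr, hrJ, le_rfl, fun i hi => ⟨?_, hwid i hi⟩, hL.nlab,
      hN.L0, hQ, hρ1, fun ω hω => ?_, ?_, ?_, ?_⟩
    · unfold wid
      by_cases h0 : i = 0
      · rw [if_pos h0]
        exact Nat.le_add_right _ _
      · rw [if_neg h0]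
        have h1 := (hgl (i - 1) (by omega)).2.1
        have h2 := Nat.le_ceil (δ * (J : ℝ))
        have h3 : (W : ℝ) ≤ ((g₂ (i - 1) + (⌈δ * J⌉₊ + sh) : ℕ) : ℝ) := by
          push_cast
          linarith
        exact_mod_cast h3
    · simp only
      rw [hρ]
      have hM0 : (0 : ℝ) < ((2 ^ (g₂ r - W) : ℕ) : ℝ) := by positivity
      have e1 : ((2 ^ (g₂ r - W) : ℕ) : ℝ) * (C * 2 ^ kf (z (ptr F J ω)) /
          ((2 ^ (g₂ r - W) : ℕ) : ℝ)) = C * 2 ^ kf (z (ptr F J ω)) := by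
        field_simp
      rw [e1]
      have h1 : (2 : ℝ) ≤ Real.exp 1 := by
        have := Real.add_one_le_exp (1 : ℝ)
        linarith
      have h2 : (2 : ℝ) ^ kf (z (ptr F J ω)) ≤ Real.exp (δ * J) := by
        calc (2 : ℝ) ^ kf (z (ptr F J ω)) ≤ 2 ^ kk :=
              pow_le_pow_right₀ one_le_two (hL.kle ω hω)
          _ ≤ Real.exp 1 ^ kk := pow_le_pow_left₀ (by norm_num) h1 _
          _ = Real.exp (kk : ℝ) := by rw [← Real.exp_nat_mul, mul_one]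
          _ ≤ _ := Real.exp_le_exp.2 hN.kk_le
      have h3 : C ≤ Real.exp (φ / 4 * J) := by
        rw [← Real.log_le_iff_le_exp (by linarith)]
        exact hJ2
      calc C * 2 ^ kf (z (ptr F J ω)) ≤ Real.exp (φ / 4 * J) * Real.exp (δ * J) :=
            mul_le_mul h3 h2 (by positivity) (Real.exp_pos _).le
        _ = Real.exp (φ / 4 * J + δ * J) := (Real.exp_add _ _).symm
        _ ≤ _ := Real.exp_le_exp.2 (by
            have : 0 ≤ φ * J := by positivity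
            linarith)
    · push_cast
      have h2 := (Nat.ceil_lt_add_one (show 0 ≤ δ * (J : ℝ) by positivity)).le
      have : 0 ≤ φ * J := by positivity
      linarith
    · have h1 := hN.logL
      have : 0 ≤ φ * J := by positivity
      simp only
      linarith
    · have h1 := hN.g2l
      simp only
      linarith

end Pool.NJ34
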