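import Pool.Agent.H34.NJ.H2G
import Pool.Agent.H53.HV.Own4

/-!
# The labels of a list with their equations

`eqN_lst`: the labels with their equations, for any list of coordinates, from its chain `OwnS`.
`eqN_cap`: for a list with a target whose threshold is full.
-/

set_option autoImplicit false

namespace Pool.NJ34

open Finset Real MvPolynomial
open Pool.Agent.H49.Ent Pool.Agent.H32.Dense Pool.STK Pool.KA Pool.KSAT Pool.K2S Pool.KS3 Pool.PB
  Pool.STAT Pool.STAT.CLO Pool.GEN Pool.S6C Pool.M3F Pool.JPN Pool.GEO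
open Pool.LBT (ThrOf)
open Pool.CHT (TmH chsys bet tau Pts bas_ev tmH_of_reg)
open Pool.FRN (Wgd UpA)

variable {m : ℕ} {θ : ℝ} {S : PCl m} {P : List (Fin m) × Fin m → ℝ → ℝ → ℝ}

/-- **The labels with their equations** of a list: the degree `Dq` of the equation is universal. -/
theorem eqN_lst {Dq r : ℕ} (hM : M3D r Dq)
    (hmem : ∀ (τ : ℝ) (J : ℕ) (F : Fam m J) (A : F.Ω → Prop), S.St τ J F A →
      F.Tr ∧ F.Tm (τ * J) ∧ F.Rb (τ * J) ∧ Real.exp (-(τ * J)) ≤ Pe F.p A)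
    {c : ℕ → Fin m} (hinj : Inj c (r + 1)) {w q s E₁ γ : ℝ} {β : ℕ → ℝ} {D : ℕ}
    (hown : OwnS S c r w β q E₁ D) (hw : 0 < w) (hγ : 0 < γ) (hγw : γ ≤ w)
    (hβw : ∀ l < r, w ≤ β l) (hsrt : ∀ l l', l ≤ l' → l' < r → β l ≤ β l')
    (hgap : ∀ l < r, β l + 2 * γ ≤ q + s) (hwγ : w + 2 * γ ≤ q + s) (hqs : q + s ≤ 1)
    (hs : 0 ≤ s) (hE : E₁ ≤ s) (hE' : ∀ l < r, E₁ + β l ≤ s + q)
    (hex : ∀ ρ : ℝ, 0 < ρ → ExvY S w (fun J F ω (i : Fin r) => F.X J ω (c i))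
      ((∑ l ∈ range r, (1 - β l)) - ρ)) {η : ℝ} (hη : 1 - q < η) :
    EqN S c r Dq w β η := by
  classical
  obtain ⟨sh, sh₂, K', S₀, E₀, -, -, -, -, hl⟩ := labG hM hmem hinj hown hw hγ hγw hβw hsrt hgap
    hwγ hqs hs hE hE' hex
  obtain ⟨C, hC, hjet⟩ := jetQ r Dq K'
  refine ⟨K', fun φ hφ => ?_⟩
  obtain ⟨δ, hδ⟩ : ∃ δ : ℝ, δ = min (φ / 4) (min γ (η - (1 - q))) := ⟨_, rfl⟩
  have hδ0 : 0 < δ := by
    rw [hδ]
    exact lt_min (by positivity) (lt_min hγ (by linarith))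
  have hδφ : δ ≤ φ / 4 := by
    rw [hδ]
    exact min_le_left _ _
  have hδγ : δ ≤ γ := by
    rw [hδ]
    exact (min_le_right _ _).trans (min_le_left _ _)
  have hδη : δ ≤ η - (1 - q) := by
    rw [hδ]
    exact (min_le_right _ _).trans (min_le_right _ _)
  obtain ⟨K₁, hK₁, hbas⟩ := hl δ hδ0
  refine ⟨K₁⁻¹, inv_pos.2 hK₁, ?_⟩
  obtain ⟨J₁, hJ₁⟩ := exists_nat_ge (((sh : ℝ) + 2) / (φ / 4))
  obtain ⟨J₂, hJ₂⟩ := exists_nat_ge (Real.log C / (φ / 4))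
  refine hbas.mono (max J₁ J₂) ?_
  rintro J hJ F A ⟨B, e, EN, kk, g, g₁, g₂, L, G, H, V, z, z', Pv, Qv, T, kf, hBA, hPe, hN, hL⟩
  have hJ0 : (0 : ℝ) ≤ J := Nat.cast_nonneg J
  have hJ1 : ((sh : ℝ) + 2) ≤ φ / 4 * J := by
    have h1 : (J₁ : ℝ) ≤ J := by exact_mod_cast (le_max_left _ _).trans hJ
    have h2 := hJ₁.trans h1
    rw [div_le_iff₀ (by positivity)] at h2
    linarith
  have hJ2 : Real.log C ≤ φ / 4 * J := by
    have h1 : (J₂ : ℝ) ≤ J := by exact_mod_cast (le_max_right _ _).trans hJ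
    have h2 := hJ₂.trans h1
    rw [div_le_iff₀ (by positivity)] at h2
    linarith
  obtain ⟨W, hW⟩ : ∃ W, W = ⌊w * J⌋₊ := ⟨_, rfl⟩
  have hWw : (W : ℝ) ≤ w * J := by
    rw [hW]
    exact Nat.floor_le (by positivity)
  rw [← hW] at hL ⊢
  obtain ⟨sW, hsW⟩ : ∃ sW, sW = ⌊s * J⌋₊ := ⟨_, rfl⟩
  have hsW1 : (sW : ℝ) ≤ s * J := by
    rw [hsW]
    exact Nat.floor_le (mul_nonneg hs hJ0)
  rw [← hsW] at hL hN
  have hδφJ : δ * J ≤ φ / 4 * J := mul_le_mul_of_nonneg_right hδφ hJ0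
  have hδγJ : δ * J ≤ γ * J := mul_le_mul_of_nonneg_right hδγ hJ0
  have hδηJ : δ * J ≤ (η - (1 - q)) * J := mul_le_mul_of_nonneg_right hδη hJ0
  have hγJ : 0 ≤ γ * J := by positivity
  have hWr : W ≤ g₂ r := by
    have h1 := hN.g2l
    have h2 : (W : ℝ) ≤ g₂ r := by
      have h3 : (w + 2 * γ) * J ≤ (q + s) * J := mul_le_mul_of_nonneg_right hwγ hJ0
      linarith
    exact_mod_cast h2
  have hrJ : g₂ r ≤ J := by
    have h1 := hN.g2N
    have h2 := hN.g1J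
    omega
  have hgl : ∀ l < r, g₂ l ≤ g₂ r ∧ (W : ℝ) ≤ g₂ l + (sh + δ * J) ∧
      (β l - φ) * J ≤ g₂ l := by
    intro l hl'
    have h1 := hN.g2 l hl'
    have h1' : (g₂ l : ℝ) + sh = g l := by exact_mod_cast h1
    have h2 := abs_le.1 (hN.gV l hl')
    have h3 := hN.g2l
    have h4 := mul_le_mul_of_nonneg_right (hgap l hl') hJ0
    have h5 := mul_le_mul_of_nonneg_right (hβw l hl') hJ0
    have hsh : (0 : ℝ) ≤ sh := Nat.cast_nonneg _
    refine ⟨?_, ?_, ?_⟩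
    · have h6 : (g₂ l : ℝ) ≤ g₂ r := by linarith [h2.2]
      exact_mod_cast h6
    · linarith [h2.1]
    · have h6 : 0 ≤ φ * J := by positivity
      linarith [h2.1]
  have hwid : ∀ i < r + 1, wid W g₂ i ≤ g₂ r := by
    intro i hi
    unfold wid
    by_cases h0 : i = 0
    · rw [if_pos h0]
      exact hWr
    · rw [if_neg h0]
      exact (hgl (i - 1) (by omega)).1
  obtain ⟨Qh, ρ, hρ, hQ, hρ1⟩ := hjet (P₀ := g₂ r) Qv T kf hL.nlab hWr le_rfl hwid hL.jet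
  have hshJ : (0 : ℝ) ≤ sh := Nat.cast_nonneg sh
  refine ⟨B, ⟨g₂ r, sW, ⌈δ * J⌉₊ + sh, g₂, L, V, z, z', Pv, Qh, ρ⟩, hBA, ?_, ?_⟩
  · rw [inv_mul_le_iff₀ hK₁]
    exact hPe
  · refine ⟨fun l hl' => (hgl l hl').2.2, hWr, hrJ, le_rfl, fun i hi => ⟨?_, hwid i hi⟩, hL.nlab,
      hN.L0, hQ, hρ1, fun ω hω => ?_, ?_, ?_, ?_⟩
    · unfold wid
      by_cases h0 : i = 0
      · rw [if_pos h0]
        exact Nat.le_add_right _ _
      · rw [if_neg h0]
        have h1 := (hgl (i - 1) (by omega)).2.1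
        have h2 := Nat.le_ceil (δ * (J : ℝ))
        have h3 : (W : ℝ) ≤ ((g₂ (i - 1) + (⌈δ * J⌉₊ + sh) : ℕ) : ℝ) := by
          push_cast
          linarith
        exact_mod_cast h3
    · simp only
      rw [hρ]
      have hM0 : (0 : ℝ) < ((2 ^ (g₂ r - W) : ℕ) : ℝ) := by positivity
      have e1 : ((2 ^ (g₂ r - W) : ℕ) : ℝ) * (C * 2 ^ kf (z (ptr F J ω)) /
          ((2 ^ (g₂ r - W) : ℕ) : ℝ)) = C * 2 ^ kf (z (ptr F J ω)) := by
        field_simp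
      rw [e1]
      have h1 : (2 : ℝ) ≤ Real.exp 1 := by
        have := Real.add_one_le_exp (1 : ℝ)
        linarith
      have h2 : (2 : ℝ) ^ kf (z (ptr F J ω)) ≤ Real.exp (δ * J) := by
        calc (2 : ℝ) ^ kf (z (ptr F J ω)) ≤ 2 ^ kk :=
              pow_le_pow_right₀ one_le_two (hL.kle ω hω)
          _ ≤ Real.exp 1 ^ kk := pow_le_pow_left₀ (by norm_num) h1 _
          _ = Real.exp (kk : ℝ) := by rw [← Real.exp_nat_mul, mul_one]
          _ ≤ _ := Real.exp_le_exp.2 hN.kk_le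
      have h3 : C ≤ Real.exp (φ / 4 * J) := by
        rw [← Real.log_le_iff_le_exp (by linarith)]
        exact hJ2
      calc C * 2 ^ kf (z (ptr F J ω)) ≤ Real.exp (φ / 4 * J) * Real.exp (δ * J) :=
            mul_le_mul h3 h2 (by positivity) (Real.exp_pos _).le
        _ = Real.exp (φ / 4 * J + δ * J) := (Real.exp_add _ _).symm
        _ ≤ _ := Real.exp_le_exp.2 (by
            have : 0 ≤ φ * J := by positivity
            linarith)
    · push_cast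
      have h2 := (Nat.ceil_lt_add_one (show 0 ≤ δ * (J : ℝ) by positivity)).le
      have : 0 ≤ φ * J := by positivity
      linarith
    · have h1 := hN.logL
      have : 0 ≤ φ * J := by positivity
      simp only
      linarith
    · have h1 := hN.g2l
      simp only
      linarith

end Pool.NJ34
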