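import Pool.Agent.H5.GEO.LineW
import Pool.Agent.H37.CLO.Lne

/-!
# The equation of the label of the second sample at the point of the first one

Two samples of one line in the window `W0`; the second one has a label at the window `W1`, with
the equation `Q` of its leaf. Outside a small event `Q` is small at the point of the first sample,
up to the factor `(2 ^ (W1 - W0)) ^ D`, and its derivative in the last direction is not small.
-/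

set_option autoImplicit false

namespace Pool.NJ34

open Finset Real MvPolynomial
open Pool.Agent.H49.Ent Pool.Agent.H32.Dense Pool.STK Pool.KAF Pool.KAL Pool.KS3 Pool.M3F
open Pool.KJA Pool.KA Pool.K2S Pool.KSAT Pool.PB Pool.STAT Pool.GEN Pool.IEN Pool.CLO37
open Pool.KM7 Pool.S6C Pool.JPN Pool.GEO

variable {m J : ℕ} {F : Fam m J}

/-- **Upper bound at the points of the leaf.** -/
theorem up_pt (r D K : ℕ) : ∃ C : ℝ, 1 ≤ C ∧ ∀ {m J : ℕ} {F : Fam m J} {c : ℕ → Fin m}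
    {W sg : ℕ} {g : ℕ → ℕ} {L : ℝ} {B : F.Ω → Prop} {V : Type} {z : PtT F → V}
    {z' : LnT F → V} {P : V → ℕ → PN} {P₀ kap : ℕ}
    {Q : MvPolynomial (Option (Fin (r + 1))) ℝ} {ρ κ : ℝ},
    NLabW F c r W sg g K L B z z' P → 0 ≤ L → 0 < law F.p B True → P₀ ≤ J → W ≤ P₀ → P₀ ≤ g r →
    (∀ i < r + 1, W ≤ wid W g i + kap ∧ wid W g i ≤ P₀) → clC r kap L ≤ κ →
    ∀ ω, 0 < Pool.Agent.H49.Ent.cond F.p B True ω →
    CsQ r D W P₀ g (P (z (ptr F J ω))) Q ρ → 1 ≤ ((2 ^ (P₀ - W) : ℕ) : ℝ) * ρ →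
    Psi Q (κ / ((2 ^ (P₀ - W) : ℕ) : ℝ)) (zsw c r W sg (ptr F J ω)) ≤
      (C * κ * ctC r kap L ^ (2 * (r + 1))) ^ (D + 1) *
        (ρ * csC (chw (r + 1) W P₀ g (P (z (ptr F J ω)))) (pN 1 Q)) := by
  classical
  obtain ⟨C₁, hC₁, hjt⟩ := jet_tri (r + 1) D ((K + 1) ^ (r + 1 + 1))
  refine ⟨C₁ * (2 ^ D * (D + 1)), ?_, ?_⟩
  · have h1 : (1 : ℝ) ≤ 2 ^ D := one_le_pow₀ one_le_two
    have h2 : (1 : ℝ) ≤ (D : ℝ) + 1 := by
      have : (0 : ℝ) ≤ D := Nat.cast_nonneg D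
      linarith
    exact one_le_mul_of_one_le_of_one_le hC₁ (one_le_mul_of_one_le_of_one_le h1 h2)
  intro m J F c W sg g L B V z z' P P₀ kap Q ρ κ hN hL hB hPJ hWP hgP hw hκ ω hω hQ hρ
  obtain ⟨M, hM⟩ : ∃ M : ℕ, M = 2 ^ (P₀ - W) := ⟨_, rfl⟩
  have hM1 : 1 ≤ M := by
    rw [hM]
    exact Nat.one_le_two_pow
  have hM0 : (0 : ℝ) < M := by exact_mod_cast hM1
  have hcl := cleaf_w (kap := kap) hN hL hB hPJ hWP hgP hw
  have hct := ctC_ge (r := r) (kap := kap) hL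
  have hcl2 := clC_ge (r := r) (kap := kap) hL
  have hκ1 : 1 ≤ κ := by linarith
  have hBω : B ω := cond_supp hω
  have htri := tri_chw hN hL hWP hw hBω
  rw [← hM] at htri hcl hρ ⊢
  obtain ⟨Φ, hΦ⟩ : ∃ Φ, Φ = chw (r + 1) W P₀ g (P (z (ptr F J ω))) := ⟨_, rfl⟩
  have hΦ' : triC (fun i => bind₁ (nchi M (ngw W P₀ g (r + 1))
      (gsh (r + 1) W P₀ g (P (z (ptr F J ω)))) 0)
      (gsh (r + 1) W P₀ g (P (z (ptr F J ω))) i) +
        MvPolynomial.C (ncor M (ngw W P₀ g (r + 1)) 0 i))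
      (nwid M (ngw W P₀ g (r + 1)))
      (bind₁ (nchi M (ngw W P₀ g (r + 1)) (gsh (r + 1) W P₀ g (P (z (ptr F J ω)))) 0)
        (toF (r + 1) W (P (z (ptr F J ω)) (r + 1)))) = Φ := by
    rw [hΦ, hM]
    rfl
  obtain ⟨u, hu⟩ : ∃ u, u = gpos (ngw W P₀ g (r + 1))
    (ybw c r W P₀ g (P (z (ptr F J ω))) (ptr F J ω)) := ⟨_, rfl⟩
  have hum : u ∈ ucube (r + 1) := by
    rw [hu]
    exact gpos_mem (hcl.lt ω hω)
  have hnear : ∀ o, |zsw c r W sg (ptr F J ω) o - cpt Φ u o| ≤ κ / M := by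
    intro o
    have h1 := hcl.near ω hω o
    rw [hΦ, hu]
    exact h1.trans (div_le_div_of_nonneg_right hκ hM0.le)
  have h1 := (hjt (ctC r kap L) κ M 1 (ngw W P₀ g (r + 1)) _ _ _ hct hκ1 hM1 le_rfl htri
    (fun i => by
      have := ngw_pos W P₀ g (r + 1) i
      exact_mod_cast this) Q hQ.deg u hum).1
  rw [hΦ'] at h1
  have h2 := Psi_le_of_near Q (κ / M) (by positivity) (cpt Φ u) (zsw c r W sg (ptr F J ω)) hnear
  have hρ0 : 0 < ρ := by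
    by_contra hcon
    have : (M : ℝ) * ρ ≤ 0 := mul_nonpos_of_nonneg_of_nonpos hM0.le (not_lt.1 hcon)
    linarith
  obtain ⟨S, hS⟩ : ∃ S, S = csC Φ (pN 1 Q) := ⟨_, rfl⟩
  have hS0 : 0 ≤ S := by
    rw [hS]
    exact csC_nonneg _ _
  have hMρ : 1 / (M : ℝ) ≤ ρ := by
    rw [div_le_iff₀ hM0]
    linarith
  have hlow : csC Φ Q ≤ ρ * S := by
    rw [hS, hΦ]
    exact hQ.low
  have hhigh : ∀ i, csC Φ (pN (i + 1) Q) * ρ ^ i ≤ S := by
    intro i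
    rw [hS, hΦ]
    exact hQ.high i
  have h3 : nj D M Φ 1 Q ≤ ((D : ℝ) + 1) * (ρ * S) := by
    unfold nj
    rw [one_mul]
    have h4 : ∑ i ∈ range D, (1 / (M : ℝ)) ^ (i + 1) * csC Φ (pN (i + 1) Q) ≤
        ∑ _i ∈ range D, ρ * S := by
      refine Finset.sum_le_sum fun i _ => ?_
      have h5 : (1 / (M : ℝ)) ^ (i + 1) ≤ ρ ^ (i + 1) := pow_le_pow_left₀ (by positivity) hMρ _
      have h6 := csC_nonneg Φ (pN (i + 1) Q)
      calc (1 / (M : ℝ)) ^ (i + 1) * csC Φ (pN (i + 1) Q) ≤ ρ ^ (i + 1) * csC Φ (pN (i + 1) Q) :=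
            mul_le_mul_of_nonneg_right h5 h6
        _ = ρ * (csC Φ (pN (i + 1) Q) * ρ ^ i) := by ring
        _ ≤ ρ * S := mul_le_mul_of_nonneg_left (hhigh i) hρ0.le
    rw [Finset.sum_const, Finset.card_range, nsmul_eq_mul] at h4
    linarith
  obtain ⟨X, hX⟩ : ∃ X, X = C₁ * κ * ctC r kap L ^ (2 * (r + 1)) := ⟨_, rfl⟩
  have hX0 : 0 ≤ X := by
    rw [hX]
    positivity
  rw [← hX] at h1
  have hD1 : (1 : ℝ) ≤ 2 ^ D * (D + 1) := by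
    have h1 : (1 : ℝ) ≤ 2 ^ D := one_le_pow₀ one_le_two
    have h2 : (1 : ℝ) ≤ (D : ℝ) + 1 := by
      have : (0 : ℝ) ≤ D := Nat.cast_nonneg D
      linarith
    exact one_le_mul_of_one_le_of_one_le h1 h2
  have h2D : (2 : ℝ) ^ Q.totalDegree ≤ 2 ^ D := pow_le_pow_right₀ one_le_two hQ.deg
  have hρS : 0 ≤ ρ * S := by positivity
  have hXD : 0 ≤ X ^ (D + 1) := by positivity
  rw [← hΦ, ← hS]
  calc Psi Q (κ / M) (zsw c r W sg (ptr F J ω)) ≤ 2 ^ D * (X ^ (D + 1) * (((D : ℝ) + 1) * (ρ * S))) := by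
        refine h2.trans (mul_le_mul h2D ?_ (Psi_nonneg _ _ _) (by positivity))
        exact h1.trans (mul_le_mul_of_nonneg_left h3 hXD)
    _ = X ^ (D + 1) * (2 ^ D * (D + 1)) * (ρ * S) := by ring
    _ ≤ X ^ (D + 1) * (2 ^ D * (D + 1)) ^ (D + 1) * (ρ * S) := by
        refine mul_le_mul_of_nonneg_right (mul_le_mul_of_nonneg_left ?_ hXD) hρS
        exact le_self_pow₀ hD1 (Nat.succ_ne_zero D)
    _ = (C₁ * (2 ^ D * (D + 1)) * κ * ctC r kap L ^ (2 * (r + 1))) ^ (D + 1) * (ρ * S) := by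
        rw [← mul_pow, hX]
        congr 2
        ring

/-- **Lower bound of the derivative at the points of the leaf.** -/
theorem lo_pt (r D K : ℕ) : ∃ C : ℝ, 1 ≤ C ∧ ∀ {m J : ℕ} {F : Fam m J} {c : ℕ → Fin m}
    {W sg : ℕ} {g : ℕ → ℕ} {L : ℝ} {B : F.Ω → Prop} {V : Type} {z : PtT F → V}
    {z' : LnT F → V} {P : V → ℕ → PN} {P₀ kap : ℕ}
    (Qh : V → MvPolynomial (Option (Fin (r + 1))) ℝ) {ρ : V → ℝ} {κ μ h : ℝ},
    NLabW F c r W sg g K L B z z' P → 0 ≤ L → 0 < law F.p B True → P₀ ≤ J → W ≤ P₀ → P₀ ≤ g r →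
    (∀ i < r + 1, W ≤ wid W g i + kap ∧ wid W g i ≤ P₀) → 2 * clC r kap L ≤ κ →
    (∀ ω, B ω → CsQ r D W P₀ g (P (z (ptr F J ω))) (Qh (z (ptr F J ω))) (ρ (z (ptr F J ω)))) →
    ∑ i, Real.log (ngw W P₀ g (r + 1) i) - CH (Pool.Agent.H49.Ent.cond F.p B True)
      (fun ω => ybw c r W P₀ g (P (z (ptr F J ω))) (ptr F J ω)) (fun ω => z (ptr F J ω)) ≤ μ →
    0 ≤ μ → 0 < h →
    Pe (Pool.Agent.H49.Ent.cond F.p B True) (fun ω =>
      Psi (pN 1 (Qh (z (ptr F J ω)))) (κ / ((2 ^ (P₀ - W) : ℕ) : ℝ))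
        (zsw c r W sg (ptr F J ω)) <
      Real.exp (-h) * csC (chw (r + 1) W P₀ g (P (z (ptr F J ω))))
        (pN 1 (Qh (z (ptr F J ω))))) ≤ C * (1 + μ) / h := by
  classical
  obtain ⟨C₃, hC₃, hrev⟩ := rev (r + 1) (((K + 1) ^ (r + 1 + 1) + 1) * D)
  obtain ⟨D', hD'⟩ : ∃ D' : ℕ, D' = ((K + 1) ^ (r + 1 + 1) + 1) * D := ⟨_, rfl⟩
  rw [← hD'] at hrev
  have hD'0 : (0 : ℝ) ≤ D' := Nat.cast_nonneg D'
  refine ⟨2 * (D' + 1) * (1 + C₃), by nlinarith, ?_⟩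
  intro m J F c W sg g L B V z z' P P₀ kap Qh ρ κ μ h hN hL hB hPJ hWP hgP hw hκ hQ hμ hμ0 hh
  obtain ⟨M, hM⟩ : ∃ M : ℕ, M = 2 ^ (P₀ - W) := ⟨_, rfl⟩
  have hM0 : (0 : ℝ) < M := by
    rw [hM]
    positivity
  have hcl := cleaf_w (kap := kap) hN hL hB hPJ hWP hgP hw
  rw [← hM] at hcl ⊢
  have hl := isLaw_cond F.isLaw hB
  have h1 := hrev F.Ω V (Pool.Agent.H49.Ent.cond F.p B True) (fun ω => z (ptr F J ω))
    (fun ω => ybw c r W P₀ g (P (z (ptr F J ω))) (ptr F J ω)) (fun _ => ngw W P₀ g (r + 1))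
    (fun v => MvPolynomial.bind₁ (chw (r + 1) W P₀ g (P v)) (pN 1 (Qh v))) h hl
    (fun ω hω => hcl.lt ω hω)
    (fun ω hω => by
      have h2 := (hcl.chart ω hω).deg
      have h3 := SML.totalDegree_bind_le (chw (r + 1) W P₀ g (P (z (ptr F J ω))))
        ((K + 1) ^ (r + 1 + 1) + 1) h2 (pN 1 (Qh (z (ptr F J ω))))
      refine h3.trans ?_
      rw [hD']
      exact Nat.mul_le_mul_left _ (pN_deg 1 D (hQ ω (cond_supp hω)).deg)) hh
  rw [Ex_const hl.sum_one] at h1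
  have h2 : 2 * ((D' : ℝ) + 1) * (∑ i, Real.log (ngw W P₀ g (r + 1) i) -
      CH (Pool.Agent.H49.Ent.cond F.p B True)
      (fun ω => ybw c r W P₀ g (P (z (ptr F J ω))) (ptr F J ω)) (fun ω => z (ptr F J ω)) + C₃) / h ≤
      2 * (D' + 1) * (1 + C₃) * (1 + μ) / h := by
    refine div_le_div_of_nonneg_right ?_ hh.le
    rw [mul_assoc (2 * ((D' : ℝ) + 1)) (1 + C₃)]
    refine mul_le_mul_of_nonneg_left ?_ (by positivity)
    nlinarith
  refine le_trans ?_ (h1.trans h2)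
  rw [← ms_eq]
  have h3 : Pe (Pool.Agent.H49.Ent.cond F.p B True) (fun ω =>
      Psi (pN 1 (Qh (z (ptr F J ω)))) (κ / M) (zsw c r W sg (ptr F J ω)) <
      Real.exp (-h) * csC (chw (r + 1) W P₀ g (P (z (ptr F J ω))))
        (pN 1 (Qh (z (ptr F J ω))))) = ms (Pool.Agent.H49.Ent.cond F.p B True) (fun ω =>
      Psi (pN 1 (Qh (z (ptr F J ω)))) (κ / M) (zsw c r W sg (ptr F J ω)) <
      Real.exp (-h) * csC (chw (r + 1) W P₀ g (P (z (ptr F J ω))))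
        (pN 1 (Qh (z (ptr F J ω))))) := by
    rw [Pe_eq, ms_eq]
  rw [h3]
  refine ms_le hl.nonneg fun ω hω hlt => ?_
  obtain ⟨Φ, hΦ⟩ : ∃ Φ, Φ = chw (r + 1) W P₀ g (P (z (ptr F J ω))) := ⟨_, rfl⟩
  rw [← hΦ] at hlt ⊢
  have hpos : 0 < csC Φ (pN 1 (Qh (z (ptr F J ω)))) := by
    rw [hΦ]
    exact (hQ ω (cond_supp hω)).pos
  refine ⟨hpos, fun u hu => ?_⟩
  have hY := hcl.lt ω hω
  have hum := gcell_sub hY hu
  have hg := gpos_mem hY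
  rw [Pool.M3F.eval_bind]
  refine le_trans ?_ hlt.le
  refine abs_eval_le_Psi_of_near _ _ ?_ _ _ fun o => ?_
  · have := clC_ge (r := r) (kap := kap) hL
    have : 0 ≤ κ := by linarith
    positivity
  · obtain ⟨yb, hyb⟩ : ∃ yb, yb = ybw c r W P₀ g (P (z (ptr F J ω))) (ptr F J ω) := ⟨_, rfl⟩
    have hst : ∀ i, |u i - gpos (ngw W P₀ g (r + 1)) yb i| ≤ 1 / ngw W P₀ g (r + 1) i := by
      intro i
      obtain ⟨h3, h4⟩ := hu i
      rw [← hyb] at h3 h4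
      have h5 : ((yb i : ℝ) + 1) / ngw W P₀ g (r + 1) i = (yb i : ℝ) / ngw W P₀ g (r + 1) i +
          1 / ngw W P₀ g (r + 1) i := by ring
      have h6 : gpos (ngw W P₀ g (r + 1)) yb i = (yb i : ℝ) / ngw W P₀ g (r + 1) i := rfl
      rw [h6, abs_of_nonneg (by linarith)]
      linarith
    have h4 : |cpt Φ u o - cpt Φ (gpos (ngw W P₀ g (r + 1)) yb) o| ≤ clC r kap L / M := by
      rw [hΦ, hyb]
      exact (hcl.chart ω hω).step u hum _ hg (by rw [hyb] at hst; exact hst) o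
    have h5 : |zsw c r W sg (ptr F J ω) o - cpt Φ (gpos (ngw W P₀ g (r + 1)) yb) o| ≤
        clC r kap L / M := by
      rw [hΦ, hyb]
      exact hcl.near ω hω o
    have h6 := abs_sub_le (cpt Φ u o) (cpt Φ (gpos (ngw W P₀ g (r + 1)) yb) o)
      (zsw c r W sg (ptr F J ω) o)
    rw [abs_sub_comm (cpt Φ (gpos (ngw W P₀ g (r + 1)) yb) o)] at h6
    refine h6.trans ((add_le_add h4 h5).trans ?_)
    rw [← add_div]
    exact div_le_div_of_nonneg_right (by linarith) hM0.le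

/-- **Upper bound on the whole line.** -/
theorem up_pair (σ : Type) [Fintype σ] (D : ℕ) : ∃ K : ℝ, 1 ≤ K ∧
    ∀ {Ω Λ₀ Λ₁ : Type} [Fintype Ω] {p : Ω → ℝ} {lam₀ : Ω → Λ₀} {lam₁ : Ω → Λ₁} {T : Ω → ℕ}
      {z : Ω → σ → ℝ} {A₀ B₀ : Λ₀ → σ → ℝ} {M₀ M₁ : ℕ} {R R₀ h₀ s₀ e₁ : ℝ},
      IsLaw p → 1 ≤ R → R ≤ M₁ → (M₀ : ℝ) ≤ R₀ * M₁ → 0 ≤ R₀ → 0 < h₀ → h₀ ≤ s₀ →
      (∀ ω, 0 < p ω → T ω < M₀) →
      (∀ ω ω', 0 < p ω → 0 < p ω' → lam₁ ω = lam₁ ω' → lam₀ ω = lam₀ ω') →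
      (∀ ω, 0 < p ω → ∀ i, |z ω i - (A₀ (lam₀ ω) i + (T ω : ℝ) * B₀ (lam₀ ω) i)| ≤ h₀) →
      Real.log M₁ - CH p (fun ω => T ω % M₁) lam₁ ≤ e₁ →
      ∃ Bd : Ω → Prop, Pe p Bd * (Real.log R - Real.log (2 * (D + 1))) ≤ e₁ + Real.log 2 ∧
        ∀ ω, 0 < p ω → ¬ Bd ω → ∀ Q : MvPolynomial σ ℝ, Q.totalDegree ≤ D → ∀ mm : ℝ,
          (∀ ω', 0 < p ω' → lam₁ ω' = lam₁ ω → Psi Q s₀ (z ω') ≤ mm) →
          ∀ t < M₀, ∀ y : σ → ℝ, (∀ i, |y i - (A₀ (lam₀ ω) i + (t : ℝ) * B₀ (lam₀ ω) i)| ≤ h₀) →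
            Psi Q s₀ y ≤ K * (R₀ * R) ^ D * mm := by
  classical
  obtain ⟨K, hK, H⟩ := psi_line σ D
  have hp2 : (1 : ℝ) ≤ 2 ^ D := one_le_pow₀ one_le_two
  refine ⟨2 ^ D * K * 2 ^ D, one_le_mul_of_one_le_of_one_le
    (one_le_mul_of_one_le_of_one_le hp2 hK) hp2, ?_⟩
  intro Ω Λ₀ Λ₁ _ p lam₀ lam₁ T z A₀ B₀ M₀ M₁ R R₀ h₀ s₀ e₁ hp hR hRM hM₀ hR₀ hh₀ hhs hT hlam hz he
  have hp0 := hp.nonneg
  have hR0 : 0 < R := by linarith
  have hs₀ : 0 < s₀ := hh₀.trans_le hhs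
  have hM0 : (0 : ℝ) < M₁ := by linarith
  have hM0' : 0 < M₁ := by exact_mod_cast hM0
  obtain ⟨s, hs⟩ : ∃ s, s = ⌈(M₁ : ℝ) / R⌉₊ := ⟨_, rfl⟩
  have hs1 : 1 ≤ s := by
    rw [hs]
    exact Nat.ceil_pos.2 (by positivity)
  have hsR : (M₁ : ℝ) ≤ R * s := by
    have := Nat.le_ceil ((M₁ : ℝ) / R)
    rw [← hs, div_le_iff₀ hR0] at this
    linarith
  obtain ⟨U, hU⟩ : ∃ U : Λ₁ → Finset Ω, U = fun l =>
    Finset.univ.filter fun ω => 0 < p ω ∧ lam₁ ω = l := ⟨_, rfl⟩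
  obtain ⟨S₁, hS₁⟩ : ∃ S : Λ₁ → Finset ℕ, S = fun l => (U l).image fun ω => T ω % M₁ := ⟨_, rfl⟩
  obtain ⟨S₀, hS₀⟩ : ∃ S : Λ₁ → Finset ℕ, S = fun l => (U l).image T := ⟨_, rfl⟩
  have hcard : ∀ l, (S₁ l).card ≤ (S₀ l).card := by
    intro l
    have h1 : S₁ l = (S₀ l).image fun n => n % M₁ := by
      rw [hS₁, hS₀]
      simp only
      rw [Finset.image_image]
      rfl
    rw [h1]
    exact Finset.card_image_le
  refine ⟨fun ω => (S₁ (lam₁ ω)).card ≤ s * (D + 1), ?_, ?_⟩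
  · have h1 := few_ev hp (fun ω => T ω % M₁) (M := M₁) (n := s * (D + 1)) lam₁
      (fun ω => (S₁ (lam₁ ω)).card ≤ s * (D + 1)) S₁
      (fun ω _ => Nat.mod_lt _ hM0') (by
        intro ω hω hb
        refine ⟨?_, hb⟩
        rw [hS₁]
        simp only
        refine Finset.mem_image.2 ⟨ω, ?_, rfl⟩
        rw [hU]
        exact Finset.mem_filter.2 ⟨Finset.mem_univ _, hω, rfl⟩) he
    have h2 := log_few hR hRM D
    rw [← hs] at h2
    refine le_trans ?_ h1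
    exact mul_le_mul_of_nonneg_left h2 (Pe_nonneg hp _)
  · intro ω hω hb Q hQ mm hmm t ht y hy
    have hb' : ¬ (S₁ (lam₁ ω)).card ≤ s * (D + 1) := hb
    have h2D : (2 : ℝ) ^ Q.totalDegree ≤ 2 ^ D := pow_le_pow_right₀ one_le_two hQ
    have hmm0 : 0 ≤ mm := (Psi_nonneg _ _ _).trans (hmm ω hω rfl)
    have h1 := H Q s₀ (A₀ (lam₀ ω)) (B₀ (lam₀ ω)) (S₀ (lam₁ ω)) s t (R₀ * R) (2 ^ D * mm) hQ hs1
      (by
        have h2 := hcard (lam₁ ω)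
        have h3 : s * D ≤ s * (D + 1) := Nat.mul_le_mul_left s (Nat.le_succ D)
        omega) (by
        intro e he'
        rw [hS₀] at he'
        simp only at he'
        obtain ⟨ω', hω', rfl⟩ := Finset.mem_image.1 he'
        rw [hU] at hω'
        have hω'p := (Finset.mem_filter.1 hω').2
        have h4 : ((T ω' : ℕ) : ℝ) < M₀ := by exact_mod_cast hT ω' hω'p.1
        have h5 : (t : ℝ) < M₀ := by exact_mod_cast ht
        have h6 : (0 : ℝ) ≤ T ω' := Nat.cast_nonneg _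
        have h7 : (0 : ℝ) ≤ t := Nat.cast_nonneg _
        have h8 : (M₀ : ℝ) ≤ R₀ * R * s := by
          refine hM₀.trans ?_
          rw [mul_assoc]
          exact mul_le_mul_of_nonneg_left hsR hR₀
        rw [abs_le]
        constructor <;> linarith) (by
        intro e he'
        rw [hS₀] at he'
        simp only at he'
        obtain ⟨ω', hω', rfl⟩ := Finset.mem_image.1 he'
        rw [hU] at hω'
        have hω'p := (Finset.mem_filter.1 hω').2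
        have h2 := hz ω' hω'p.1
        have h3 := hlam ω' ω hω'p.1 hω hω'p.2
        rw [h3] at h2
        have h4 := Psi_le_of_near Q s₀ hs₀.le (z ω')
          (fun i => A₀ (lam₀ ω) i + (T ω' : ℝ) * B₀ (lam₀ ω) i) (fun i => by
            rw [abs_sub_comm]
            exact (h2 i).trans hhs)
        exact h4.trans (mul_le_mul h2D (hmm ω' hω'p.1 hω'p.2) (Psi_nonneg _ _ _)
          (by positivity))) (by positivity)
    have h2 := Psi_le_of_near Q s₀ hs₀.le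
      (fun i => A₀ (lam₀ ω) i + (t : ℝ) * B₀ (lam₀ ω) i) y (fun i => (hy i).trans hhs)
    calc Psi Q s₀ y ≤ 2 ^ D * (K * (R₀ * R) ^ D * (2 ^ D * mm)) :=
          h2.trans (mul_le_mul h2D h1 (Psi_nonneg _ _ _) (by positivity))
      _ = 2 ^ D * K * 2 ^ D * (R₀ * R) ^ D * mm := by ring

end Pool.NJ34
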