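import Pool.Agent.H34.NJ.Few
import Pool.Agent.H34.NJ.Ent
import Pool.Agent.H73.NJ.Cnt

/-!
# The last coordinate of the first sample is few bits, given its other coordinates
-/

set_option autoImplicit false

namespace Pool.NJ34

open Finset Real MvPolynomial
open Pool.Agent.H49.Ent Pool.Agent.H32.Dense Pool.STK Pool.KAF Pool.KAL Pool.KS3 Pool.M3F
open Pool.KJA Pool.KA Pool.K2S Pool.KSAT Pool.PB Pool.STAT Pool.GEN Pool.IEN Pool.CLO37
open Pool.KM7 Pool.S6C Pool.JPN Pool.GEO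

theorem pe_ms {Ω : Type} [Fintype Ω] (p : Ω → ℝ) (A : Ω → Prop) : Pe p A = ms p A := by
  classical
  rw [Pe_eq, ms_eq]

/-- The mass of a part of a part. -/
theorem pe_part {Ω : Type} [Fintype Ω] {p : Ω → ℝ} {A B : Ω → Prop} (hBA : Sub B A)
    (hB : 0 < Pe p B) (E : Ω → Prop) :
    Pe (Pool.Agent.H49.Ent.cond p A True) (fun ω => B ω ∧ E ω) =
      Pe (Pool.Agent.H49.Ent.cond p A True) B * Pe (Pool.Agent.H49.Ent.cond p B True) E := by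
  rw [Pe_cond, Pe_cond, Pe_cond]
  have h1 : (fun ω => A ω ∧ B ω ∧ E ω) = fun ω => B ω ∧ E ω := by
    funext ω
    exact propext ⟨fun h => h.2, fun h => ⟨hBA ω h.1, h⟩⟩
  have h2 : (fun ω => A ω ∧ B ω) = B := by
    funext ω
    exact propext ⟨fun h => h.2, fun h => ⟨hBA ω h, h⟩⟩
  rw [h1, h2]
  field_simp

/-- The equation `Q` is small at `x` and its derivative is not. -/
def Gpt (r D : ℕ) (C h R₀ X ρ S s : ℝ) (Q : MvPolynomial (Option (Fin (r + 1))) ℝ)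
    (x : Option (Fin (r + 1)) → ℝ) : Prop :=
  Psi Q s x ≤ C * (R₀ * Real.exp h) ^ D * (X * (ρ * S)) ∧
    S ≤ C * Real.exp h ^ (D + 1) * Psi (pN 1 Q) s x

/-- **The equation of the second sample at the point of the first one.** -/
theorem few_law (r D K : ℕ) : ∃ C : ℝ, 1 ≤ C ∧ ∀ {m J : ℕ} {F : Fam m J} {c : ℕ → Fin m}
    {W0 W1 sg : ℕ} {g : ℕ → ℕ} {L : ℝ} {A B : F.Ω → Prop} {V : Type} {z : PtT F → V}
    {z' : LnT F → V} {P : V → ℕ → PN} {P₀ kap : ℕ}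
    (Qh : V → MvPolynomial (Option (Fin (r + 1))) ℝ) (ρ : V → ℝ) {h X μ δ₁ δ₂ : ℝ},
    Sub B A → 0 < Pe F.p A → 0 < Pe F.p B →
    NLabW F c r W1 sg g K L B z z' P → 0 ≤ L → W0 ≤ W1 → W1 ≤ P₀ →
    P₀ ≤ J → P₀ ≤ g r → (∀ i < r + 1, W1 ≤ wid W1 g i + kap ∧ wid W1 g i ≤ P₀) →
    (∀ ω, B ω → CsQ r D W1 P₀ g (P (z (ptr F J ω))) (Qh (z (ptr F J ω))) (ρ (z (ptr F J ω)))) →
    (∀ ω, B ω → 1 ≤ ((2 ^ (P₀ - W1) : ℕ) : ℝ) * ρ (z (ptr F J ω))) →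
    ∑ i, Real.log (ngw W1 P₀ g (r + 1) i) - CH (Pool.Agent.H49.Ent.cond F.p B True)
      (fun ω => ybw c r W1 P₀ g (P (z (ptr F J ω))) (ptr F J ω)) (fun ω => z (ptr F J ω)) ≤ μ →
    0 ≤ μ →
    Real.log ((2 ^ (P₀ - W1) : ℕ) : ℝ) - CH (Pool.Agent.H49.Ent.cond F.p B True)
      (fun ω => tdg W1 P₀ (ptr F J ω)) (slam F W1) ≤ δ₁ →
    Real.log ((2 ^ (P₀ - W0) : ℕ) : ℝ) - CH (Pool.Agent.H49.Ent.cond F.p A True)
      (fun ω => tdg W0 P₀ (ptr F J ω)) (slam F W0) ≤ δ₂ →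
    0 ≤ δ₁ → 0 ≤ δ₂ → C ≤ h → Real.exp h ≤ ((2 ^ (P₀ - W1) : ℕ) : ℝ) →
    (C * (2 * clC r kap L) * ctC r kap L ^ (2 * (r + 1))) ^ (D + 1) ≤ X →
    Pe (P2 (Pool.Agent.H49.Ent.cond F.p A True) (slam F W0)) (fun e => B e.2 ∧
      ¬ Gpt r D C h (2 ^ (W1 - W0)) X (ρ (z (ptr F J e.2)))
        (csC (chw (r + 1) W1 P₀ g (P (z (ptr F J e.2)))) (pN 1 (Qh (z (ptr F J e.2)))))
        (2 * clC r kap L / ((2 ^ (P₀ - W1) : ℕ) : ℝ)) (Qh (z (ptr F J e.2)))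
        (zsw c r W1 sg (ptr F J e.1))) ≤
      Pe (Pool.Agent.H49.Ent.cond F.p A True) B * (C * (1 + μ + δ₁) / h) +
        C * (1 + δ₂) / h := by
  classical
  obtain ⟨C₁, hC₁, hup⟩ := up_pt r D K
  obtain ⟨C₂, hC₂, hlo⟩ := lo_pt r D K
  obtain ⟨K₃, hK₃, hup2⟩ := up_pair (Option (Fin (r + 1))) D
  obtain ⟨K₄, hK₄, hlo2⟩ := low_pair (Option (Fin (r + 1))) D
  obtain ⟨ℓ, hℓ⟩ : ∃ ℓ : ℝ, ℓ = Real.log (2 * (D + 1)) := ⟨_, rfl⟩
  have hD0 : (0 : ℝ) ≤ D := Nat.cast_nonneg D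
  have hℓ0 : 0 ≤ ℓ := by
    rw [hℓ]
    exact Real.log_nonneg (by linarith)
  obtain ⟨C, hC⟩ : ∃ C : ℝ, C = C₁ + C₂ + K₃ + K₄ + 2 * ℓ + 2 := ⟨_, rfl⟩
  refine ⟨C, by rw [hC]; linarith, ?_⟩
  intro m J F c W0 W1 sg g L A B V z z' P P₀ kap Qh ρ h X μ δ₁ δ₂ hBA hA hB hN hL hW hWP hPJ hgP
    hwd hQ hρ hμ hμ0 hδ₁ hδ₂ hδ₁0 hδ₂0 hCh hhM hX
  have hC1 : C₁ ≤ C := by rw [hC]; linarith
  have hC2 : C₂ ≤ C := by rw [hC]; linarith
  have hC3 : K₃ ≤ C := by rw [hC]; linarith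
  have hC4 : K₄ ≤ C := by rw [hC]; linarith
  have hCℓ : 2 * ℓ ≤ C := by rw [hC]; linarith
  have hCc2 : 2 + C₂ ≤ C := by rw [hC]; linarith
  have hCp : 1 ≤ C := by linarith
  have hh : 0 < h := by linarith
  have hl2 : 0 < Real.log 2 := Real.log_pos one_lt_two
  have hl2' : Real.log 2 ≤ 1 := by
    have := Real.log_two_lt_d9
    linarith
  obtain ⟨M₁, hM₁⟩ : ∃ M₁ : ℕ, M₁ = 2 ^ (P₀ - W1) := ⟨_, rfl⟩
  obtain ⟨M₀, hM₀⟩ : ∃ M₀ : ℕ, M₀ = 2 ^ (P₀ - W0) := ⟨_, rfl⟩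
  have hM₁0 : (0 : ℝ) < M₁ := by
    rw [hM₁]
    positivity
  have hMM : (M₀ : ℝ) = 2 ^ (W1 - W0) * M₁ := by
    rw [hM₀, hM₁]
    push_cast
    rw [← pow_add]
    congr 1
    omega
  have hR₀ : (1 : ℝ) ≤ 2 ^ (W1 - W0) := one_le_pow₀ one_le_two
  have hMM' : (M₁ : ℝ) ≤ M₀ := by
    rw [hMM]
    nlinarith
  have hct := ctC_ge (r := r) (kap := kap) hL
  have hcl2 := clC_ge (r := r) (kap := kap) hL
  obtain ⟨κ, hκ⟩ : ∃ κ : ℝ, κ = 2 * clC r kap L := ⟨_, rfl⟩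
  have hκ4 : 4 ≤ κ := by
    rw [hκ]
    linarith
  obtain ⟨pA, hpA⟩ : ∃ q, q = Pool.Agent.H49.Ent.cond F.p A True := ⟨_, rfl⟩
  obtain ⟨pB, hpB⟩ : ∃ q, q = Pool.Agent.H49.Ent.cond F.p B True := ⟨_, rfl⟩
  have hlA : IsLaw pA := by
    rw [hpA]
    exact isLaw_cond F.isLaw hA
  have hlB : IsLaw pB := by
    rw [hpB]
    exact isLaw_cond F.isLaw hB
  have hBs : ∀ ω, 0 < pB ω → B ω := by
    intro ω hω
    rw [hpB] at hω
    exact cond_supp hω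
  have hX0 : 0 ≤ X := le_trans (by rw [← hκ]; positivity) hX
  -- the numbers
  obtain ⟨s₀, hs₀⟩ : ∃ s₀ : ℝ, s₀ = κ / M₁ := ⟨_, rfl⟩
  have hs₀0 : 0 < s₀ := by
    rw [hs₀]
    positivity
  have h2s : 2 / (M₁ : ℝ) ≤ s₀ := by
    rw [hs₀]
    exact div_le_div_of_nonneg_right (by linarith) hM₁0.le
  have heh : 1 ≤ Real.exp h := Real.one_le_exp hh.le
  have hlogR : h / 2 ≤ Real.log (Real.exp h) - Real.log (2 * (D + 1)) := by
    rw [Real.log_exp, ← hℓ]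
    linarith
  -- the first exceptional set
  have hE1 := hlo Qh (κ := κ) (μ := μ) (h := h) hN hL hB hPJ hWP hgP hwd (by rw [hκ]) hQ
    hμ hμ0 hh
  rw [← hpB, ← hM₁, ← hs₀] at hE1
  -- the second one
  have hnear : ∀ (ω : F.Ω) (o : Option (Fin (r + 1))), |zsw c r W1 sg (ptr F J ω) o -
      (avp c r W0 W1 sg (slam F W0 ω) o + (tdg W0 P₀ (ptr F J ω) : ℝ) *
        (bvw c r sg (slam F W0 ω) o / M₁))| ≤ 2 / (M₁ : ℝ) := by
    intro ω o
    have h1 := near_p (F := F) c r W0 W1 P₀ sg hW hWP hPJ ω o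
    rw [← hM₁] at h1
    have e1 : (tdg W0 P₀ (ptr F J ω) : ℝ) * (bvw c r sg (slam F W0 ω) o / M₁) =
        (tdg W0 P₀ (ptr F J ω) : ℝ) / M₁ * bvw c r sg (slam F W0 ω) o := by ring
    rw [e1]
    exact h1
  obtain ⟨Bd, hBd, hup3⟩ := hup2 (p := pB) (lam₀ := slam F W0) (lam₁ := slam F W1)
    (T := fun ω => tdg W0 P₀ (ptr F J ω)) (z := fun ω => zsw c r W1 sg (ptr F J ω))
    (A₀ := fun l => avp c r W0 W1 sg l) (B₀ := fun l o => bvw c r sg l o / M₁) (M₀ := M₀)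
    (M₁ := M₁) (R := Real.exp h) (R₀ := 2 ^ (W1 - W0)) (h₀ := 2 / (M₁ : ℝ)) (s₀ := s₀) (e₁ := δ₁)
    hlB heh (by rw [hM₁]; exact hhM) hMM.le (by positivity) (by positivity) h2s
    (fun ω _ => by
      rw [hM₀]
      exact Nat.mod_lt _ (by positivity))
    (fun ω ω' _ _ h1 => slam_of hW (hWP.trans hPJ) h1)
    (fun ω _ o => hnear ω o) (by
      have e1 : (fun ω => tdg W0 P₀ (ptr F J ω) % M₁) = fun ω => tdg W1 P₀ (ptr F J ω) := by
        funext ω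
        rw [hM₁]
        exact (tdg_mod W0 W1 P₀ hW hWP (ptr F J ω)).symm
      rw [e1, hM₁, hpB]
      exact hδ₁)
  have hE2 : Pe pB Bd ≤ 2 * (1 + δ₁) / h := by
    have h1 := Pe_nonneg hlB Bd
    have h2 : Pe pB Bd * (h / 2) ≤ δ₁ + Real.log 2 :=
      (mul_le_mul_of_nonneg_left hlogR h1).trans hBd
    rw [le_div_iff₀ hh]
    linarith
  -- the third one
  have hE3 := hlo2 (p := pA) (lam₀ := slam F W0) (x := ptr F J) (T₀ := tdg W0 P₀)
    (z := zsw c r W1 sg) (A₀ := fun l => avp c r W0 W1 sg l)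
    (B₀ := fun l o => bvw c r sg l o / M₁) (M := M₀) (R := Real.exp h) (h₀ := 2 / (M₁ : ℝ))
    (s₀ := s₀) (e₀ := δ₂)
    (fun ξ => if (Qh (z ξ)).totalDegree ≤ D then pN 1 (Qh (z ξ)) else 0)
    hlA heh (by
      refine le_trans ?_ hMM'
      rw [hM₁]
      exact hhM) (by positivity) h2s (fun ω _ => by
      rw [hM₀]
      exact Nat.mod_lt _ (by positivity)) (fun ω _ o => hnear ω o) (by
      rw [hM₀, hpA]
      exact hδ₂) (by
      intro ξ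
      split_ifs with h1
      · exact pN_deg 1 D h1
      · simp)
  rw [cp_eq] at hE3
  obtain ⟨E3, hE3d⟩ : ∃ E3 : F.Ω × F.Ω → Prop, E3 = fun v => K₄ * Real.exp h ^ D *
    Psi ((fun ξ => if (Qh (z ξ)).totalDegree ≤ D then pN 1 (Qh (z ξ)) else 0) (ptr F J v.2)) s₀
      (zsw c r W1 sg (ptr F J v.1)) <
    Psi ((fun ξ => if (Qh (z ξ)).totalDegree ≤ D then pN 1 (Qh (z ξ)) else 0) (ptr F J v.2)) s₀
      (zsw c r W1 sg (ptr F J v.2)) := ⟨_, rfl⟩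
  rw [← hE3d] at hE3
  have hlP := P2_isLaw hlA (slam F W0)
  have hE3' : Pe (P2 pA (slam F W0)) E3 ≤ C * (1 + δ₂) / h := by
    have h1 := Pe_nonneg hlP E3
    have h2 : Pe (P2 pA (slam F W0)) E3 * (h / 2) ≤ δ₂ + Real.log 2 :=
      (mul_le_mul_of_nonneg_left hlogR h1).trans hE3
    rw [le_div_iff₀ hh]
    have h4 : 2 * (1 + δ₂) ≤ C * (1 + δ₂) := mul_le_mul_of_nonneg_right (by linarith) (by linarith)
    linarith
  -- the sum
  obtain ⟨E1, hE1d⟩ : ∃ E1 : F.Ω → Prop, E1 = fun ω =>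
      Psi (pN 1 (Qh (z (ptr F J ω)))) s₀ (zsw c r W1 sg (ptr F J ω)) <
      Real.exp (-h) * csC (chw (r + 1) W1 P₀ g (P (z (ptr F J ω))))
        (pN 1 (Qh (z (ptr F J ω)))) := ⟨_, rfl⟩
  rw [← hE1d] at hE1
  have hsub : ∀ e, 0 < P2 pA (slam F W0) e → (B e.2 ∧
      ¬ Gpt r D C h (2 ^ (W1 - W0)) X (ρ (z (ptr F J e.2)))
        (csC (chw (r + 1) W1 P₀ g (P (z (ptr F J e.2)))) (pN 1 (Qh (z (ptr F J e.2)))))
        (2 * clC r kap L / ((2 ^ (P₀ - W1) : ℕ) : ℝ)) (Qh (z (ptr F J e.2)))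
        (zsw c r W1 sg (ptr F J e.1))) → (B e.2 ∧ (E1 e.2 ∨ Bd e.2)) ∨ E3 e := by
    rintro e he ⟨hBe, hG⟩
    by_contra hcon
    push Not at hcon
    obtain ⟨hcon1, hcon3⟩ := hcon
    obtain ⟨hn1, hn2⟩ := hcon1 hBe
    refine hG ?_
    have hpos := (P2_pos hlA e).1 he
    have hpB2 : 0 < pB e.2 := by
      have h1 := hpos.2.1
      rw [hpA] at h1
      rw [hpB]
      unfold Pool.Agent.H49.Ent.cond at h1 ⊢
      rw [if_pos (eq_true hBe)]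
      rw [if_pos (eq_true (hBA _ hBe))] at h1
      have h2 : 0 < F.p e.2 := by
        by_contra h3
        have h4 : F.p e.2 = 0 := le_antisymm (not_lt.1 h3) (F.isLaw.nonneg _)
        rw [h4, zero_div] at h1
        exact lt_irrefl _ h1
      exact div_pos h2 hB
    obtain ⟨v, hv⟩ : ∃ v, v = z (ptr F J e.2) := ⟨_, rfl⟩
    obtain ⟨S, hS⟩ : ∃ S, S = csC (chw (r + 1) W1 P₀ g (P v)) (pN 1 (Qh v)) := ⟨_, rfl⟩
    have hQ2 := hQ _ hBe
    have hρ2 := hρ _ hBe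
    rw [← hv] at hQ2 hρ2
    have hS0 : 0 < S := by
      rw [hS]
      exact hQ2.pos
    rw [← hv, ← hM₁, ← hκ, ← hs₀, ← hS]
    refine ⟨?_, ?_⟩
    · have h1 := hup3 e.2 hpB2 hn2 (Qh v) hQ2.deg (X * (ρ v * S)) (by
        intro ω' hω' h2
        have h3 := hN.cls ω' (hBs ω' hω')
        have h4 := hN.cls e.2 hBe
        have h5 : z (ptr F J ω') = v := by
          rw [h3, h2, ← h4, hv]
        have h6 := hup (Q := Qh v) (ρ := ρ v) (κ := κ) hN hL hB hPJ hWP hgP hwd (by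
          rw [hκ]
          linarith) ω' (by rw [← hpB]; exact hω') (by rw [h5]; exact hQ2) hρ2
        rw [h5, ← hM₁, ← hs₀, ← hS] at h6
        have hρ0 : 0 ≤ ρ v := by
          by_contra h7
          have h8 : ((2 ^ (P₀ - W1) : ℕ) : ℝ) * ρ v ≤ 0 :=
            mul_nonpos_of_nonneg_of_nonpos (by positivity) (not_le.1 h7).le
          linarith
        refine h6.trans (mul_le_mul_of_nonneg_right ?_ (by positivity))
        refine le_trans (pow_le_pow_left₀ (by positivity) ?_ _) hX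
        rw [← hκ]
        exact mul_le_mul_of_nonneg_right (mul_le_mul_of_nonneg_right hC1 (by linarith))
          (by positivity)) (tdg W0 P₀ (ptr F J e.1)) (by
        rw [hM₀]
        exact Nat.mod_lt _ (by positivity)) (zsw c r W1 sg (ptr F J e.1)) (by
        intro o
        rw [← hpos.2.2]
        exact hnear e.1 o)
      have hρ0 : 0 ≤ ρ v := by
        by_contra h7
        have h8 : ((2 ^ (P₀ - W1) : ℕ) : ℝ) * ρ v ≤ 0 :=
          mul_nonpos_of_nonneg_of_nonpos (by positivity) (not_le.1 h7).le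
        linarith
      refine h1.trans ?_
      refine mul_le_mul_of_nonneg_right (mul_le_mul_of_nonneg_right hC3 (by positivity)) ?_
      positivity
    · have h1 : ¬ (Psi (pN 1 (Qh v)) s₀ (zsw c r W1 sg (ptr F J e.2)) < Real.exp (-h) * S) := by
        intro h2
        refine hn1 ?_
        rw [hE1d]
        rw [hS, hv] at h2
        exact h2
      have h2 : ¬ (K₄ * Real.exp h ^ D * Psi (pN 1 (Qh v)) s₀ (zsw c r W1 sg (ptr F J e.1)) <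
          Psi (pN 1 (Qh v)) s₀ (zsw c r W1 sg (ptr F J e.2))) := by
        intro h3
        refine hcon3 ?_
        rw [hE3d]
        have h4 : (Qh (z (ptr F J e.2))).totalDegree ≤ D := by
          rw [← hv]
          exact hQ2.deg
        simp only [h4, if_true]
        rw [hv] at h3
        exact h3
      have h3 := (not_lt.1 h1).trans (not_lt.1 h2)
      have h4 : S = Real.exp h * (Real.exp (-h) * S) := by
        rw [← mul_assoc, ← Real.exp_add, add_neg_cancel, Real.exp_zero, one_mul]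
      rw [h4]
      calc Real.exp h * (Real.exp (-h) * S) ≤ Real.exp h * (K₄ * Real.exp h ^ D *
            Psi (pN 1 (Qh v)) s₀ (zsw c r W1 sg (ptr F J e.1))) :=
            mul_le_mul_of_nonneg_left h3 (Real.exp_pos h).le
        _ = K₄ * Real.exp h ^ (D + 1) * Psi (pN 1 (Qh v)) s₀ (zsw c r W1 sg (ptr F J e.1)) := by
            ring
        _ ≤ C * Real.exp h ^ (D + 1) * Psi (pN 1 (Qh v)) s₀ (zsw c r W1 sg (ptr F J e.1)) :=
            mul_le_mul_of_nonneg_right (mul_le_mul_of_nonneg_right hC4 (by positivity))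
              (Psi_nonneg _ _ _)
  have hfin : Pe (P2 pA (slam F W0)) (fun e => B e.2 ∧
      ¬ Gpt r D C h (2 ^ (W1 - W0)) X (ρ (z (ptr F J e.2)))
        (csC (chw (r + 1) W1 P₀ g (P (z (ptr F J e.2)))) (pN 1 (Qh (z (ptr F J e.2)))))
        (2 * clC r kap L / ((2 ^ (P₀ - W1) : ℕ) : ℝ)) (Qh (z (ptr F J e.2)))
        (zsw c r W1 sg (ptr F J e.1))) ≤
      Pe (P2 pA (slam F W0)) (fun e => B e.2 ∧ (E1 e.2 ∨ Bd e.2)) + Pe (P2 pA (slam F W0)) E3 := by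
    rw [pe_ms, pe_ms, pe_ms]
    exact (ms_le hlP.nonneg hsub).trans (ms_or hlP.nonneg _ _)
  have hm1 : Pe (P2 pA (slam F W0)) (fun e => B e.2 ∧ (E1 e.2 ∨ Bd e.2)) =
      Pe pA B * Pe pB (fun ω => E1 ω ∨ Bd ω) := by
    have h1 := (P2_snd hlA (slam F W0)).law_eq (fun ω => B ω ∧ (E1 ω ∨ Bd ω)) True
    refine h1.trans ?_
    rw [hpA, hpB]
    exact pe_part hBA hB _
  have hm2 : Pe pB (fun ω => E1 ω ∨ Bd ω) ≤ C * (1 + μ + δ₁) / h := by
    have h1 : Pe pB (fun ω => E1 ω ∨ Bd ω) ≤ Pe pB E1 + Pe pB Bd := by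
      rw [pe_ms, pe_ms, pe_ms]
      exact ms_or hlB.nonneg _ _
    refine (h1.trans (add_le_add hE1 hE2)).trans ?_
    rw [← add_div]
    refine div_le_div_of_nonneg_right ?_ hh.le
    have h5 : (2 + C₂) * (1 + μ + δ₁) ≤ C * (1 + μ + δ₁) :=
      mul_le_mul_of_nonneg_right hCc2 (by linarith)
    nlinarith
  rw [← hpA]
  refine hfin.trans (add_le_add ?_ hE3')
  rw [hm1]
  exact mul_le_mul_of_nonneg_left hm2 (Pe_nonneg hlA B)

end Pool.NJ34
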