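import Pool.Agent.H34.NJ.Few2

/-!
# The last coordinate of the first sample, given the label of the second one: the entropy
-/

set_option autoImplicit false

namespace Pool.NJ34

open Finset Real MvPolynomial
open Pool.Agent.H49.Ent Pool.Agent.H32.Dense Pool.STK Pool.KAF Pool.KAL Pool.KS3 Pool.M3F
open Pool.KJA Pool.KA Pool.K2S Pool.KSAT Pool.PB Pool.STAT Pool.GEN Pool.IEN Pool.CLO37
open Pool.KM7 Pool.S6C Pool.JPN Pool.GEO
open Pool.TWO (floor_two floor_same)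

/-- Few values on the good part of every fibre. -/
theorem ch_two {V G : Type} [Fintype V] {r : V → ℝ} (hr : IsLaw r) (X : V → ℤ) (c : V → G)
    (Gd : V → Prop) {a b : ℝ} (ha : 0 ≤ a)
    (h1 : ∀ v, 0 < r v → Gd v → ∀ S : Finset ℤ,
      (∀ n ∈ S, ∃ v', 0 < r v' ∧ Gd v' ∧ c v' = c v ∧ X v' = n) → (S.card : ℝ) ≤ Real.exp a)
    (h2 : ∀ v, 0 < r v → ∀ S : Finset ℤ,
      (∀ n ∈ S, ∃ v', 0 < r v' ∧ c v' = c v ∧ X v' = n) → (S.card : ℝ) ≤ Real.exp b) :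
    CH r X c ≤ Real.log 2 + a + Pe r (fun v => ¬ Gd v) * b := by
  classical
  have hr0 := hr.nonneg
  obtain ⟨bb, hbb⟩ : ∃ bb : V → Bool, bb = fun v => decide (Gd v) := ⟨_, rfl⟩
  have e1 := CH_le_add hr0 X bb c
  have e2 : CH r bb c ≤ Real.log 2 := by
    have h3 := CH_le_card hr0 hr.sum_one bb c (fun _ => (Finset.univ : Finset Bool))
      (fun _ _ => Finset.mem_univ _)
    rw [Ex_const hr.sum_one] at h3
    simpa using h3
  obtain ⟨S, hS⟩ : ∃ S : Bool × G → Finset ℤ, S = fun g =>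
    (Finset.univ.filter fun v => 0 < r v ∧ (bb v, c v) = g).image X := ⟨_, rfl⟩
  have hSm : ∀ v, 0 < r v → X v ∈ S (bb v, c v) := by
    intro v hv
    rw [hS]
    exact Finset.mem_image.2 ⟨v, Finset.mem_filter.2 ⟨Finset.mem_univ _, hv, rfl⟩, rfl⟩
  have e3 := CH_le_card hr0 hr.sum_one X (fun v => (bb v, c v)) S hSm
  have e4 : Pool.Agent.H32.Dense.Ex r (fun v => Real.log (((S (bb v, c v)).card : ℕ) : ℝ)) ≤
      a + Pe r (fun v => ¬ Gd v) * b := by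
    have e5 : ∀ v, r v * Real.log (((S (bb v, c v)).card : ℕ) : ℝ) ≤
        r v * a + (if ¬ Gd v then r v else 0) * b := by
      intro v
      rcases (hr0 v).eq_or_lt with h0 | h0
      · rw [← h0]
        simp
      have hcard : (0 : ℝ) < ((S (bb v, c v)).card : ℕ) := by
        have : 0 < (S (bb v, c v)).card := Finset.card_pos.2 ⟨_, hSm v h0⟩
        exact_mod_cast this
      by_cases h : Gd v
      · rw [if_neg (not_not.2 h), zero_mul, add_zero]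
        refine mul_le_mul_of_nonneg_left ?_ (hr0 v)
        rw [Real.log_le_iff_le_exp hcard]
        refine h1 v h0 h _ fun n hn => ?_
        rw [hS] at hn
        obtain ⟨v', hv', hn'⟩ := Finset.mem_image.1 hn
        obtain ⟨hv1, hv2⟩ := (Finset.mem_filter.1 hv').2
        obtain ⟨g1, g2⟩ := Prod.ext_iff.1 hv2
        refine ⟨v', hv1, ?_, g2, hn'⟩
        have g3 : bb v' = bb v := g1
        rw [hbb] at g3
        simp only [decide_eq_decide] at g3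
        exact g3.2 h
      · rw [if_pos h]
        have h3 : Real.log (((S (bb v, c v)).card : ℕ) : ℝ) ≤ b := by
          rw [Real.log_le_iff_le_exp hcard]
          refine h2 v h0 _ fun n hn => ?_
          rw [hS] at hn
          obtain ⟨v', hv', hn'⟩ := Finset.mem_image.1 hn
          obtain ⟨hv1, hv2⟩ := (Finset.mem_filter.1 hv').2
          exact ⟨v', hv1, (Prod.ext_iff.1 hv2).2, hn'⟩
        have h4 := mul_le_mul_of_nonneg_left h3 (hr0 v)
        have h5 : 0 ≤ r v * a := mul_nonneg (hr0 v) ha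
        linarith
    unfold Pool.Agent.H32.Dense.Ex
    refine (Finset.sum_le_sum fun v _ => e5 v).trans (le_of_eq ?_)
    rw [Finset.sum_add_distrib, ← Finset.sum_mul, ← Finset.sum_mul, hr.sum_one, one_mul, Pe_eq]
    congr 2
    refine Finset.sum_congr rfl fun v _ => ?_
    by_cases h : Gd v <;> simp [h]
  linarith

/-- A set of integers of small diameter is small. -/
theorem card_diam {S : Finset ℤ} {N : ℕ} (h : ∀ a ∈ S, ∀ b ∈ S, a - b ≤ N) : S.card ≤ N + 1 := by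
  rcases S.eq_empty_or_nonempty with h0 | h0
  · rw [h0]
    simp
  · obtain ⟨a, ha, hmin⟩ := S.exists_min_image (fun x => x) h0
    have h1 : S ⊆ Finset.Icc a (a + N) := by
      intro b hb
      rw [Finset.mem_Icc]
      have h2 := hmin b hb
      have h3 := h b hb a ha
      exact ⟨h2, by linarith⟩
    have h2 := Finset.card_le_card h1
    rw [Int.card_Icc] at h2
    have h3 : (a + (N : ℤ) + 1 - a).toNat = N + 1 := by
      have : a + (N : ℤ) + 1 - a = ((N + 1 : ℕ) : ℤ) := by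
        push_cast
        ring
      rw [this, Int.toNat_natCast]
    rw [h3] at h2
    exact h2

variable {m J : ℕ}

/-- The positions in one ball. -/
theorem bal_diff {F : Fam m J} {W : ℕ} (hW : W ≤ J) (i : Fin m) {ω ω' : F.Ω}
    (h : bal F W ω = bal F W ω') : F.X J ω i - F.X J ω' i ≤ ((2 ^ (J + 2) : ℕ) : ℤ) := by
  have h1 : fl W (F.x1 W ω) i = fl W (F.x1 W ω') i := congrFun (Prod.ext_iff.1 h).1 i
  have h2 : |(2 : ℝ) ^ W * F.x1 W ω i - 2 ^ W * F.x1 W ω' i| ≤ 1 := floor_same h1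
  have hw0 : (0 : ℝ) < 2 ^ W := by positivity
  have hw1 : (1 : ℝ) ≤ 2 ^ W := one_le_pow₀ one_le_two
  have h3 : |F.x1 W ω i - F.x1 W ω' i| ≤ 1 := by
    rw [← mul_sub, abs_mul, abs_of_pos hw0] at h2
    exact (le_mul_of_one_le_left (abs_nonneg _) hw1).trans h2
  have hn : ∀ ω : F.Ω, |F.x ω i - F.x1 W ω i| ≤ 1 := by
    intro ω
    refine (Pool.CHT.near_win F i hW ω).trans ?_
    rw [div_le_one hw0]
    exact hw1
  have h4 := hn ω
  have h5 := hn ω'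
  have h6 : F.x ω i - F.x ω' i ≤ 3 := by
    rw [abs_le] at h3 h4 h5
    linarith [h3.2, h4.2, h5.1]
  have hJ0 : (0 : ℝ) < 2 ^ J := by positivity
  have hJ1 : (1 : ℝ) ≤ 2 ^ J := one_le_pow₀ one_le_two
  have h7 : (F.X J ω i : ℝ) ≤ 2 ^ J * F.x ω i := Int.floor_le _
  have h8 : 2 ^ J * F.x ω' i < F.X J ω' i + 1 := Int.lt_floor_add_one _
  have h9 : 2 ^ J * F.x ω i - 2 ^ J * F.x ω' i ≤ 2 ^ J * 3 := by
    rw [← mul_sub]
    exact mul_le_mul_of_nonneg_left h6 hJ0.le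
  have h10 : ((F.X J ω i - F.X J ω' i : ℤ) : ℝ) ≤ (((2 ^ (J + 2) : ℕ) : ℤ) : ℝ) := by
    push_cast
    have : (2 : ℝ) ^ (J + 2) = 4 * 2 ^ J := by ring
    rw [this]
    linarith
  exact_mod_cast h10

/-- The data of a label with its equation. -/
structure LDat (F : Fam m J) (r : ℕ) where
  P₀ : ℕ
  sg : ℕ
  kap : ℕ
  g : ℕ → ℕ
  L : ℝ
  V : Type
  z : PtT F → V
  z' : LnT F → V
  P : V → ℕ → PN
  Qh : V → MvPolynomial (Option (Fin (r + 1))) ℝ
  ρ : V → ℝ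

noncomputable instance {F : Fam m J} {r : ℕ} : Inhabited (LDat F r) :=
  ⟨⟨0, 0, 0, fun _ => 0, 0, Unit, fun _ => (), fun _ => (), fun _ _ => 0, fun _ => 0, fun _ => 0⟩⟩

/-- **A label with its equation** on the event `B`. -/
structure LDat.Ok {F : Fam m J} {r : ℕ} (d : LDat F r) (c : ℕ → Fin m) (D K W : ℕ) (g : ℕ → ℝ)
    (η φ : ℝ) (B : F.Ω → Prop) : Prop where
  g_ge : ∀ l < r, (g l - φ) * J ≤ d.g l
  W_le : W ≤ d.P₀
  P_le : d.P₀ ≤ J
  g_r : d.P₀ ≤ d.g r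
  wds : ∀ i < r + 1, W ≤ wid W d.g i + d.kap ∧ wid W d.g i ≤ d.P₀
  lab : NLabW F c r W d.sg d.g K d.L B d.z d.z' d.P
  L_nn : 0 ≤ d.L
  eqn : ∀ ω, B ω → CsQ r D W d.P₀ d.g (d.P (d.z (ptr F J ω))) (d.Qh (d.z (ptr F J ω)))
    (d.ρ (d.z (ptr F J ω)))
  ρ_ge : ∀ ω, B ω → 1 ≤ ((2 ^ (d.P₀ - W) : ℕ) : ℝ) * d.ρ (d.z (ptr F J ω))
  ρ_le : ∀ ω, B ω → ((2 ^ (d.P₀ - W) : ℕ) : ℝ) * d.ρ (d.z (ptr F J ω)) ≤ Real.exp (φ * J)
  kap_le : (d.kap : ℝ) ≤ φ * J
  L_le : Real.log (1 + d.L) ≤ φ * J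
  P_ge : (J : ℝ) + d.sg ≤ d.P₀ + η * J

/-- The constant of the chart. -/
noncomputable def LDat.X {F : Fam m J} {r : ℕ} (d : LDat F r) (D : ℕ) (C : ℝ) : ℝ :=
  (C * (2 * clC r d.kap d.L) * ctC r d.kap d.L ^ (2 * (r + 1))) ^ (D + 1)

/-- The point of the first sample is good for the label `v`. -/
def LDat.Gd {F : Fam m J} {r : ℕ} (d : LDat F r) (c : ℕ → Fin m) (D W0 W1 : ℕ) (C h : ℝ)
    (v : d.V) (ξ : PtT F) : Prop :=
  Gpt r D C h (2 ^ (W1 - W0)) (d.X D C) (d.ρ v)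
    (csC (chw (r + 1) W1 d.P₀ d.g (d.P v)) (pN 1 (d.Qh v)))
    (2 * clC r d.kap d.L / ((2 ^ (d.P₀ - W1) : ℕ) : ℝ)) (d.Qh v) (zsw c r W1 d.sg ξ)

/-- The constant of the chart is small. -/
theorem ldX_le (r D : ℕ) {C : ℝ} (hC : 1 ≤ C) : ∃ Ĉ : ℝ, 0 ≤ Ĉ ∧ ∀ {m J : ℕ} {F : Fam m J}
    (d : LDat F r) {φ : ℝ}, 0 ≤ φ → 0 ≤ d.L → (d.kap : ℝ) ≤ φ * J →
    Real.log (1 + d.L) ≤ φ * J → d.X D C ≤ Real.exp (Ĉ * (1 + φ * J)) ∧ 1 ≤ d.X D C := by
  obtain ⟨a, ha⟩ : ∃ a : ℝ, a = Real.log (r + 1) := ⟨_, rfl⟩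
  have hr0 : (0 : ℝ) ≤ r := Nat.cast_nonneg r
  have ha0 : 0 ≤ a := by
    rw [ha]
    exact Real.log_nonneg (by linarith)
  obtain ⟨b, hb⟩ : ∃ b : ℝ, b = Real.log (C * (4 * r + 10)) := ⟨_, rfl⟩
  have hb0 : 0 ≤ b := by
    rw [hb]
    exact Real.log_nonneg (by nlinarith)
  refine ⟨(D + 1) * (b + 2 * (r + 2) * ((r + 3) + 2 + (r + 2) * a)), by positivity, ?_⟩
  intro m J F d φ hφ hL hkap hlL
  have hJ0 : (0 : ℝ) ≤ J := Nat.cast_nonneg J
  have hφJ : 0 ≤ φ * J := mul_nonneg hφ hJ0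
  have hct := ctC_ge (r := r) (kap := d.kap) hL
  have hcl2 := clC_ge (r := r) (kap := d.kap) hL
  have h1L : 1 + d.L ≤ Real.exp (φ * J) := by
    rw [← Real.log_le_iff_le_exp (by linarith)]
    exact hlL
  have hct2 : ctC r d.kap d.L ≤ Real.exp (((r : ℝ) + 3) * (φ * J) + 2 + (r + 2) * a) := by
    unfold ctC
    have e1 : (2 : ℝ) ^ (d.kap + 2) ≤ Real.exp (φ * J + 2) := by
      have h1 : (2 : ℝ) ≤ Real.exp 1 := by
        have := Real.add_one_le_exp (1 : ℝ)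
        linarith
      calc (2 : ℝ) ^ (d.kap + 2) ≤ Real.exp 1 ^ (d.kap + 2) :=
            pow_le_pow_left₀ (by norm_num) h1 _
        _ = Real.exp ((d.kap + 2 : ℕ) : ℝ) := by rw [← Real.exp_nat_mul, mul_one]
        _ ≤ _ := Real.exp_le_exp.2 (by push_cast; linarith)
    have e2 : 1 + ((r + 1 : ℕ) : ℝ) * d.L ≤ Real.exp (a + φ * J) := by
      have h1 : 1 + ((r + 1 : ℕ) : ℝ) * d.L ≤ ((r : ℝ) + 1) * (1 + d.L) := by
        push_cast
        nlinarith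
      refine h1.trans ?_
      rw [Real.exp_add, ha, Real.exp_log (by linarith)]
      exact mul_le_mul_of_nonneg_left h1L (by linarith)
    have e3 : (1 + ((r + 1 : ℕ) : ℝ) * d.L) ^ (r + 1 + 1) ≤
        Real.exp (((r + 1 + 1 : ℕ) : ℝ) * (a + φ * J)) := by
      rw [Real.exp_nat_mul]
      exact pow_le_pow_left₀ (by positivity) e2 _
    calc (2 : ℝ) ^ (d.kap + 2) * (1 + ((r + 1 : ℕ) : ℝ) * d.L) ^ (r + 1 + 1) ≤
          Real.exp (φ * J + 2) * Real.exp (((r + 1 + 1 : ℕ) : ℝ) * (a + φ * J)) :=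
          mul_le_mul e1 e3 (by positivity) (Real.exp_pos _).le
      _ = Real.exp (((r : ℝ) + 3) * (φ * J) + 2 + (r + 2) * a) := by
          rw [← Real.exp_add]
          congr 1
          push_cast
          ring
  have hcl : 2 * clC r d.kap d.L ≤ (4 * r + 10) * ctC r d.kap d.L ^ 2 := by
    rw [clC_eq]
    push_cast
    have h1 : 1 ≤ ctC r d.kap d.L ^ 2 := one_le_pow₀ hct
    nlinarith
  constructor
  · unfold LDat.X
    have h1 : C * (2 * clC r d.kap d.L) * ctC r d.kap d.L ^ (2 * (r + 1)) ≤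
        Real.exp (b + 2 * (r + 2) * (((r : ℝ) + 3) * (φ * J) + 2 + (r + 2) * a)) := by
      have h2 : C * (2 * clC r d.kap d.L) * ctC r d.kap d.L ^ (2 * (r + 1)) ≤
          C * (4 * r + 10) * ctC r d.kap d.L ^ (2 * (r + 2)) := by
        have e1 : ctC r d.kap d.L ^ (2 * (r + 2)) =
            ctC r d.kap d.L ^ 2 * ctC r d.kap d.L ^ (2 * (r + 1)) := by
          rw [← pow_add]
          congr 1
          ring
        rw [e1]
        have h3 : 0 ≤ ctC r d.kap d.L ^ (2 * (r + 1)) := by positivity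
        calc C * (2 * clC r d.kap d.L) * ctC r d.kap d.L ^ (2 * (r + 1)) ≤
              C * ((4 * r + 10) * ctC r d.kap d.L ^ 2) * ctC r d.kap d.L ^ (2 * (r + 1)) :=
              mul_le_mul_of_nonneg_right (mul_le_mul_of_nonneg_left hcl (by linarith)) h3
          _ = _ := by ring
      refine h2.trans ?_
      rw [Real.exp_add, hb, Real.exp_log (by positivity)]
      refine mul_le_mul_of_nonneg_left ?_ (by positivity)
      calc ctC r d.kap d.L ^ (2 * (r + 2)) ≤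
            Real.exp (((r : ℝ) + 3) * (φ * J) + 2 + (r + 2) * a) ^ (2 * (r + 2)) :=
            pow_le_pow_left₀ (by linarith) hct2 _
        _ = _ := by
            rw [← Real.exp_nat_mul]
            congr 1
            push_cast
            ring
    calc (C * (2 * clC r d.kap d.L) * ctC r d.kap d.L ^ (2 * (r + 1))) ^ (D + 1) ≤
          Real.exp (b + 2 * (r + 2) * (((r : ℝ) + 3) * (φ * J) + 2 + (r + 2) * a)) ^ (D + 1) :=
          pow_le_pow_left₀ (by positivity) h1 _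
      _ = Real.exp ((D + 1 : ℕ) * (b + 2 * (r + 2) * (((r : ℝ) + 3) * (φ * J) + 2 +
          (r + 2) * a))) := by
          rw [← Real.exp_nat_mul]
      _ ≤ _ := by
          refine Real.exp_le_exp.2 ?_
          push_cast
          have h4 : 0 ≤ 2 * ((r : ℝ) + 2) * ((r : ℝ) + 3) := by positivity
          have h5 : 0 ≤ (b + 2 * ((r : ℝ) + 2) * (2 + (r + 2) * a)) * (φ * J) := by positivity
          have h6 : 0 ≤ 2 * ((r : ℝ) + 2) * (r + 3) := by positivity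
          have e1 : (b + 2 * ((r : ℝ) + 2) * ((r + 3) + 2 + (r + 2) * a)) * (1 + φ * J) -
              (b + 2 * (r + 2) * (((r : ℝ) + 3) * (φ * J) + 2 + (r + 2) * a)) =
              2 * ((r : ℝ) + 2) * (r + 3) + (b + 2 * ((r : ℝ) + 2) * (2 + (r + 2) * a)) *
                (φ * J) := by ring
          have h7 : b + 2 * (r + 2) * (((r : ℝ) + 3) * (φ * J) + 2 + (r + 2) * a) ≤
              (b + 2 * ((r : ℝ) + 2) * ((r + 3) + 2 + (r + 2) * a)) * (1 + φ * J) := by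
            linarith
          have h8 : (0 : ℝ) ≤ (D : ℝ) + 1 := by positivity
          refine (mul_le_mul_of_nonneg_left h7 h8).trans (le_of_eq ?_)
          ring
  · unfold LDat.X
    refine one_le_pow₀ ?_
    have h1 : (1 : ℝ) ≤ ctC r d.kap d.L ^ (2 * (r + 1)) := one_le_pow₀ hct
    exact one_le_mul_of_one_le_of_one_le
      (one_le_mul_of_one_le_of_one_le hC (by linarith)) h1

/-- The points of one ball of digits. -/
theorem zsw_upd {F : Fam m J} {c : ℕ → Fin m} {r W sg : ℕ} {ξ ξ' : PtT F}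
    (ht : ξ.2.1 = ξ'.2.1) (hx : ∀ i < r, ξ.1 (c i) = ξ'.1 (c i)) :
    zsw c r W sg ξ = Function.update (zsw c r W sg ξ') none
      ((ξ.1 (c r) : ℝ) * (2 ^ W / (2 ^ J * 2 ^ sg))) := by
  funext o
  cases o with
  | none =>
    rw [Function.update_self]
    change 2 ^ W * (px c ξ (r + 1) / 2 ^ sg) = _
    unfold px
    rw [if_neg (Nat.succ_ne_zero r), Nat.add_sub_cancel]
    field_simp
  | some i =>
    rw [Function.update_of_ne (by simp)]
    change 2 ^ W * px c ξ i.val = 2 ^ W * px c ξ' i.val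
    congr 1
    unfold px
    by_cases h : i.val = 0
    · rw [if_pos h, if_pos h, ht]
    · rw [if_neg h, if_neg h, hx _ (by have := i.2; omega)]

/-- **The number of the last coordinates** which are good for a label. -/
theorem gd_card (r D : ℕ) : ∃ C₅ : ℝ, 1 ≤ C₅ ∧ ∀ {m J : ℕ} {F : Fam m J} (d : LDat F r)
    (c : ℕ → Fin m) (W0 W1 : ℕ) (C h : ℝ) (v : d.V) (ξ₀ : PtT F) (S : Finset ℤ),
    1 ≤ C → 0 ≤ h → (d.Qh v).totalDegree ≤ D →
    0 < csC (chw (r + 1) W1 d.P₀ d.g (d.P v)) (pN 1 (d.Qh v)) → 0 ≤ d.L → 0 ≤ d.ρ v →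
    W1 ≤ d.P₀ → d.P₀ ≤ J → 0 ≤ d.X D C →
    (∀ n ∈ S, ∃ ξ : PtT F, ξ.2.1 = ξ₀.2.1 ∧ (∀ i < r, ξ.1 (c i) = ξ₀.1 (c i)) ∧
      ξ.1 (c r) = n ∧ d.Gd c D W0 W1 C h v ξ) →
    (S.card : ℝ) ≤ C₅ * (1 + C ^ 2 * (2 ^ (W1 - W0)) ^ D * Real.exp h ^ (2 * D + 1) *
      d.X D C * (((2 ^ (d.P₀ - W1) : ℕ) : ℝ) * d.ρ v) * 2 ^ (J + d.sg - d.P₀)) := by
  obtain ⟨C₅, hC₅, hcnt⟩ := Pool.NJ34C.cnt_psi (r + 1) D
  refine ⟨C₅, hC₅, ?_⟩
  intro m J F d c W0 W1 C h v ξ₀ S hC hh hdeg hpos hL hρ hWP hPJ hX hS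
  obtain ⟨Sg, hSg⟩ : ∃ Sg, Sg = csC (chw (r + 1) W1 d.P₀ d.g (d.P v)) (pN 1 (d.Qh v)) := ⟨_, rfl⟩
  rw [← hSg] at hpos
  have hcl2 := clC_ge (r := r) (kap := d.kap) hL
  have heh := Real.exp_pos h
  have hE : 0 < C * Real.exp h ^ (D + 1) := by positivity
  obtain ⟨σ, hσ⟩ : ∃ σ : ℝ, σ = 2 ^ W1 / (2 ^ J * 2 ^ d.sg) := ⟨_, rfl⟩
  have hσ0 : 0 < σ := by
    rw [hσ]
    positivity
  have h1 := hcnt (d.Qh v) hdeg (2 * clC r d.kap d.L / ((2 ^ (d.P₀ - W1) : ℕ) : ℝ))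
    (C * (2 ^ (W1 - W0) * Real.exp h) ^ D * (d.X D C * (d.ρ v * Sg)))
    (Sg / (C * Real.exp h ^ (D + 1))) σ
    (by positivity) (by positivity) (by positivity) hσ0
    (zsw c r W1 d.sg ξ₀) S (by
      intro n hn
      obtain ⟨ξ, hξ1, hξ2, hξ3, hξ4⟩ := hS n hn
      have h2 := zsw_upd (W := W1) (sg := d.sg) hξ1 hξ2
      rw [hξ3, ← hσ] at h2
      rw [← h2]
      obtain ⟨g1, g2⟩ := hξ4
      rw [← hSg] at g1 g2
      refine ⟨g1, ?_⟩
      rw [div_le_iff₀ hE]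
      linarith)
  refine h1.trans (mul_le_mul_of_nonneg_left ?_ (by linarith))
  refine add_le_add le_rfl (le_of_eq ?_)
  have e1 : (2 : ℝ) ^ (J + d.sg - d.P₀) = 2 ^ J * 2 ^ d.sg / 2 ^ d.P₀ := by
    rw [two_pow_sub (by omega : d.P₀ ≤ J + d.sg), pow_add]
  have e2 : ((2 ^ (d.P₀ - W1) : ℕ) : ℝ) = 2 ^ d.P₀ / 2 ^ W1 := by
    push_cast
    exact two_pow_sub hWP
  rw [e1, e2, hσ]
  have e3 : Real.exp h ^ (2 * D + 1) = Real.exp h ^ D * Real.exp h ^ (D + 1) := by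
    rw [← pow_add]
    congr 1
    ring
  rw [e3, mul_pow]
  field_simp

/-- The pair is good: the piece of the second sample has a label, and its equation holds at the
point of the first sample. -/
def Gde {F : Fam m J} {r : ℕ} (dd : ℕ → LDat F r) (c : ℕ → Fin m) (D W0 W1 N : ℕ) (C h : ℝ)
    (j : F.Ω → ℕ) (B : ℕ → F.Ω → Prop) (e : F.Ω × F.Ω) : Prop :=
  j e.2 < N ∧ B (j e.2) e.2 ∧
    (dd (j e.2)).Gd c D W0 W1 C h ((dd (j e.2)).z (ptr F J e.2)) (ptr F J e.1)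

/-- **The last coordinate of the first sample**, given its other coordinates and the label of the
second sample. -/
theorem few_ent (r D : ℕ) {C : ℝ} (hC : 1 ≤ C) : ∃ Ĉ : ℝ, 0 ≤ Ĉ ∧ ∀ {m J : ℕ} {F : Fam m J}
    {p : F.Ω → ℝ}, IsLaw p → ∀ (c : ℕ → Fin m) {W0 W1 K N : ℕ} {g : ℕ → ℝ} {η φ h : ℝ}
    (dd : ℕ → LDat F r) (j : F.Ω → ℕ) (B : ℕ → F.Ω → Prop) {U : Type}
    (Kz : F.Ω × F.Ω → (Σ i, (dd i).V) × U),
    (∀ e, (Kz e).1 = ⟨j e.2, (dd (j e.2)).z (ptr F J e.2)⟩) →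
    (∀ i < N, (∃ ω, B i ω) → (dd i).Ok c D K W1 g η φ (B i)) →
    W0 ≤ W1 → W1 ≤ J → 0 ≤ h → 0 ≤ φ → 0 ≤ η →
    CH (P2 p (slam F W0)) (fun e => F.X J e.1 (c r))
      (fun e => ((fun (i : Fin r) => F.X J e.1 (c i)),
        (Kz e, (F.T1 W1 e.2, (bal F W0 e.1, F.T e.1))))) ≤
      Real.log 2 + (Ĉ * (1 + φ * J) + D * (((W1 - W0 : ℕ) : ℝ) * Real.log 2) + (2 * D + 1) * h +
        η * J) + Pe (P2 p (slam F W0)) (fun e => ¬ Gde dd c D W0 W1 N C h j B e) * (J + 3) := by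
  classical
  obtain ⟨C₅, hC₅, hcard⟩ := gd_card r D
  obtain ⟨C₀, hC₀, hX⟩ := ldX_le r D hC
  obtain ⟨b₀, hb₀⟩ : ∃ b₀ : ℝ, b₀ = Real.log (2 * C₅ * C ^ 2) := ⟨_, rfl⟩
  have hCC : 1 ≤ 2 * C₅ * C ^ 2 := by
    have h1 : 1 ≤ C ^ 2 := one_le_pow₀ hC
    nlinarith
  have hb₀0 : 0 ≤ b₀ := by
    rw [hb₀]
    exact Real.log_nonneg hCC
  refine ⟨b₀ + C₀ + 1, by positivity, ?_⟩
  intro m J F p hp c W0 W1 K N g η φ h dd j B U Kz hKz hok hW hW1 hh hφ hη
  have hJ0 : (0 : ℝ) ≤ J := Nat.cast_nonneg J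
  have hl2 : 0 < Real.log 2 := Real.log_pos one_lt_two
  have hl2' : Real.log 2 ≤ 1 := by
    have := Real.log_two_lt_d9
    linarith
  have hPl := P2_isLaw hp (slam F W0)
  refine ch_two hPl _ _ (Gde dd c D W0 W1 N C h j B) (by positivity) ?_ ?_
  · intro v hv hG S hS
    obtain ⟨hj, hB, hGd⟩ := hG
    have hOk := hok _ hj ⟨_, hB⟩
    obtain ⟨d, hd⟩ : ∃ d, d = dd (j v.2) := ⟨_, rfl⟩
    obtain ⟨GG, hGG⟩ : ∃ GG : (Σ i, (dd i).V) → PtT F → Prop, GG = fun s ξ =>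
      (dd s.1).Gd c D W0 W1 C h s.2 ξ := ⟨_, rfl⟩
    have hρ1 := hOk.ρ_ge _ hB
    have hρ2 := hOk.ρ_le _ hB
    have hQ := hOk.eqn _ hB
    obtain ⟨hX1, hX2⟩ := hX (dd (j v.2)) hφ hOk.L_nn hOk.kap_le hOk.L_le
    have hρ0 : 0 ≤ (dd (j v.2)).ρ ((dd (j v.2)).z (ptr F J v.2)) := by
      by_contra h7
      have h8 : ((2 ^ ((dd (j v.2)).P₀ - W1) : ℕ) : ℝ) *
          (dd (j v.2)).ρ ((dd (j v.2)).z (ptr F J v.2)) ≤ 0 :=
        mul_nonpos_of_nonneg_of_nonpos (by positivity) (not_le.1 h7).le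
      linarith
    have h1 := hcard (dd (j v.2)) c W0 W1 C h ((dd (j v.2)).z (ptr F J v.2)) (ptr F J v.1) S hC hh
      hQ.deg hQ.pos hOk.L_nn hρ0 hOk.W_le hOk.P_le (by linarith) (by
        intro n hn
        obtain ⟨v', hv', ⟨hj', hB', hGd'⟩, hc', hn'⟩ := hS n hn
        have g1 := Prod.ext_iff.1 hc'
        have g2 := Prod.ext_iff.1 g1.2
        have g3 := Prod.ext_iff.1 (Prod.ext_iff.1 g2.2).2
        have g4 : F.T v'.1 = F.T v.1 := g3.2
        have g5 : (fun (i : Fin r) => F.X J v'.1 (c i)) = fun (i : Fin r) => F.X J v.1 (c i) :=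
          g1.1
        have g6 : Kz v' = Kz v := g2.1
        refine ⟨ptr F J v'.1, g4, ?_, hn', ?_⟩
        · intro i hi
          exact congrFun g5 ⟨i, hi⟩
        · have g7 : GG (Kz v').1 (ptr F J v'.1) := by
            rw [hGG, hKz]
            exact hGd'
          rw [g6, hKz, hGG] at g7
          exact g7)
    refine h1.trans ?_
    obtain ⟨Y, hY⟩ : ∃ Y : ℝ, Y = C ^ 2 * (2 ^ (W1 - W0)) ^ D * Real.exp h ^ (2 * D + 1) *
      (dd (j v.2)).X D C * (((2 ^ ((dd (j v.2)).P₀ - W1) : ℕ) : ℝ) *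
        (dd (j v.2)).ρ ((dd (j v.2)).z (ptr F J v.2))) *
        2 ^ (J + (dd (j v.2)).sg - (dd (j v.2)).P₀) := ⟨_, rfl⟩
    rw [← hY]
    have hC2 : 1 ≤ C ^ 2 := one_le_pow₀ hC
    have hR1 : (1 : ℝ) ≤ (2 ^ (W1 - W0)) ^ D := one_le_pow₀ (one_le_pow₀ one_le_two)
    have hE1 : 1 ≤ Real.exp h ^ (2 * D + 1) := one_le_pow₀ (Real.one_le_exp hh)
    have h2J : (1 : ℝ) ≤ 2 ^ (J + (dd (j v.2)).sg - (dd (j v.2)).P₀) := one_le_pow₀ one_le_two
    have hY1 : 1 ≤ Y := by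
      rw [hY]
      exact one_le_mul_of_one_le_of_one_le (one_le_mul_of_one_le_of_one_le
        (one_le_mul_of_one_le_of_one_le (one_le_mul_of_one_le_of_one_le
          (one_le_mul_of_one_le_of_one_le hC2 hR1) hE1) hX2) hρ1) h2J
    have e1 : (2 : ℝ) ^ (J + (dd (j v.2)).sg - (dd (j v.2)).P₀) ≤ Real.exp (η * J) := by
      have e2 : ((J + (dd (j v.2)).sg - (dd (j v.2)).P₀ : ℕ) : ℝ) ≤ η * J := by
        have h3 := hOk.P_ge
        have h4 : (dd (j v.2)).P₀ ≤ J + (dd (j v.2)).sg := hOk.P_le.trans (Nat.le_add_right _ _)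
        rw [Nat.cast_sub h4]
        push_cast
        linarith
      have h1 : (2 : ℝ) ≤ Real.exp 1 := by
        have := Real.add_one_le_exp (1 : ℝ)
        linarith
      calc (2 : ℝ) ^ (J + (dd (j v.2)).sg - (dd (j v.2)).P₀) ≤
            Real.exp 1 ^ (J + (dd (j v.2)).sg - (dd (j v.2)).P₀) :=
            pow_le_pow_left₀ (by norm_num) h1 _
        _ = Real.exp ((J + (dd (j v.2)).sg - (dd (j v.2)).P₀ : ℕ) : ℝ) := by
            rw [← Real.exp_nat_mul, mul_one]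
        _ ≤ _ := Real.exp_le_exp.2 e2
    have e3 : ((2 : ℝ) ^ (W1 - W0)) ^ D =
        Real.exp (D * (((W1 - W0 : ℕ) : ℝ) * Real.log 2)) := by
      rw [Real.exp_nat_mul, Real.exp_nat_mul, Real.exp_log (by norm_num)]
    have e4 : Real.exp h ^ (2 * D + 1) = Real.exp ((2 * D + 1) * h) := by
      rw [← Real.exp_nat_mul]
      push_cast
      rfl
    have hY2 : Y ≤ C ^ 2 * Real.exp (D * (((W1 - W0 : ℕ) : ℝ) * Real.log 2)) *
        Real.exp ((2 * D + 1) * h) * Real.exp (C₀ * (1 + φ * J)) * Real.exp (φ * J) *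
        Real.exp (η * J) := by
      rw [hY, e3, e4]
      have hp1 : 0 ≤ C ^ 2 * Real.exp (D * (((W1 - W0 : ℕ) : ℝ) * Real.log 2)) *
        Real.exp ((2 * D + 1) * h) := by positivity
      refine mul_le_mul (mul_le_mul (mul_le_mul_of_nonneg_left hX1 hp1) hρ2 (by linarith)
        (by positivity)) e1 (by linarith) (by positivity)
    calc C₅ * (1 + Y) ≤ C₅ * (2 * Y) := mul_le_mul_of_nonneg_left (by linarith) (by linarith)
      _ ≤ C₅ * (2 * (C ^ 2 * Real.exp (D * (((W1 - W0 : ℕ) : ℝ) * Real.log 2)) *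
        Real.exp ((2 * D + 1) * h) * Real.exp (C₀ * (1 + φ * J)) * Real.exp (φ * J) *
        Real.exp (η * J))) := mul_le_mul_of_nonneg_left (by linarith) (by linarith)
      _ = Real.exp b₀ * Real.exp (D * (((W1 - W0 : ℕ) : ℝ) * Real.log 2)) *
        Real.exp ((2 * D + 1) * h) * Real.exp (C₀ * (1 + φ * J)) * Real.exp (φ * J) *
        Real.exp (η * J) := by
          rw [hb₀, Real.exp_log (by linarith)]
          ring
      _ = Real.exp (b₀ + D * (((W1 - W0 : ℕ) : ℝ) * Real.log 2) + (2 * D + 1) * h +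
          C₀ * (1 + φ * J) + φ * J + η * J) := by
          rw [Real.exp_add, Real.exp_add, Real.exp_add, Real.exp_add, Real.exp_add]
      _ ≤ _ := by
          refine Real.exp_le_exp.2 ?_
          have h3 : 0 ≤ φ * J := mul_nonneg hφ hJ0
          nlinarith
  · intro v hv S hS
    have h1 : S.card ≤ 2 ^ (J + 2) + 1 := by
      refine card_diam fun a ha b hb => ?_
      obtain ⟨v', hv', hc', hn'⟩ := hS a ha
      obtain ⟨v'', hv'', hc'', hn''⟩ := hS b hb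
      rw [← hn', ← hn'']
      refine bal_diff (hW.trans hW1) (c r) ?_
      have g1 : bal F W0 v'.1 = bal F W0 v.1 :=
        (Prod.ext_iff.1 (Prod.ext_iff.1 (Prod.ext_iff.1 (Prod.ext_iff.1 hc').2).2).2).1
      have g2 : bal F W0 v''.1 = bal F W0 v.1 :=
        (Prod.ext_iff.1 (Prod.ext_iff.1 (Prod.ext_iff.1 (Prod.ext_iff.1 hc'').2).2).2).1
      rw [g1, g2]
    have h2 : (S.card : ℝ) ≤ 2 ^ (J + 3) := by
      have h3 : (S.card : ℝ) ≤ ((2 ^ (J + 2) + 1 : ℕ) : ℝ) := by exact_mod_cast h1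
      refine h3.trans ?_
      push_cast
      have h4 : (1 : ℝ) ≤ 2 ^ J := one_le_pow₀ one_le_two
      have e1 : (2 : ℝ) ^ (J + 2) = 4 * 2 ^ J := by ring
      have e2 : (2 : ℝ) ^ (J + 3) = 8 * 2 ^ J := by ring
      rw [e1, e2]
      linarith
    refine h2.trans ?_
    have h3 : (2 : ℝ) ≤ Real.exp 1 := by
      have := Real.add_one_le_exp (1 : ℝ)
      linarith
    calc (2 : ℝ) ^ (J + 3) ≤ Real.exp 1 ^ (J + 3) := pow_le_pow_left₀ (by norm_num) h3 _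
      _ = Real.exp ((J + 3 : ℕ) : ℝ) := by rw [← Real.exp_nat_mul, mul_one]
      _ = Real.exp ((J : ℝ) + 3) := by
          push_cast
          rfl

end Pool.NJ34
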