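import Pool.Agent.H34.NJ.EqL
import Pool.Agent.H34.NJ.Win

/-!
# (H2) at a good window at which some coordinates are known

`h2_full_c`: at a good window at which the first `k` numbers are smaller than `1` and the other
coordinates have the full threshold over the first `k` ones.
-/

set_option autoImplicit false

namespace Pool.NJ34

open Finset Real MvPolynomial
open Pool.Agent.H49.Ent Pool.Agent.H32.Dense Pool.STK Pool.KA Pool.KSAT Pool.K2S Pool.PB
  Pool.STAT Pool.GEN Pool.S6C Pool.M3F Pool.JPN Pool.GRW Pool.PKG Pool.R1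
open Pool.CHT (chsys bet tau Up1 tmH_of_reg)
open Pool.LBT (ThrOf)
open Pool.ONE (lst tgs)
open Pool.ALL (RateOf)
open Pool.FRN (Wgd Gdy)
open Pool.TOP (T1c T2c TopS Ful RW)
open Pool.PLN (H2S)

theorem EqN.cg {m : ℕ} {S : PCl m} {c : ℕ → Fin m} {r D : ℕ} {w : ℝ} {g g' : ℕ → ℝ} {η η' : ℝ}
    (h : EqN S c r D w g η) (hg : ∀ l < r, g' l ≤ g l) (hη : η ≤ η') : EqN S c r D w g' η' := by
  obtain ⟨K, hK⟩ := h
  refine ⟨K, fun φ hφ => ?_⟩
  obtain ⟨κ, hκ, hb⟩ := hK φ hφ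
  refine ⟨κ, hκ, hb.mono 0 ?_⟩
  rintro J - F A ⟨B, d, h1, h2, h3⟩
  have hJ0 : (0 : ℝ) ≤ J := Nat.cast_nonneg J
  refine ⟨B, d, h1, h2, { h3 with
    g_ge := fun l hl => ?_
    P_ge := ?_ }⟩
  · exact (mul_le_mul_of_nonneg_right (by linarith [hg l hl]) hJ0).trans (h3.g_ge l hl)
  · have h4 := h3.P_ge
    have h5 := mul_le_mul_of_nonneg_right hη hJ0
    linarith

theorem tgt_map {m : ℕ} (c : ℕ → Fin m) {r t l : ℕ} (hl : l ≤ r) :
    (List.range l).map (tgt c r t) = (List.range l).map c := by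
  refine List.map_congr_left fun i hi => ?_
  rw [List.mem_range] at hi
  exact tgt_lt c (by omega)

theorem bet_tgt {m : ℕ} (P : List (Fin m) × Fin m → ℝ → ℝ → ℝ) (c : ℕ → Fin m) {r t l : ℕ}
    (hl : l < r) (a w : ℝ) : bet P (tgt c r t) l a w = bet P c l a w := by
  unfold bet
  rw [tgt_map c hl.le, tgt_lt c hl]

theorem tau_tgt {m : ℕ} (P : List (Fin m) × Fin m → ℝ → ℝ → ℝ) (c : ℕ → Fin m) {r t l i : ℕ}
    (hl : l < r) (hi : i < r) (a w : ℝ) : tau P (tgt c r t) l i a w = tau P c l i a w := by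
  unfold tau
  rw [tgt_map c hl.le, tgt_lt c hi]

theorem bet_tgt_r {m : ℕ} (P : List (Fin m) × Fin m → ℝ → ℝ → ℝ) (c : ℕ → Fin m) {r t : ℕ}
    (a w : ℝ) : bet P (tgt c r t) r a w = P ((List.range r).map c, c (r + t)) a w := by
  unfold bet
  rw [tgt_map c le_rfl, tgt_r]

variable {n : ℕ} {hn : 2 ≤ n} {S : PCl n} {P : ℝ → ℝ → ℝ} {r : ℝ → ℝ}
  {P' : ℕ → List (Fin n) × Fin n → ℝ → ℝ → ℝ} {Λ : Finset (Fin n) → Fin n → ℝ → ℝ → ℝ}

/-- The first number. -/
theorem vs_one (H : Pk hn S P r P' Λ) {w : ℝ} (hg : Gwd P P' Λ w) :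
    vs Λ (fun i => bse (ow Λ w i)) w (0 + 1) = w := by
  obtain ⟨al, g₀, s, d, e, K₀, N, hal, hg₀, hC⟩ := H.cl
  have hκ : (0 : ℕ) < n - 1 := by omega
  have h2 : (Pool.PKG.bse (ow Λ w ⟨0, hκ⟩) : Fin n) =
      Pool.PKG.bse (⟨0, hκ⟩ : Fin (n - 1)) := by
    congr 1
    exact Fin.ext (hg.ow.1 ⟨0, hκ⟩ rfl)
  have h3 : Λ ∅ (Pool.PKG.bse (⟨0, hκ⟩ : Fin (n - 1))) w w = w :=
    H.lam.act hC.ne hal (hC.actm.q hg₀) (hC.actb _ rfl) H.pos hg.pos.le hg.lt
  have h4 : vs Λ (fun i => bse (ow Λ w i)) w (0 + 1) =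
      Λ ((Finset.Iio (⟨0, hκ⟩ : Fin (n - 1))).image fun i => bse (ow Λ w i))
        (Pool.PKG.bse (ow Λ w ⟨0, hκ⟩)) w w := by
    simp only [vs]
    rw [dif_pos hκ]
  rw [h4]
  have h5 : (Finset.Iio (⟨0, hκ⟩ : Fin (n - 1))) = ∅ := by
    ext x
    simp only [Finset.mem_Iio, Finset.notMem_empty, iff_false, not_lt]
    exact Fin.mk_le_of_le_val (Nat.zero_le _)
  rw [h5, Finset.image_empty, h2, h3]

/-- The numbers of the chains at a good window, for the first coordinates. -/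
theorem bet_gwk (H : Pk hn S P r P' Λ) (hF : FZX (n - 1)) {w : ℝ} (hw : Gwd P P' Λ w) {j l : ℕ}
    (hl : l < n - 1) (ht : vs Λ (fun i => bse (ow Λ w i)) w (l + 1) < 1 - tht j) :
    bet (P' j) (cc hn (ow Λ w)) l w w = vs Λ (fun i => bse (ow Λ w i)) w (l + 1) := by
  refine bet_eq_vst (tht_pos j) H.ne (C₀ := 6) (by norm_num) H.tmc H.lam (H.cht j) (bse_ci _)
    (fun i => cc_lt hn _ i.2) ⟨hw.ow.2, hw.con j⟩ (pk_exa H hF hw.ow.1 hw.ow.2) hl ?_
  have h2 : tht j * w ≤ tht j := mul_le_of_le_one_right (tht_pos j).le hw.lt.le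
  linarith

/-- Exactness of the first coordinates at a good window. -/
theorem exv_k (H : Pk hn S P r P' Λ) (hF : FZX (n - 1)) {w : ℝ} (hw : Gwd P P' Λ w) {k : ℕ}
    (hk : k ≤ n - 1) {ρ : ℝ} (hρ : 0 < ρ) :
    ExvY S w (fun J F ω (i : Fin k) => F.X J ω (cc hn (ow Λ w) i))
      ((∑ l ∈ range k, (1 - vs Λ (fun i => bse (ow Λ w i)) w (l + 1))) - ρ) := by
  have h1 := vst_ini H.pos H.lam (c := cc hn (ow Λ w)) (fun i => cc_lt hn _ i.2) hw.pos hw.lt
    hw.ow.2.2.2.1 hw.ow.2.2.2.2 (pk_exa H hF hw.ow.1 hw.ow.2) hk hρ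
  have e1 : ∑ l ∈ range k, (1 - vs Λ (fun i => bse (ow Λ w i)) w (l + 1)) =
      ∑ j : Fin k, (1 - vs Λ (fun i => bse (ow Λ w i)) w (j + 1)) :=
    Finset.sum_range fun l => 1 - vs Λ (fun i => bse (ow Λ w i)) w (l + 1)
  rw [e1]
  exact h1

/-- **The labels of a target with the full threshold** over the first `k` coordinates. -/
theorem eqN_full {Dq k : ℕ} (hM : M3D k Dq) (H : Pk hn S P r P' Λ) (hF : FZX (n - 1)) {w : ℝ}
    (hg : Gwd P P' Λ w) (hk1 : 1 ≤ k) (hk : k < n - 1)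
    (hlt : ∀ i < k, vs Λ (fun i => bse (ow Λ w i)) w (i + 1) < 1) {t : ℕ} (ht : k + t < n)
    (hone : ∀ j, P' j ((List.range k).map (cc hn (ow Λ w)), cc hn (ow Λ w) (k + t)) w w = 1)
    {η : ℝ} (hη : 0 < η) :
    EqN S (tgt (cc hn (ow Λ w)) k t) k Dq w
      (fun l => vs Λ (fun i => bse (ow Λ w i)) w (l + 1)) η := by
  obtain ⟨al, g₀, s, d, e, K₀, N, hal, hg₀, hC⟩ := H.cl
  have hw : 0 < w := hg.pos
  have hw1 : w < 1 := hg.lt
  have hmem : ∀ (τ : ℝ) (J : ℕ) (F : Fam n J) (A : F.Ω → Prop), S.St τ J F A →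
      F.Tr ∧ F.Tm (τ * J) ∧ F.Rb (τ * J) ∧ Real.exp (-(τ * J)) ≤ Pe F.p A := by
    intro τ J F A hA
    obtain ⟨a1, a2, a3, a4, -⟩ := hC.mem τ J F A hA
    exact ⟨a1, a2, a3, a4⟩
  obtain ⟨v, hv⟩ : ∃ v : ℕ → ℝ, v = fun l => vs Λ (fun i => bse (ow Λ w i)) w (l + 1) := ⟨_, rfl⟩
  have hvl : ∀ l, vs Λ (fun i => bse (ow Λ w i)) w (l + 1) = v l := fun l => by rw [hv]
  have hmono : ∀ l l', l ≤ l' → v l ≤ v l' := by
    intro l l' hl
    rw [hv]
    exact hg.ow.2.2.2.1.mono H.lam hw1.le (by omega)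
  have hvw : ∀ l, w ≤ v l := fun l => by
    rw [hv]
    exact le_vs H.lam _ hw1.le _
  obtain ⟨x, hx⟩ : ∃ x, x = v (k - 1) := ⟨_, rfl⟩
  have hx1 : x < 1 := by
    rw [hx, ← hvl]
    exact hlt (k - 1) (by omega)
  have hxl : ∀ l < k, v l ≤ x := fun l hl => by
    rw [hx]
    exact hmono l (k - 1) (by omega)
  have hwx : w ≤ x := by
    rw [hx]
    exact hvw _
  obtain ⟨η', hη'⟩ : ∃ η', η' = min η (1 - x) := ⟨_, rfl⟩
  have hη0 : 0 < η' := by
    rw [hη']
    exact lt_min hη (by linarith)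
  have hη1 : η' ≤ η := by
    rw [hη']
    exact min_le_left _ _
  have hη2 : η' ≤ 1 - x := by
    rw [hη']
    exact min_le_right _ _
  obtain ⟨j, hj⟩ := tht_ex (show 0 < η' / 4 by linarith)
  have hθ := tht_pos j
  have hθw : tht j * w ≤ tht j := mul_le_of_le_one_right hθ.le hw1.le
  have hbet : ∀ l < k, bet (P' j) (cc hn (ow Λ w)) l w w = v l := by
    intro l hl
    rw [← hvl]
    refine bet_gwk H hF hg (by omega) ?_
    rw [hvl]
    have := hxl l hl
    linarith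
  have hbt : ∀ l < k, bet (P' j) (tgt (cc hn (ow Λ w)) k t) l w w = v l := fun l hl => by
    rw [bet_tgt _ _ hl, hbet l hl]
  have hinj : Set.InjOn (tgt (cc hn (ow Λ w)) k t) (Set.Iio (k + 1)) := by
    intro a ha b hb hab
    have ha' : a < k + 1 := ha
    have hb' : b < k + 1 := hb
    rcases Nat.lt_or_ge a k with h1 | h1 <;> rcases Nat.lt_or_ge b k with h2 | h2
    · rw [tgt_lt _ h1, tgt_lt _ h2] at hab
      exact cc_inj' hn _ (by omega) (by omega) hab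
    · rw [tgt_lt _ h1, show b = k by omega, tgt_r] at hab
      have := cc_inj' hn _ (by omega) (by omega) hab
      omega
    · rw [tgt_lt _ h2, show a = k by omega, tgt_r] at hab
      have := cc_inj' hn _ (by omega) (by omega) hab
      omega
    · omega
  obtain ⟨D, hown⟩ := own_cap (P := P' j) (θ := tht j) (w := w) (Q := 1 - η' / 2) hk1 hinj
    H.ne (H.cht j) hθ (tmH_of_reg hmem) hw hw1 (hg.wgd j) (fun i hi l hl => by
      rw [hbt l (by omega), tau_tgt _ _ (by omega) hi]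
      have h1 := pgr hθ H.ne (C₀ := 6) (by norm_num) H.tmc H.lam (H.cht j) (bse_ci _)
        (fun i => cc_lt hn _ i.2) ⟨hg.ow.2, hg.con j⟩ (pk_exa H hF hg.ow.1 hg.ow.2) hl.le
        (show i < n - 1 by omega)
      have h2 := hbet l (by omega)
      have h3 := hxl l (by omega)
      rw [h2, min_eq_left (by linarith)] at h1
      exact h1) (fun l hl => by
      rw [hbt l hl, hbt (k - 1) (by omega)]
      exact hmono l (k - 1) (by omega)) (fun l hl => by
      rw [hbt l hl]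
      have := hxl l hl
      linarith) (hg.dn j) (by linarith) (by linarith)
  rw [bet_tgt_r, hone j, min_eq_right (by linarith)] at hown
  have h1 := eqN_lst (Dq := Dq) hM hmem (fun a ha b hb hab => hinj ha hb hab) hown
    (s := η' / 2) (γ := min w (η' / 4)) hw (lt_min hw (by linarith)) (min_le_left _ _)
    (fun l hl => by
      rw [hbt l hl]
      exact hvw l) (fun l l' hl hl' => by
      rw [hbt l (by omega), hbt l' hl']
      exact hmono l l' hl) (fun l hl => by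
      rw [hbt l hl]
      have h2 := hxl l hl
      have h3 : min w (η' / 4) ≤ η' / 4 := min_le_right _ _
      linarith) (by
      have h3 : min w (η' / 4) ≤ η' / 4 := min_le_right _ _
      linarith) (by linarith) (by linarith) (by linarith) (fun l hl => by
      rw [hbt l hl]
      have h2 := hxl l hl
      linarith) (fun ρ hρ => by
      have h2 := exv_k H hF hg (k := k) (by omega) hρ
      have e1 : (fun (J : ℕ) (F : Fam n J) (ω : F.Ω) (i : Fin k) =>
          F.X J ω (tgt (cc hn (ow Λ w)) k t i)) =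
          fun J F ω (i : Fin k) => F.X J ω (cc hn (ow Λ w) i) := by
        funext J F ω i
        rw [tgt_lt _ i.2]
      have e2 : ∑ l ∈ range k, (1 - bet (P' j) (tgt (cc hn (ow Λ w)) k t) l w w) =
          ∑ l ∈ range k, (1 - vs Λ (fun i => bse (ow Λ w i)) w (l + 1)) :=
        Finset.sum_congr rfl fun l hl => by rw [hbt l (mem_range.1 hl), hvl]
      rw [e1, e2]
      exact h2) (η := η') (by linarith)
  refine h1.cg (fun l hl => ?_) hη1
  rw [hbt l hl, hvl]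

/-- **(H2) at a good window** at which the first `k` numbers are smaller than `1` and the other
coordinates are known: case (C). -/
theorem h2_full_c {Dq k : ℕ} (hM : M3D k Dq) (H : Pk hn S P r P' Λ)
    (hZ : ∀ k, 1 ≤ k → k < n → FZX k) {w0 w1 : ℝ} (hg : Gwd P P' Λ w1) (hk1 : 1 ≤ k)
    (hk : k < n - 1) (hlt : ∀ i < k, vs Λ (fun i => bse (ow Λ w1 i)) w1 (i + 1) < 1)
    (hone : vs Λ (fun i => bse (ow Λ w1 i)) w1 (k + 1) = 1)
    (hN : ∀ j, P' j ((List.range k).map (cc hn (ow Λ w1)), lst hn) w1 w1 = 1)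
    (hw0 : 0 ≤ w0) (hw01 : w0 < w1) :
    H2S S w0 w1 (((k : ℝ) + 1 + (n - k : ℕ) * Dq) * Real.log 2 * (w1 - w0)) := by
  have hF : FZX (n - 1) := hZ _ (by omega) (by omega)
  obtain ⟨al, g₀, s, d, e, K₀, N, hal, hg₀, hC⟩ := H.cl
  have hw1 : 0 < w1 := hg.pos
  have hw11 : w1 < 1 := hg.lt
  have hmem : ∀ (τ : ℝ) (J : ℕ) (F : Fam n J) (A : F.Ω → Prop), S.St τ J F A →
      F.Tr ∧ F.Tm (τ * J) ∧ F.Rb (τ * J) ∧ Real.exp (-(τ * J)) ≤ Pe F.p A := by
    intro τ J F A hA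
    obtain ⟨a1, a2, a3, a4, -⟩ := hC.mem τ J F A hA
    exact ⟨a1, a2, a3, a4⟩
  refine h2_inf fun e' he' => ?_
  have hnk : (0 : ℝ) ≤ (n - k : ℕ) := Nat.cast_nonneg _
  obtain ⟨x, hx⟩ : ∃ x : ℝ, x = e' - ((k : ℝ) + 1 + (n - k : ℕ) * Dq) * Real.log 2 * (w1 - w0) :=
    ⟨_, rfl⟩
  have hx0 : 0 < x := by
    rw [hx]
    linarith
  obtain ⟨η, hη⟩ : ∃ η : ℝ, η = min (x / ((n - k : ℕ) + 1)) ((1 - w1) / 2) := ⟨_, rfl⟩
  have hη0 : 0 < η := by
    rw [hη]
    exact lt_min (by positivity) (by linarith)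
  have hη1 : ((n - k : ℕ) + 1) * η ≤ x := by
    have h1 : η ≤ x / ((n - k : ℕ) + 1) := by
      rw [hη]
      exact min_le_left _ _
    rw [le_div_iff₀ (by positivity)] at h1
    linarith
  have hη2 : η ≤ (1 - w1) / 2 := by
    rw [hη]
    exact min_le_right _ _
  have h1 := h2G hmem (c := cc hn (ow Λ w1)) (r := k) (k := n - k) (D := Dq) (w0 := w0)
    (w1 := w1) (g := fun l => vs Λ (fun i => bse (ow Λ w1 i)) w1 (l + 1))
    (kp_fzx (hZ k hk1 (by omega))) (fun ρ hρ => exv_k H hF hg (by omega) hρ) hη0.le hw0 hw01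
    (by linarith) (fun i => by
      by_cases hi : i = lst hn
      · exact ⟨n - 1, by omega, by rw [hi, cc_top]⟩
      · obtain ⟨l, hl, h3⟩ := cc_all hn (ow Λ w1) hi
        exact ⟨l, by omega, h3⟩) (fun t ht => by
      refine eqN_full hM H hF hg hk1 hk hlt (by omega) (fun j => ?_) hη0
      rcases Nat.lt_or_ge (k + t) (n - 1) with h2 | h2
      · refine le_antisymm ((H.cht j).up _ _ _ hw1.le le_rfl hw11.le) ?_
        have h3 := vst_le_bet (tht_pos j) H.ne H.tmc H.pos H.lam (H.cht j) (bse_ci _)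
          (c := cc hn (ow Λ w1)) (fun i => cc_lt hn _ i.2) ⟨hg.ow.2, hg.con j⟩
          (pk_exa H hF hg.ow.1 hg.ow.2) (show k ≤ k + t by omega) h2
        rw [hone] at h3
        exact h3
      · rw [show k + t = n - 1 by omega, cc_top]
        exact hN j)
  refine h2_mono hw1.le le_rfl hw11.le ?_ h1
  have h4 : (n - k : ℕ) * η ≤ ((n - k : ℕ) + 1) * η :=
    mul_le_mul_of_nonneg_right (by linarith) hη0.le
  linarith

end Pool.NJ34
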