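import Pool.Agent.H34.NJ.Eq

/-!
# (H2) for a list of coordinates with several targets over it

`h2G`: the base `c 0, .., c (r - 1)` and the targets `c r, .., c (r + k - 1)`, each of which has its
own closed labels with their equations over the base.
-/

set_option autoImplicit false

namespace Pool.NJ34

open Finset Real MvPolynomial
open Pool.Agent.H49.Ent Pool.Agent.H32.Dense Pool.STK Pool.KAF Pool.KAL Pool.KS3 Pool.M3F
open Pool.KJA Pool.KA Pool.K2S Pool.KSAT Pool.PB Pool.STAT Pool.GEN Pool.IEN Pool.CLO37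
open Pool.KM7 Pool.S6C Pool.JPN Pool.GEO
open Pool.TWO (floor_two floor_same)

variable {m J : ℕ}

/-- **The chain of entropies**, with any function `N` which gives the other coordinates. -/
theorem h2_chainG {F : Fam m J} {p : F.Ω → ℝ} (hp : IsLaw p) {W0 W1 : ℕ} (hW : W0 ≤ W1)
    (hW1 : W1 ≤ J) {U G : Type} (Kz : F.Ω × F.Ω → U) {r : ℕ} (c : ℕ → Fin m) (N : F.Ω → G)
    (hc : ∀ ω ω', (∀ i < r, F.X J ω (c i) = F.X J ω' (c i)) → N ω = N ω' →
      F.X J ω = F.X J ω') {c₀ δ δ' Eb En : ℝ}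
    (h1 : CH (P2 p (slam F W0)) Kz (fun e => ptr F J e.2) ≤ c₀)
    (h2 : ((J - W1 : ℕ) : ℝ) * Real.log 2 - δ ≤
      CH (P2 p (slam F W0)) (fun e => F.T e.2) (fun e => (slam F W1 e.2, (Kz e, e.1))))
    (h3 : ((W1 - W0 : ℕ) : ℝ) * Real.log 2 - δ' ≤
      CH (P2 p (slam F W0)) (fun e => F.T1 W1 e.2) (fun e => e.1))
    (h4 : CH (P2 p (slam F W0)) (fun e (i : Fin r) => F.X J e.1 (c i))
        (fun e => (Kz e, (F.T1 W1 e.2, (bal F W0 e.1, F.T e.1)))) ≤
      CH (P2 p (slam F W0)) (fun e (i : Fin r) => F.X J e.2 (c i))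
        (fun e => (F.T e.2, (Kz e, (F.T1 W1 e.2, (bal F W0 e.1, F.T e.1))))) + Eb)
    (h5 : CH (P2 p (slam F W0)) (fun e => N e.1)
        (fun e => ((fun (i : Fin r) => F.X J e.1 (c i)),
          (Kz e, (F.T1 W1 e.2, (bal F W0 e.1, F.T e.1))))) ≤ En) :
    CH (P2 p (slam F W0)) Kz (fun e => ptr F J e.1) ≤
      ((W1 - W0 : ℕ) : ℝ) * Real.log 2 + Eb + En + (m * Real.log 9 + c₀ + δ + δ') := by
  classical
  have hPl := P2_isLaw hp (slam F W0)
  have hpos : ∀ e : F.Ω × F.Ω, 0 < P2 p (slam F W0) e → slam F W0 e.1 = slam F W0 e.2 :=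
    fun e he => ((P2_pos hp e).1 he).2.2
  have hswap : Psh (P2 p (slam F W0)) Prod.swap (P2 p (slam F W0)) := by
    have := Pool.CLO37.cp_swap_psh p (slam F W0)
    rw [Pool.CLO37.cp_eq] at this
    exact this
  obtain ⟨P, hP⟩ : ∃ P, P = P2 p (slam F W0) := ⟨_, rfl⟩
  rw [← hP] at hPl hpos hswap h1 h2 h3 h4 h5 ⊢
  have hP0 := hPl.nonneg
  -- the variables
  obtain ⟨b, hb⟩ : ∃ b : F.Ω × F.Ω → (Fin m → ℤ) × F.ζ, b = fun e => bal F W0 e.1 := ⟨_, rfl⟩
  obtain ⟨wd, hwd⟩ : ∃ wd : F.Ω × F.Ω → ℕ, wd = fun e => F.T1 W1 e.2 := ⟨_, rfl⟩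
  obtain ⟨t1, ht1⟩ : ∃ t : F.Ω × F.Ω → ℕ, t = fun e => F.T e.1 := ⟨_, rfl⟩
  obtain ⟨T2, hT2⟩ : ∃ t : F.Ω × F.Ω → ℕ, t = fun e => F.T e.2 := ⟨_, rfl⟩
  obtain ⟨x1, hx1⟩ : ∃ x : F.Ω × F.Ω → Fin m → ℤ, x = fun e => F.X J e.1 := ⟨_, rfl⟩
  obtain ⟨x2, hx2⟩ : ∃ x : F.Ω × F.Ω → Fin m → ℤ, x = fun e => F.X J e.2 := ⟨_, rfl⟩
  obtain ⟨V1, hV1⟩ : ∃ x : F.Ω × F.Ω → Fin r → ℤ, x = fun e (i : Fin r) => F.X J e.1 (c i) :=
    ⟨_, rfl⟩
  obtain ⟨V2, hV2⟩ : ∃ x : F.Ω × F.Ω → Fin r → ℤ, x = fun e (i : Fin r) => F.X J e.2 (c i) :=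
    ⟨_, rfl⟩
  obtain ⟨N1, hN1⟩ : ∃ x : F.Ω × F.Ω → G, x = fun e => N e.1 := ⟨_, rfl⟩
  obtain ⟨Us, hUs⟩ : ∃ Us : F.Ω × F.Ω → ℕ × (((Fin m → ℤ) × F.ζ) × ℕ),
    Us = fun e => (wd e, (b e, t1 e)) := ⟨_, rfl⟩
  have hY : (fun e => (Kz e, (F.T1 W1 e.2, (bal F W0 e.1, F.T e.1)))) =
      fun e => (Kz e, Us e) := by
    rw [hUs, hwd, hb, ht1]
  have h4' : CH P V1 (fun e => (Kz e, Us e)) ≤ CH P V2 (fun e => (T2 e, (Kz e, Us e))) + Eb := by
    rw [hV1, hV2, hT2, hUs, hwd, hb, ht1]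
    exact h4
  have h5' : CH P N1 (fun e => (V1 e, (Kz e, Us e))) ≤ En := by
    rw [hN1, hV1, hUs, hwd, hb, ht1]
    exact h5
  -- same ball, same side information
  have hbb : ∀ e, 0 < P e → bal F W0 e.1 = bal F W0 e.2 := fun e he => bal_slam F W0 (hpos e he)
  -- step 0
  have a0 : CH P Kz (fun e => ptr F J e.1) ≤ m * Real.log 9 +
      CH P Kz (fun e => (b e, ptr F J e.1)) := by
    have t1 := CH_le_add hP0 Kz b (fun e => ptr F J e.1)
    have t2 := bal_few F (hW.trans hW1) hPl (fun e : F.Ω × F.Ω => e.1)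
    rw [← hb] at t2
    linarith
  -- the window of the second time
  have hwl : ∀ {R : Type} (W : F.Ω × F.Ω → R), (∀ e e', 0 < P e → 0 < P e' → W e = W e' →
      F.T e.1 = F.T e'.1) → CH P wd W ≤ ((W1 - W0 : ℕ) : ℝ) * Real.log 2 := by
    intro R W hW'
    have e0 : CH P wd W = CH P (fun e => wd e % 2 ^ (W1 - W0)) W := by
      refine CH_congr hP0 ?_ ?_ (fun _ _ _ _ h => h) (fun _ _ _ _ h => h)
      · intro e e' _ _ h
        have h1 : wd e = wd e' := (Prod.ext_iff.1 h).1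
        change wd e % _ = wd e' % _
        rw [h1]
      · intro e e' he he' h
        have h1 : wd e % 2 ^ (W1 - W0) = wd e' % 2 ^ (W1 - W0) := (Prod.ext_iff.1 h).1
        have h3 : F.T e.1 = F.T e'.1 := hW' e e' he he' (Prod.ext_iff.1 h).2
        have h4 : F.T1 W0 e.1 = F.T1 W0 e'.1 := by
          unfold Fam.T1
          rw [h3]
        have h5 : ∀ e, 0 < P e → F.T1 W0 e.1 = wd e / 2 ^ (W1 - W0) := by
          intro e he
          have h6 : F.T1 W0 e.1 = F.T1 W0 e.2 :=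
            (Prod.ext_iff.1 (Prod.ext_iff.1 (hpos e he)).2).2
          rw [h6, hwd]
          exact T1_div F hW hW1 e.2
        have h6 := h5 e he
        have h7 := h5 e' he'
        rw [← Nat.div_add_mod (wd e) (2 ^ (W1 - W0)), ← Nat.div_add_mod (wd e') (2 ^ (W1 - W0)),
          h1, ← h6, ← h7, h4]
    rw [e0]
    have e1 := CH_le_card hP0 hPl.sum_one (fun e => wd e % 2 ^ (W1 - W0))
      W (fun _ => Finset.range (2 ^ (W1 - W0)))
      (fun e _ => Finset.mem_range.2 (Nat.mod_lt _ (by positivity)))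
    rw [Ex_const hPl.sum_one, Finset.card_range] at e1
    push_cast at e1
    rwa [Real.log_pow] at e1
  -- step 1
  have a1 : CH P Kz (fun e => (b e, ptr F J e.1)) ≤ ((W1 - W0 : ℕ) : ℝ) * Real.log 2 +
      CH P Kz (fun e => (x1 e, Us e)) := by
    have s1 := CH_le_add hP0 Kz wd (fun e => (b e, ptr F J e.1))
    have s2 : CH P wd (fun e => (b e, ptr F J e.1)) ≤ ((W1 - W0 : ℕ) : ℝ) * Real.log 2 := by
      refine hwl _ fun e e' _ _ h => ?_
      have h2 : (F.X J e.1, F.W e.1) = (F.X J e'.1, F.W e'.1) := (Prod.ext_iff.1 h).2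
      exact (Prod.ext_iff.1 (Prod.ext_iff.1 h2).2).1
    have s3 : CH P Kz (fun e => (wd e, (b e, ptr F J e.1))) ≤
        CH P Kz (fun e => (x1 e, Us e)) := by
      refine CH_mono_cond hP0 fun e e' _ _ h => ?_
      have g1 := Prod.ext_iff.1 h
      have g2 := Prod.ext_iff.1 g1.2
      have g3 : (F.X J e.1, F.W e.1) = (F.X J e'.1, F.W e'.1) := g2.2
      have g4 := Prod.ext_iff.1 g3
      have g5 : F.T e.1 = F.T e'.1 := (Prod.ext_iff.1 g4.2).1
      rw [hx1, hUs, ht1]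
      exact Prod.ext g4.1 (Prod.ext g1.1 (Prod.ext g2.1 g5))
    linarith
  -- step 2
  have a2 : CH P Kz (fun e => (x1 e, Us e)) =
      CH P Kz Us + CH P x1 (fun e => (Kz e, Us e)) - CH P x1 Us := by
    have s1 := CH_chain hP0 Kz x1 Us
    have s2 := CH_chain hP0 x1 Kz Us
    have s3 : CH P (fun e => (Kz e, x1 e)) Us = CH P (fun e => (x1 e, Kz e)) Us :=
      Pool.MIC.CH_swl hP0 Kz x1 Us
    linarith
  -- step 3
  obtain ⟨Ts, hTs⟩ : ∃ Ts : F.Ω × F.Ω → ℕ × ((Fin m → ℤ) × F.ζ), Ts = fun e => (T2 e, b e) :=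
    ⟨_, rfl⟩
  have a3 : CH P Kz Ts + CH P x2 (fun e => (Kz e, Ts e)) ≤ c₀ + CH P x2 Ts := by
    have s1 := CH_chain hP0 Kz x2 Ts
    have s2 := CH_chain hP0 x2 Kz Ts
    have s3 : CH P (fun e => (Kz e, x2 e)) Ts = CH P (fun e => (x2 e, Kz e)) Ts :=
      Pool.MIC.CH_swl hP0 Kz x2 Ts
    have s4 : CH P Kz (fun e => (x2 e, Ts e)) ≤ CH P Kz (fun e => ptr F J e.2) := by
      refine CH_mono_cond hP0 fun e e' he he' h => ?_
      have g1 := Prod.ext_iff.1 h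
      rw [hTs] at g1
      have g2 := Prod.ext_iff.1 g1.2
      have g3 : F.X J e.2 = F.X J e'.2 := by
        have g4 : x2 e = x2 e' := g1.1
        rw [hx2] at g4
        exact g4
      have g4 : F.T e.2 = F.T e'.2 := by
        have g5 : T2 e = T2 e' := g2.1
        rw [hT2] at g5
        exact g5
      have g5 : F.Z e.2 = F.Z e'.2 := by
        have g6 : b e = b e' := g2.2
        rw [hb] at g6
        have g7 : bal F W0 e.1 = bal F W0 e'.1 := g6
        rw [hbb e he, hbb e' he'] at g7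
        exact (Prod.ext_iff.1 g7).2
      exact Prod.ext g3 (Prod.ext g4 g5)
    linarith
  -- step 4
  have a4 : CH P Kz Us ≤ CH P Kz Ts + δ := by
    obtain ⟨Wb, hWb⟩ : ∃ Wb : F.Ω × F.Ω → ℕ × ((Fin m → ℤ) × F.ζ), Wb = fun e => (wd e, b e) :=
      ⟨_, rfl⟩
    have s0 : CH P Kz Us ≤ CH P Kz Wb := by
      refine CH_mono_cond hP0 fun e e' _ _ h => ?_
      rw [hUs] at h
      have g1 := Prod.ext_iff.1 h
      rw [hWb]
      exact Prod.ext g1.1 (Prod.ext_iff.1 g1.2).1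
    have s1 := CH_chain hP0 Kz T2 Wb
    have s2 := CH_chain hP0 T2 Kz Wb
    have s3 : CH P (fun e => (Kz e, T2 e)) Wb = CH P (fun e => (T2 e, Kz e)) Wb :=
      Pool.MIC.CH_swl hP0 Kz T2 Wb
    have s4 : CH P Kz (fun e => (T2 e, Wb e)) ≤ CH P Kz Ts := by
      refine CH_mono_cond hP0 fun e e' _ _ h => ?_
      have g1 := Prod.ext_iff.1 h
      rw [hWb] at g1
      rw [hTs]
      exact Prod.ext g1.1 (Prod.ext_iff.1 g1.2).2
    have s5 : CH P T2 Wb ≤ ((J - W1 : ℕ) : ℝ) * Real.log 2 := by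
      have e0 : CH P T2 Wb = CH P (fun e => T2 e % 2 ^ (J - W1)) Wb := by
        refine CH_congr hP0 ?_ ?_ (fun _ _ _ _ h => h) (fun _ _ _ _ h => h)
        · intro e e' _ _ h
          have h1 : T2 e = T2 e' := (Prod.ext_iff.1 h).1
          change T2 e % _ = T2 e' % _
          rw [h1]
        · intro e e' he he' h
          have h1 : T2 e % 2 ^ (J - W1) = T2 e' % 2 ^ (J - W1) := (Prod.ext_iff.1 h).1
          have h2 : Wb e = Wb e' := (Prod.ext_iff.1 h).2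
          rw [hWb] at h2
          have h3 : wd e = wd e' := (Prod.ext_iff.1 h2).1
          rw [hwd] at h3
          have h4 : F.T e.2 / 2 ^ (J - W1) = F.T e'.2 / 2 ^ (J - W1) := h3
          rw [hT2] at h1 ⊢
          change F.T e.2 = F.T e'.2
          have h5 : F.T e.2 % 2 ^ (J - W1) = F.T e'.2 % 2 ^ (J - W1) := h1
          rw [← Nat.div_add_mod (F.T e.2) (2 ^ (J - W1)),
            ← Nat.div_add_mod (F.T e'.2) (2 ^ (J - W1)), h4, h5]
      rw [e0]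
      have e1 := CH_le_card hP0 hPl.sum_one (fun e => T2 e % 2 ^ (J - W1))
        Wb (fun _ => Finset.range (2 ^ (J - W1)))
        (fun e _ => Finset.mem_range.2 (Nat.mod_lt _ (by positivity)))
      rw [Ex_const hPl.sum_one, Finset.card_range] at e1
      push_cast at e1
      rwa [Real.log_pow] at e1
    have s6 : CH P (fun e => F.T e.2) (fun e => (slam F W1 e.2, (Kz e, e.1))) ≤
        CH P T2 (fun e => (Kz e, Wb e)) := by
      rw [hT2]
      refine CH_mono_cond hP0 fun e e' _ _ h => ?_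
      have g1 := Prod.ext_iff.1 h
      have g2 := Prod.ext_iff.1 g1.2
      have g3 : F.T1 W1 e.2 = F.T1 W1 e'.2 := (Prod.ext_iff.1 (Prod.ext_iff.1 g1.1).2).2
      have g4 : e.1 = e'.1 := g2.2
      refine Prod.ext g2.1 ?_
      rw [hWb, hwd, hb]
      exact Prod.ext g3 (by
        change bal F W0 e.1 = bal F W0 e'.1
        rw [g4])
    linarith
  -- step 5
  have a5 : CH P x2 Ts ≤ CH P x1 Us + δ' := by
    have s0 : CH P x2 Ts = CH P x1 (fun e => (t1 e, b e)) := by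
      have e1 := Psh.CH_eq hswap (fun e => F.X J e.2) (fun e => (F.T e.2, bal F W0 e.2))
      have e2 : CH P x2 Ts = CH P (fun e => F.X J e.2) (fun e => (F.T e.2, bal F W0 e.2)) := by
        rw [hx2, hTs, hT2, hb]
        refine CH_congr hP0 (fun _ _ _ _ h => (Prod.ext_iff.1 h).1)
          (fun _ _ _ _ h => (Prod.ext_iff.1 h).1) ?_ ?_
        · intro e e' he he' h
          have g1 := Prod.ext_iff.1 h
          have g2 : bal F W0 e.1 = bal F W0 e'.1 := g1.2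
          rw [hbb e he, hbb e' he'] at g2
          exact Prod.ext g1.1 g2
        · intro e e' he he' h
          have g1 := Prod.ext_iff.1 h
          have g2 : bal F W0 e.2 = bal F W0 e'.2 := g1.2
          rw [← hbb e he, ← hbb e' he'] at g2
          exact Prod.ext g1.1 g2
      rw [e2, hx1, ht1, hb]
      exact e1.symm
    obtain ⟨tb, htb⟩ : ∃ tb : F.Ω × F.Ω → ℕ × ((Fin m → ℤ) × F.ζ), tb = fun e => (t1 e, b e) :=
      ⟨_, rfl⟩
    rw [← htb] at s0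
    have s1 := CH_chain hP0 wd x1 tb
    have s2 := CH_chain hP0 x1 wd tb
    have s3 : CH P (fun e => (wd e, x1 e)) tb = CH P (fun e => (x1 e, wd e)) tb :=
      Pool.MIC.CH_swl hP0 wd x1 tb
    have s4 : CH P wd tb ≤ ((W1 - W0 : ℕ) : ℝ) * Real.log 2 := by
      refine hwl _ fun e e' _ _ h => ?_
      rw [htb, ht1] at h
      exact (Prod.ext_iff.1 h).1
    have s5 : CH P (fun e => F.T1 W1 e.2) (fun e => e.1) ≤ CH P wd (fun e => (x1 e, tb e)) := by
      rw [hwd]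
      refine CH_mono_cond hP0 fun e e' _ _ h => ?_
      have g1 : e.1 = e'.1 := h
      rw [hx1, htb, ht1, hb]
      change (F.X J e.1, (F.T e.1, bal F W0 e.1)) = (F.X J e'.1, (F.T e'.1, bal F W0 e'.1))
      rw [g1]
    have s6 : CH P x1 (fun e => (wd e, tb e)) ≤ CH P x1 Us := by
      refine le_of_eq (CH_congr hP0 (fun _ _ _ _ h => (Prod.ext_iff.1 h).1)
          (fun _ _ _ _ h => (Prod.ext_iff.1 h).1) ?_ ?_)
      · intro e e' _ _ h
        rw [htb] at h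
        have g1 := Prod.ext_iff.1 h
        have g2 := Prod.ext_iff.1 g1.2
        rw [hUs]
        exact Prod.ext g1.1 (Prod.ext g2.2 g2.1)
      · intro e e' _ _ h
        rw [hUs] at h
        have g1 := Prod.ext_iff.1 h
        have g2 := Prod.ext_iff.1 g1.2
        rw [htb]
        exact Prod.ext g1.1 (Prod.ext g2.2 g2.1)
    linarith
  -- step 6
  have a6 : CH P x1 (fun e => (Kz e, Us e)) ≤ CH P V1 (fun e => (Kz e, Us e)) +
      CH P N1 (fun e => (V1 e, (Kz e, Us e))) := by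
    rw [← CH_chain hP0]
    refine CH_mono_left hP0 fun e e' _ _ h => ?_
    have g1 := Prod.ext_iff.1 (Prod.ext_iff.1 h).1
    have g2 : N1 e = N1 e' := g1.1
    have g3 : V1 e = V1 e' := g1.2
    rw [hN1] at g2
    rw [hV1] at g3
    rw [hx1]
    exact hc _ _ (fun i hi => congrFun g3 ⟨i, hi⟩) g2
  -- step 7
  have a7 : CH P V2 (fun e => (T2 e, (Kz e, Us e))) ≤ CH P x2 (fun e => (Kz e, Ts e)) := by
    have s1 : CH P V2 (fun e => (T2 e, (Kz e, Us e))) ≤ CH P V2 (fun e => (Kz e, Ts e)) := by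
      refine CH_mono_cond hP0 fun e e' _ _ h => ?_
      have g1 := Prod.ext_iff.1 h
      have g2 := Prod.ext_iff.1 g1.2
      rw [hUs] at g2
      have g3 := Prod.ext_iff.1 (Prod.ext_iff.1 g2.2).2
      rw [hTs]
      exact Prod.ext g2.1 (Prod.ext g1.1 g3.1)
    refine s1.trans (CH_mono_left hP0 fun e e' _ _ h => ?_)
    have g1 : x2 e = x2 e' := (Prod.ext_iff.1 h).1
    rw [hx2] at g1
    rw [hV2]
    funext i
    exact congrFun g1 (c i)
  linarith

/-- A tuple of variables. -/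
theorem ch_tup {Ω β γ : Type} [Fintype Ω] {p : Ω → ℝ} (hp : ∀ ω, 0 ≤ p ω) (f : ℕ → Ω → β)
    (Y : Ω → γ) (En : ℕ → ℝ) (k : ℕ) (h : ∀ t < k, CH p (f t) Y ≤ En t) :
    CH p (fun ω (t : Fin k) => f t ω) Y ≤ ∑ t ∈ range k, En t := by
  induction k with
  | zero =>
    rw [Finset.sum_range_zero]
    exact (CH_eq_zero hp fun ω ω' _ _ _ => funext fun t => t.elim0).le
  | succ k ih =>
    have h1 := ih fun t ht => h t (ht.trans (Nat.lt_succ_self k))
    have h2 := h k (Nat.lt_succ_self k)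
    have h3 := CH_subadd hp (fun ω (t : Fin k) => f t ω) (f k) Y
    rw [Finset.sum_range_succ]
    refine (CH_mono_left hp (X' := fun ω => ((fun (t : Fin k) => f t ω), f k ω))
      fun ω ω' _ _ hh => ?_).trans (h3.trans (add_le_add h1 h2))
    have g1 := (Prod.ext_iff.1 hh).1
    have g2 := Prod.ext_iff.1 g1
    funext t
    rcases Nat.lt_or_ge t k with h4 | h4
    · exact congrFun g2.1 ⟨t, h4⟩
    · have h5 : (t : ℕ) = k := by omega
      rw [h5]
      exact g2.2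

theorem fin_low (k : ℕ) (f : ℕ → ℝ) (h : ∀ t < k, 0 < f t) :
    ∃ x : ℝ, 0 < x ∧ ∀ t < k, x ≤ f t := by
  induction k with
  | zero => exact ⟨1, one_pos, fun t ht => absurd ht (Nat.not_lt_zero t)⟩
  | succ k ih =>
    obtain ⟨x, hx, h1⟩ := ih fun t ht => h t (ht.trans (Nat.lt_succ_self k))
    refine ⟨min x (f k), lt_min hx (h k (Nat.lt_succ_self k)), fun t ht => ?_⟩
    rcases Nat.lt_or_ge t k with h4 | h4
    · exact (min_le_left _ _).trans (h1 t h4)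
    · have h5 : t = k := by omega
      rw [h5]
      exact min_le_right _ _

theorem fin_up (k : ℕ) (f : ℕ → ℝ) : ∃ x : ℝ, 1 ≤ x ∧ ∀ t < k, f t ≤ x := by
  induction k with
  | zero => exact ⟨1, le_rfl, fun t ht => absurd ht (Nat.not_lt_zero t)⟩
  | succ k ih =>
    obtain ⟨x, hx, h1⟩ := ih
    refine ⟨max x (f k), hx.trans (le_max_left _ _), fun t ht => ?_⟩
    rcases Nat.lt_or_ge t k with h4 | h4
    · exact (h1 t h4).trans (le_max_left _ _)
    · have h5 : t = k := by omega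
      rw [h5]
      exact le_max_right _ _

/-- The list of the base with the target `t` on the top. -/
def tgt (c : ℕ → Fin m) (r t : ℕ) : ℕ → Fin m := fun l => if l < r then c l else c (r + t)

theorem tgt_lt (c : ℕ → Fin m) {r t l : ℕ} (h : l < r) : tgt c r t l = c l := if_pos h

theorem tgt_r (c : ℕ → Fin m) (r t : ℕ) : tgt c r t r = c (r + t) := if_neg (lt_irrefl r)

theorem LDat.Ok.sub {F : Fam m J} {r : ℕ} {d : LDat F r} {c : ℕ → Fin m} {D K W : ℕ}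
    {g : ℕ → ℝ} {η φ : ℝ} {B B' : F.Ω → Prop} (h : d.Ok c D K W g η φ B) (hB : Sub B' B) :
    d.Ok c D K W g η φ B' :=
  { h with
    lab := h.lab.sub hB
    eqn := fun ω hω => h.eqn ω (hB ω hω)
    ρ_ge := fun ω hω => h.ρ_ge ω (hB ω hω)
    ρ_le := fun ω hω => h.ρ_le ω (hB ω hω) }

/-- **The labels of several targets**, on one event. -/
theorem tup_ev {S : PCl m} {c : ℕ → ℕ → Fin m} {r D : ℕ} {K : ℕ → ℕ} {w φ η : ℝ} {g : ℕ → ℝ}
    (k : ℕ) (h : ∀ t < k, ∃ κ : ℝ, 0 < κ ∧ Bas S (fun J F A => ∃ (B : F.Ω → Prop) (d : LDat F r),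
      Sub B A ∧ κ * Pe F.p A ≤ Pe F.p B ∧ d.Ok (c t) D (K t) ⌊w * J⌋₊ g η φ B)) :
    ∃ κ : ℝ, 0 < κ ∧ Bas S (fun J F A => ∃ B : F.Ω → Prop, Sub B A ∧
      κ * Pe F.p A ≤ Pe F.p B ∧ ∀ t < k, ∃ d : LDat F r,
        d.Ok (c t) D (K t) ⌊w * J⌋₊ g η φ B) := by
  induction k with
  | zero => exact ⟨1, one_pos, 1, one_pos, 0, fun J _ F A _ => ⟨A, fun _ h => h, by rw [one_mul],
      fun t ht => absurd ht (Nat.not_lt_zero t)⟩⟩
  | succ k ih =>
    obtain ⟨κ, hκ, h1⟩ := ih fun t ht => h t (ht.trans (Nat.lt_succ_self k))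
    obtain ⟨κ', hκ', h2⟩ := h k (Nat.lt_succ_self k)
    refine ⟨κ * κ', mul_pos hκ hκ', (h1.and (bas_frc h2 hκ)).mono 0 ?_⟩
    rintro J - F A ⟨⟨B, a1, a2, a3⟩, h3⟩
    obtain ⟨B', d, b1, b2, b3⟩ := h3 B a1 a2
    refine ⟨B', fun ω hω => a1 ω (b1 ω hω), ?_, fun t ht => ?_⟩
    · calc κ * κ' * Pe F.p A = κ' * (κ * Pe F.p A) := by ring
        _ ≤ κ' * Pe F.p B := mul_le_mul_of_nonneg_left a2 hκ'.le
        _ ≤ _ := b2
    · rcases Nat.lt_or_ge t k with h4 | h4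
      · obtain ⟨d', h5⟩ := a3 t h4
        exact ⟨d', h5.sub b1⟩
      · have h5 : t = k := by omega
        rw [h5]
        exact ⟨d, b3⟩

/-- **(H2)** for the base `c 0, .., c (r - 1)` with `k` targets over it. -/
theorem h2G {S : PCl m}
    (hmem : ∀ (τ : ℝ) (J : ℕ) (F : Fam m J) (A : F.Ω → Prop), S.St τ J F A →
      F.Tr ∧ F.Tm (τ * J) ∧ F.Rb (τ * J) ∧ Real.exp (-(τ * J)) ≤ Pe F.p A)
    {c : ℕ → Fin m} {r k D : ℕ} {w0 w1 : ℝ} {g : ℕ → ℝ} (hKP : KP r)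
    (hex : ∀ ρ : ℝ, 0 < ρ → ExvY S w1 (fun J F ω (i : Fin r) => F.X J ω (c i))
      ((∑ l ∈ range r, (1 - g l)) - ρ))
    {η : ℝ} (hη0 : 0 ≤ η) (hw0 : 0 ≤ w0) (hw01 : w0 < w1) (hw1η : w1 + η < 1)
    (hc : ∀ i, ∃ l < r + k, c l = i) (heq : ∀ t < k, EqN S (tgt c r t) r D w1 g η) :
    Pool.PLN.H2S S w0 w1 ((r + 1 + k * D) * Real.log 2 * (w1 - w0) + k * η) := by
  classical
  intro ρ hρ
  have hw1 : w1 < 1 := by linarith
  have hl2 : 0 < Real.log 2 := Real.log_pos one_lt_two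
  have hl2' : Real.log 2 ≤ 1 := by
    have := Real.log_two_lt_d9
    linarith
  have hl2'' : 1 / 2 ≤ Real.log 2 := by
    have := Real.log_two_gt_d9
    linarith
  have hD0 : (0 : ℝ) ≤ D := Nat.cast_nonneg D
  have hk0 : (0 : ℝ) ≤ k := Nat.cast_nonneg k
  -- the constants
  have hK' : ∀ t, ∃ K : ℕ, t < k → ∀ φ : ℝ, 0 < φ → ∃ κ₀ : ℝ, 0 < κ₀ ∧ Bas S (fun J F A =>
      ∃ (B : F.Ω → Prop) (d : LDat F r), Sub B A ∧ κ₀ * Pe F.p A ≤ Pe F.p B ∧
        d.Ok (tgt c r t) D K ⌊w1 * J⌋₊ g η φ B) := by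
    intro t
    by_cases ht : t < k
    · obtain ⟨K, hK⟩ := heq t ht
      exact ⟨K, fun _ => hK⟩
    · exact ⟨0, fun h => absurd h ht⟩
  choose K hK using hK'
  choose C hC hfew using fun t => few_law r D (K t)
  choose Ĉ hĈ hent using fun t => few_ent r D (hC t)
  obtain ⟨Cm, hCm1, hCm⟩ := fin_up k C
  obtain ⟨Ĉm, hĈm1, hĈm⟩ := fin_up k Ĉ
  obtain ⟨h', hh'⟩ : ∃ h' : ℝ, h' = min (ρ / (16 * ((k + 1) * (2 * D + 1))))
    ((1 - η - w1) / 2) := ⟨_, rfl⟩
  have hh'0 : 0 < h' := by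
    rw [hh']
    exact lt_min (by positivity) (by linarith)
  have hh'ρ : ((k : ℝ) + 1) * ((2 * (D : ℝ) + 1) * h') ≤ ρ / 16 := by
    have h1 : h' ≤ ρ / (16 * ((k + 1) * (2 * D + 1))) := by
      rw [hh']
      exact min_le_left _ _
    rw [le_div_iff₀ (by positivity)] at h1
    linarith
  have hh'w : h' ≤ (1 - η - w1) / 2 := by
    rw [hh']
    exact min_le_right _ _
  obtain ⟨β, hβ⟩ : ∃ β : ℝ, β = ρ / (32 * (k + 1)) := ⟨_, rfl⟩
  have hβ0 : 0 < β := by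
    rw [hβ]
    positivity
  have hβk : ((k : ℝ) + 1) * (2 * β) = ρ / 16 := by
    rw [hβ]
    field_simp
    ring
  obtain ⟨δ₃, hδ₃⟩ : ∃ δ₃ : ℝ, δ₃ = β * h' / (12 * Cm) := ⟨_, rfl⟩
  have hδ₃0 : 0 < δ₃ := by
    rw [hδ₃]
    positivity
  have hext : ∀ t, ∀ ρ : ℝ, 0 < ρ → ExvY S w1 (fun J F ω (i : Fin r) => F.X J ω (tgt c r t i))
      ((∑ l ∈ range r, (1 - g l)) - ρ) := by
    intro t ρ hρ
    have e1 : (fun (J : ℕ) (F : Fam m J) (ω : F.Ω) (i : Fin r) => F.X J ω (tgt c r t i)) =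
        fun J F ω (i : Fin r) => F.X J ω (c i) := by
      funext J F ω i
      rw [tgt_lt c i.2]
    rw [e1]
    exact hex ρ hρ
  choose N₀ φ₁ hφ₁ hmx using fun t => mxc_w r hmem (c := tgt c r t) (g := g)
    (hw0.trans hw01.le) hw1.le (hext t) hδ₃0
  obtain ⟨φ₂, hφ₂, hφ₂'⟩ := fin_low k φ₁ fun t _ => hφ₁ t
  obtain ⟨φ, hφ⟩ : ∃ φ : ℝ, φ = min φ₂ (ρ / (16 * ((k + 1) * Ĉm))) := ⟨_, rfl⟩
  have hφ0 : 0 < φ := by
    rw [hφ]
    exact lt_min hφ₂ (by positivity)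
  have hφφ : ∀ t < k, φ ≤ φ₁ t := by
    intro t ht
    rw [hφ]
    exact (min_le_left _ _).trans (hφ₂' t ht)
  have hφρ : ((k : ℝ) + 1) * (Ĉm * φ) ≤ ρ / 16 := by
    have h1 : φ ≤ ρ / (16 * ((k + 1) * Ĉm)) := by
      rw [hφ]
      exact min_le_right _ _
    rw [le_div_iff₀ (by positivity)] at h1
    linarith
  obtain ⟨κ₀, hκ₀, hBas⟩ := tup_ev (S := S) (c := fun t => tgt c r t) (r := r) (D := D) (K := K)
    (w := w1) (φ := φ) (η := η) (g := g) k (fun t ht => hK t ht φ hφ0)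
  have hη₁0 : 0 < β / 3 := by positivity
  obtain ⟨N, hN⟩ := Pool.NJ34C.parts κ₀ (β / 3) hκ₀ hη₁0
  obtain ⟨δ₄, hδ₄⟩ : ∃ δ₄ : ℝ, δ₄ = β * h' / (6 * Cm * (N + 1)) := ⟨_, rfl⟩
  have hN0 : (0 : ℝ) ≤ N := Nat.cast_nonneg N
  have hδ₄0 : 0 < δ₄ := by
    rw [hδ₄]
    positivity
  obtain ⟨θ, hθ, J₁, hbk⟩ := bk_gen hKP (ρ / 16) (by positivity)
  obtain ⟨δ₅, hδ₅⟩ : ∃ δ₅ : ℝ, δ₅ = min (ρ / 32) (θ / 2) := ⟨_, rfl⟩
  have hδ₅0 : 0 < δ₅ := by
    rw [hδ₅]
    exact lt_min (by positivity) (by positivity)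
  have hδ₅ρ : δ₅ ≤ ρ / 32 := by
    rw [hδ₅]
    exact min_le_left _ _
  have hδ₅θ : δ₅ ≤ θ / 2 := by
    rw [hδ₅]
    exact min_le_right _ _
  have hpos : Bas S (fun J F A => 0 < Pe F.p A) :=
    ⟨1, one_pos, 0, fun J _ F A h => lt_of_lt_of_le (Real.exp_pos _) (hmem _ J F A h).2.2.2⟩
  have b1 := bas_frc hBas hη₁0
  have b2 := bas_frc ((Bas.all k fun t _ => hmx t).and (tdg_w hmem w1 hδ₃0)) (mul_pos hκ₀ hη₁0)
  have b3 := Pool.NJ34C.sgn_few hmem hw0 hw01 hw1.le hθ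
  have b4 := Pool.NJ34C.tim_few hmem hw0 hw01.le hw1.le hδ₅0
  have b5 := Pool.NJ34C.win_few hmem hw0 hw01.le hw1.le hδ₅0
  -- the large numbers
  obtain ⟨ℓN, hℓN⟩ : ∃ ℓN : ℝ, ℓN = Real.log (N + 1) := ⟨_, rfl⟩
  have hℓN0 : 0 ≤ ℓN := by
    rw [hℓN]
    exact Real.log_nonneg (by linarith)
  obtain ⟨cst, hcst⟩ : ∃ cst : ℝ, cst = (r + 1 + k * D) + k * (1 + Ĉm) + m * Real.log 9 +
    2 * ℓN := ⟨_, rfl⟩
  obtain ⟨J₂, hJ₂⟩ := exists_nat_ge (16 * cst / ρ)
  obtain ⟨J₃, hJ₃⟩ := exists_nat_ge (Cm / h')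
  obtain ⟨J₄, hJ₄⟩ := exists_nat_ge (6 * Cm * (N + 1) / (h' * β))
  obtain ⟨J₅, hJ₅⟩ := exists_nat_ge (2 * ℓN / θ)
  refine (((b1.and b2).and (hpos.and (tdg_w hmem w0 hδ₄0))).and (b3.and (b4.and b5))).mono
    (max (max (max J₁ J₂) (max J₃ J₄)) (max J₅ 3)) ?_
  rintro J hJ F A ⟨⟨⟨q1, q2⟩, hA, q3⟩, q4, q5, q6⟩
  intro V z z' hz
  obtain ⟨W0, hW0⟩ : ∃ W, W = ⌊w0 * J⌋₊ := ⟨_, rfl⟩
  obtain ⟨W1, hW1⟩ : ∃ W, W = ⌊w1 * J⌋₊ := ⟨_, rfl⟩
  have hJ1 : J₁ ≤ J := (le_max_left _ _).trans ((le_max_left _ _).trans ((le_max_left _ _).trans hJ))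
  have hJ2 : (J₂ : ℝ) ≤ J := by
    exact_mod_cast (le_max_right J₁ _).trans ((le_max_left _ _).trans ((le_max_left _ _).trans hJ))
  have hJ3 : (J₃ : ℝ) ≤ J := by
    exact_mod_cast (le_max_left J₃ J₄).trans ((le_max_right _ _).trans ((le_max_left _ _).trans hJ))
  have hJ4 : (J₄ : ℝ) ≤ J := by
    exact_mod_cast (le_max_right J₃ _).trans ((le_max_right _ _).trans ((le_max_left _ _).trans hJ))
  have hJ5 : (J₅ : ℝ) ≤ J := by
    exact_mod_cast (le_max_left J₅ _).trans ((le_max_right _ _).trans hJ)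
  have hJ6 : (3 : ℝ) ≤ J := by
    exact_mod_cast (le_max_right J₅ _).trans ((le_max_right _ _).trans hJ)
  have hJ0 : (0 : ℝ) < J := by linarith
  have hJcst : cst ≤ ρ / 16 * J := by
    have h1 := hJ₂.trans hJ2
    rw [div_le_iff₀ hρ] at h1
    linarith
  have hJC : Cm ≤ h' * J := by
    have h1 := hJ₃.trans hJ3
    rw [div_le_iff₀ hh'0] at h1
    linarith
  have hJN : 6 * Cm * (N + 1) ≤ h' * β * J := by
    have h1 := hJ₄.trans hJ4
    rw [div_le_iff₀ (by positivity)] at h1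
    linarith
  have hJθ : 2 * ℓN ≤ θ * J := by
    have h1 := hJ₅.trans hJ5
    rw [div_le_iff₀ hθ] at h1
    linarith
  have hW : W0 ≤ W1 := by
    rw [hW0, hW1]
    exact Nat.floor_le_floor (mul_le_mul_of_nonneg_right hw01.le hJ0.le)
  have hWw : (W1 : ℝ) ≤ w1 * J := by
    rw [hW1]
    exact Nat.floor_le (mul_nonneg (hw0.trans hw01.le) hJ0.le)
  have hWw0 : w0 * J < W0 + 1 := by
    rw [hW0]
    exact Nat.lt_floor_add_one _
  have hW1J : W1 ≤ J := by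
    have : (W1 : ℝ) ≤ J := hWw.trans (mul_le_of_le_one_left hJ0.le hw1.le)
    exact_mod_cast this
  have hWd : ((W1 - W0 : ℕ) : ℝ) ≤ (w1 - w0) * J + 1 := by
    rw [Nat.cast_sub hW]
    linarith
  obtain ⟨pA, hpA⟩ : ∃ q, q = Pool.Agent.H49.Ent.cond F.p A True := ⟨_, rfl⟩
  have hlA : IsLaw pA := by
    rw [hpA]
    exact isLaw_cond F.isLaw hA
  change CH (P2 (Pool.Agent.H49.Ent.cond F.p A True) (slam F ⌊w0 * J⌋₊)) _ _ ≤ _
  rw [← hW0, ← hpA]
  rw [← hW1] at hz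
  -- the parts
  obtain ⟨j, hjN, hparts, hrest⟩ := hN F.isLaw.nonneg A
    (fun B' => κ₀ * (β / 3) * Pe F.p A ≤ Pe F.p B' ∧ ∀ t < k, ∃ d : LDat F r,
      d.Ok (tgt c r t) D (K t) W1 g η φ B') (by
      intro B hB hP
      obtain ⟨B', h1, h2, h3⟩ := q1 B hB hP
      rw [← hW1] at h3
      refine ⟨B', h1, h2, ?_, h3⟩
      refine le_trans ?_ h2
      rw [mul_assoc]
      exact mul_le_mul_of_nonneg_left hP hκ₀.le)
  have hdd : ∀ t i, ∃ d : LDat F r, (t < k → i < N → (∃ ω, A ω ∧ j ω = i) →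
      d.Ok (tgt c r t) D (K t) W1 g η φ (fun ω => A ω ∧ j ω = i) ∧
      κ₀ * (β / 3) * Pe F.p A ≤ Pe F.p (fun ω => A ω ∧ j ω = i)) ∧
      ∀ ω ω', (A ω ∧ j ω = i) → (A ω' ∧ j ω' = i) → slam F W1 ω = slam F W1 ω' →
        d.z (ptr F J ω) = d.z (ptr F J ω') := by
    intro t i
    by_cases hi : t < k ∧ i < N ∧ ∃ ω, A ω ∧ j ω = i
    · rcases hparts i hi.2.1 with h1 | h1
      · obtain ⟨h2, h3'⟩ := h1
        obtain ⟨d, h3⟩ := h3' t hi.1
        refine ⟨d, fun _ _ _ => ⟨h3, h2⟩, fun ω ω' hω hω' h4 => ?_⟩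
        rw [h3.lab.cls ω hω, h3.lab.cls ω' hω', h4]
      · obtain ⟨ω, hω⟩ := hi.2.2
        exact absurd hω (h1 ω)
    · exact ⟨default, fun h0 h1 h2 => absurd ⟨h0, h1, h2⟩ hi, fun _ _ _ _ _ => rfl⟩
  choose dd hdd hddz using hdd
  -- the pairs
  have hlP := P2_isLaw hlA (slam F W0)
  obtain ⟨Kz, hKz⟩ : ∃ Kz : F.Ω × F.Ω → (∀ t : Fin k, Σ i, (dd t i).V) × V, Kz = fun e =>
    (fun t : Fin k => ⟨j e.2, (dd t (j e.2)).z (ptr F J e.2)⟩, z (ptr F J e.2)) := ⟨_, rfl⟩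
  -- the bad pairs
  have hbad : ∀ t < k, Pe (P2 pA (slam F W0)) (fun e => ¬ Gde (dd t) (tgt c r t) D W0 W1 N (C t)
      (h' * J) j (fun i ω => A ω ∧ j ω = i) e) ≤ β := by
    intro t ht
    have hCt := hCm t ht
    have hCt1 := hC t
    have h1 := bad_le hA (dd t) (tgt c r t) (D := D) (W0 := W0) (W1 := W1) (N := N) (C := C t)
      (h := h' * J) (a := C t * (1 + δ₃ * J + δ₃ * J) / (h' * J))
      (b := C t * (1 + δ₄ * J) / (h' * J)) (η₁ := β / 3) j hjN (by positivity) hrest (by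
      intro i hi
      by_cases hne : ∃ ω, A ω ∧ j ω = i
      · obtain ⟨hOk, hmass⟩ := hdd t i ht hi hne
        obtain ⟨hm', ht1⟩ := q2 (fun ω => A ω ∧ j ω = i) (fun ω h => h.1) hmass
        have hB : 0 < Pe F.p (fun ω => A ω ∧ j ω = i) := lt_of_lt_of_le (by positivity) hmass
        have hlB := isLaw_cond F.isLaw hB
        obtain ⟨N', -, hMx⟩ := hm' t ht (dd t i).P₀ (dd t i).g (dd t i).sg (K t) (dd t i).L
          (dd t i).V (dd t i).z (dd t i).z' (dd t i).P (fun l hl => by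
            have h2 := hOk.g_ge l hl
            have h3 : φ * J ≤ φ₁ t * J := mul_le_mul_of_nonneg_right (hφφ t ht) hJ0.le
            linarith) (by rw [← hW1]; exact fun i hi => (hOk.wds i hi).2) hOk.P_le
          (by rw [← hW1]; exact hOk.lab)
        rw [← hW1] at hMx
        have hful := hMx.ful (zx := (dd t i).z) (zl := (dd t i).z')
          (fun ω hω => hOk.lab.cls ω (cond_supp (B := fun ω => A ω ∧ j ω = i) hω))
        rw [Ex_const hlB.sum_one] at hful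
        have hT1 := ht1 (dd t i).P₀ (by rw [← hW1]; exact hOk.W_le) hOk.P_le
        rw [← hW1] at hT1
        have hT0 := q3 (dd t i).P₀ (by rw [← hW0]; exact hW.trans hOk.W_le) hOk.P_le
        rw [← hW0] at hT0
        have h2 := hfew t (c := tgt c r t) (W0 := W0) (A := A) (dd t i).Qh (dd t i).ρ
          (h := h' * J) (X := (dd t i).X D (C t)) (μ := δ₃ * J) (δ₁ := δ₃ * J) (δ₂ := δ₄ * J)
          (fun ω h => h.1) hA hB
          hOk.lab hOk.L_nn hW hOk.W_le hOk.P_le hOk.g_r hOk.wds hOk.eqn hOk.ρ_ge hful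
          (by positivity) hT1 hT0 (by positivity) (by positivity) (hCt.trans hJC) (by
            have h3 : (1 - η - w1) * J ≤ ((dd t i).P₀ - W1 : ℕ) := by
              rw [Nat.cast_sub hOk.W_le]
              have h4 := hOk.P_ge
              have h5 : (0 : ℝ) ≤ (dd t i).sg := Nat.cast_nonneg _
              linarith
            have h4 : ((2 ^ ((dd t i).P₀ - W1) : ℕ) : ℝ) =
                Real.exp (((dd t i).P₀ - W1 : ℕ) * Real.log 2) := by
              rw [Real.exp_nat_mul, Real.exp_log (by norm_num)]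
              push_cast
              rfl
            rw [h4]
            refine Real.exp_le_exp.2 ?_
            have h5 : h' * J ≤ (1 - η - w1) / 2 * J := mul_le_mul_of_nonneg_right hh'w hJ0.le
            have h6 : (1 - η - w1) * J * (1 / 2) ≤ ((dd t i).P₀ - W1 : ℕ) * Real.log 2 := by
              refine mul_le_mul h3 hl2'' (by norm_num) ?_
              exact Nat.cast_nonneg _
            linarith) le_rfl
        rw [← hpA] at h2
        rw [← hpA]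
        exact h2
      · have h2 : Pe (P2 (Pool.Agent.H49.Ent.cond F.p A True) (slam F W0))
            (fun e => (A e.2 ∧ j e.2 = i) ∧ ¬ (dd t i).Gd (tgt c r t) D W0 W1 (C t) (h' * J)
              ((dd t i).z (ptr F J e.2)) (ptr F J e.1)) = 0 := by
          rw [Pe_eq]
          refine Finset.sum_eq_zero fun e _ => ?_
          rw [if_neg]
          exact fun h => hne ⟨e.2, h.1⟩
        rw [h2]
        have h3 := Pe_nonneg (isLaw_cond F.isLaw hA) (fun ω => A ω ∧ j ω = i)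
        positivity)
    rw [← hpA] at h1
    refine h1.trans ?_
    have hhJ : 0 < h' * J := by positivity
    have hC0 : 0 < C t := by linarith
    have e1 : C t * (1 + δ₃ * J + δ₃ * J) / (h' * J) ≤ β / 3 := by
      rw [div_le_iff₀ hhJ]
      have h2 : Cm * (δ₃ * J) = β * h' * J / 12 := by
        rw [hδ₃]
        field_simp
      have h3 : 6 * Cm ≤ h' * β * J := by
        refine le_trans ?_ hJN
        have hCN : 6 * Cm * 1 ≤ 6 * Cm * (N + 1) :=
          mul_le_mul_of_nonneg_left (by linarith) (by linarith)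
        linarith
      have h4 : C t * (1 + δ₃ * J + δ₃ * J) ≤ Cm * (1 + δ₃ * J + δ₃ * J) :=
        mul_le_mul_of_nonneg_right hCt (by positivity)
      linarith
    have e2 : N * (C t * (1 + δ₄ * J) / (h' * J)) ≤ β / 3 := by
      rw [← mul_div_assoc, div_le_iff₀ hhJ]
      have h2 : Cm * (N + 1) * (δ₄ * J) = β * h' * J / 6 := by
        rw [hδ₄]
        field_simp
      have h3 : 0 ≤ C t * (1 + δ₄ * J) := by positivity
      have h4 : N * (C t * (1 + δ₄ * J)) ≤ (N + 1) * (C t * (1 + δ₄ * J)) :=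
        mul_le_mul_of_nonneg_right (by linarith) h3
      have h5 : (N + 1) * (C t * (1 + δ₄ * J)) ≤ (N + 1) * (Cm * (1 + δ₄ * J)) :=
        mul_le_mul_of_nonneg_left (mul_le_mul_of_nonneg_right hCt (by positivity)) (by positivity)
      linarith
    linarith
  -- the chain
  have g1 : CH (P2 pA (slam F W0)) Kz (fun e => ptr F J e.2) ≤ ℓN := by
    have h1 : CH (P2 pA (slam F W0)) Kz (fun e => ptr F J e.2) ≤
        CH (P2 pA (slam F W0)) (fun e => j e.2) (fun e => ptr F J e.2) := by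
      refine CH_mono_left hlP.nonneg fun e e' _ _ h => ?_
      have h2 := Prod.ext_iff.1 h
      have h3 : j e.2 = j e'.2 := h2.1
      have h4 : ptr F J e.2 = ptr F J e'.2 := h2.2
      rw [hKz]
      refine Prod.ext ?_ ?_
      · funext t
        exact sig_eq (dd t) h3 (by rw [h4])
      · change z (ptr F J e.2) = z (ptr F J e'.2)
        rw [h4]
    refine h1.trans ?_
    have h2 := CH_le_card hlP.nonneg hlP.sum_one (fun e : F.Ω × F.Ω => j e.2)
      (fun e => ptr F J e.2) (fun _ => Finset.range (N + 1))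
      (fun e _ => Finset.mem_range.2 (Nat.lt_succ_of_le (hjN e.2)))
    rw [Ex_const hlP.sum_one, Finset.card_range] at h2
    push_cast at h2
    rw [hℓN]
    exact h2
  have hsup : ∀ e, 0 < P2 pA (slam F W0) e → A e.2 ∧ slam F W0 e.1 = slam F W0 e.2 := by
    intro e he
    have h1 := (P2_pos hlA e).1 he
    refine ⟨?_, h1.2.2⟩
    have h2 := h1.2.1
    rw [hpA] at h2
    exact cond_supp h2
  have g2 := q5 N j Kz hjN (by
    rw [← hW0, ← hW1, ← hpA]
    intro e e' he he' h1 h2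
    have h3 := (hsup e he).1
    have h4 := (hsup e' he').1
    rw [hKz]
    refine Prod.ext ?_ ?_
    · funext t
      exact sig_eq (dd t) h1 (hddz t (j e.2) e.2 e'.2 ⟨h3, rfl⟩ ⟨h4, h1.symm⟩ h2)
    · change z (ptr F J e.2) = z (ptr F J e'.2)
      rw [hz _ h3, hz _ h4, h2])
  rw [← hW0, ← hW1, ← hpA] at g2 q4 q6
  rw [← hℓN] at g2
  obtain ⟨Y, hY⟩ : ∃ Y : F.Ω × F.Ω → ((∀ t : Fin k, Σ i, (dd t i).V) × V) ×
      (ℕ × (((Fin m → ℤ) × F.ζ) × ℕ)), Y = fun e =>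
      (Kz e, (F.T1 W1 e.2, (bal F W0 e.1, F.T e.1))) := ⟨_, rfl⟩
  have g4 := hbk J hJ1 (P2 pA (slam F W0)) hlP (fun e (i : Fin r) => F.u e.1 (c i))
    (fun e (i : Fin r) => F.d e.1 (c i)) (fun e i => F.dir e.1 (c i)) W0 W1 hW hW1J
    (fun e => F.T e.1) (fun e => F.T e.2) Y (by
      intro e e' _ _ h
      rw [hY] at h
      have h1 := Prod.ext_iff.1 (Prod.ext_iff.1 h).2
      have h2 := Prod.ext_iff.1 h1.2
      exact ⟨h2.2, h1.1⟩) (by
      intro e he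
      exact (Prod.ext_iff.1 (Prod.ext_iff.1 (hsup e he).2).2).2) (by
      refine le_trans ?_ (le_trans g2 (CH_mono_cond hlP.nonneg fun e e' _ _ h => ?_))
      · have h1 : δ₅ * J ≤ θ / 2 * J := mul_le_mul_of_nonneg_right hδ₅θ hJ0.le
        linarith
      · have h1 := Prod.ext_iff.1 h
        have h2 := Prod.ext_iff.1 h1.2
        have h3 : F.T1 W1 e.2 = F.T1 W1 e'.2 := (Prod.ext_iff.1 (Prod.ext_iff.1 h1.1).2).2
        have h4 : e.1 = e'.1 := h2.2
        have h5 : Kz e = Kz e' := h2.1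
        rw [hY]
        simp only [h4, h5, h3]) q4
  have g4' : CH (P2 pA (slam F W0)) (fun e (i : Fin r) => F.X J e.1 (c i)) Y ≤
      CH (P2 pA (slam F W0)) (fun e (i : Fin r) => F.X J e.2 (c i)) (fun e => (F.T e.2, Y e)) +
        (r * (((W1 - W0 : ℕ) : ℝ) * Real.log 2) + ρ / 16 * J) := by
    have e1 : (fun (e : F.Ω × F.Ω) (i : Fin r) => F.X J e.1 (c i)) = fun e =>
        fl J (pst (fun e (i : Fin r) => F.u e.1 (c i)) (fun e (i : Fin r) => F.d e.1 (c i)) J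
          (fun e => (F.T e.1 : ℤ)) e) := by
      funext e i
      change fl J (F.x e.1) (c i) = _
      unfold fl pst Fam.x Fam.t
      rw [Int.cast_natCast]
      rfl
    have e2 : CH (P2 pA (slam F W0)) (fun e (i : Fin r) => F.X J e.2 (c i))
        (fun e => (F.T e.2, Y e)) = CH (P2 pA (slam F W0)) (fun e =>
        fl J (pst (fun e (i : Fin r) => F.u e.1 (c i)) (fun e (i : Fin r) => F.d e.1 (c i)) J
          (fun e => (F.T e.2 : ℤ)) e)) (fun e => (F.T e.2, Y e)) := by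
      have e3 : ∀ e, 0 < P2 pA (slam F W0) e → (fun (i : Fin r) => F.X J e.2 (c i)) =
          fl J (pst (fun e (i : Fin r) => F.u e.1 (c i)) (fun e (i : Fin r) => F.d e.1 (c i)) J
          (fun e => (F.T e.2 : ℤ)) e) := by
        intro e he
        have h1 := Prod.ext_iff.1 (Prod.ext_iff.1 (hsup e he).2).1
        have h2 : F.u e.1 = F.u e.2 := h1.1
        have h3 : F.d e.1 = F.d e.2 := h1.2
        funext i
        change fl J (F.x e.2) (c i) = _
        unfold fl pst Fam.x Fam.t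
        simp only [Int.cast_natCast, h2, h3]
        rfl
      refine CH_congr hlP.nonneg ?_ ?_ (fun _ _ _ _ h => h) (fun _ _ _ _ h => h)
      · intro e e' he he' h
        exact (e3 e he).symm.trans ((Prod.ext_iff.1 h).1.trans (e3 e' he'))
      · intro e e' he he' h
        exact (e3 e he).trans ((Prod.ext_iff.1 h).1.trans (e3 e' he').symm)
    rw [e1, e2]
    exact g4
  -- the targets
  obtain ⟨En, hEn⟩ : ∃ En : ℝ, En = Real.log 2 + (Ĉm * (1 + φ * J) +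
    D * (((W1 - W0 : ℕ) : ℝ) * Real.log 2) + (2 * D + 1) * (h' * J) + η * J) +
      β * ((J : ℝ) + 3) := ⟨_, rfl⟩
  have g5' : ∀ t < k, CH (P2 pA (slam F W0)) (fun e => F.X J e.1 (c (r + t)))
      (fun e => ((fun (i : Fin r) => F.X J e.1 (c i)),
        (Kz e, (F.T1 W1 e.2, (bal F W0 e.1, F.T e.1))))) ≤ En := by
    intro t ht
    have h1 := hent t (F := F) hlA (tgt c r t) (W0 := W0) (W1 := W1) (K := K t) (N := N)
      (g := g) (η := η) (φ := φ) (h := h' * J) (dd t) j (fun i ω => A ω ∧ j ω = i)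
      (fun e => (⟨j e.2, (dd t (j e.2)).z (ptr F J e.2)⟩, Kz e)) (fun e => rfl)
      (fun i hi hne => (hdd t i ht hi hne).1) hW hW1J (by positivity) hφ0.le hη0
    rw [tgt_r] at h1
    have h2 : CH (P2 pA (slam F W0)) (fun e => F.X J e.1 (c (r + t)))
        (fun e => ((fun (i : Fin r) => F.X J e.1 (c i)),
          (Kz e, (F.T1 W1 e.2, (bal F W0 e.1, F.T e.1))))) ≤
        CH (P2 pA (slam F W0)) (fun e => F.X J e.1 (c (r + t)))
        (fun e => ((fun (i : Fin r) => F.X J e.1 (tgt c r t i)),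
          (((⟨j e.2, (dd t (j e.2)).z (ptr F J e.2)⟩ : Σ i, (dd t i).V), Kz e),
            (F.T1 W1 e.2, (bal F W0 e.1, F.T e.1))))) := by
      refine CH_mono_cond hlP.nonneg fun e e' _ _ h => ?_
      have k1 := Prod.ext_iff.1 h
      have k2 := Prod.ext_iff.1 k1.2
      have k3 : Kz e = Kz e' := k2.1
      have k4 : (⟨j e.2, (dd t (j e.2)).z (ptr F J e.2)⟩ : Σ i, (dd t i).V) =
          ⟨j e'.2, (dd t (j e'.2)).z (ptr F J e'.2)⟩ := by
        have k5 := congrFun (Prod.ext_iff.1 k3).1 ⟨t, ht⟩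
        rw [hKz] at k5
        exact k5
      refine Prod.ext ?_ (Prod.ext (Prod.ext k4 k3) k2.2)
      funext i
      have k6 : (fun (i : Fin r) => F.X J e.1 (c i)) = fun (i : Fin r) => F.X J e'.1 (c i) := k1.1
      change F.X J e.1 (tgt c r t i) = F.X J e'.1 (tgt c r t i)
      rw [tgt_lt c i.2]
      exact congrFun k6 i
    refine h2.trans (h1.trans ?_)
    rw [hEn]
    have k7 : Ĉ t * (1 + φ * J) ≤ Ĉm * (1 + φ * J) :=
      mul_le_mul_of_nonneg_right (hĈm t ht) (by positivity)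
    have k8 := mul_le_mul_of_nonneg_right (hbad t ht) (show 0 ≤ (J : ℝ) + 3 by positivity)
    linarith
  have g5 := ch_tup hlP.nonneg (fun t (e : F.Ω × F.Ω) => F.X J e.1 (c (r + t)))
    (fun e => ((fun (i : Fin r) => F.X J e.1 (c i)),
        (Kz e, (F.T1 W1 e.2, (bal F W0 e.1, F.T e.1))))) (fun _ => En) k g5'
  rw [Finset.sum_const, Finset.card_range, nsmul_eq_mul] at g5
  have g6 := h2_chainG hlA hW hW1J Kz c (fun ω (t : Fin k) => F.X J ω (c (r + t))) (by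
      intro ω ω' h1 h2
      funext i
      obtain ⟨l, hl, hli⟩ := hc i
      rw [← hli]
      rcases Nat.lt_or_ge l r with h6 | h6
      · exact h1 l h6
      · have h7 := congrFun h2 ⟨l - r, by omega⟩
        have h8 : r + (l - r) = l := by omega
        simp only [h8] at h7
        exact h7) g1 g2 q6 (Eb := r * (((W1 - W0 : ℕ) : ℝ) *
    Real.log 2) + ρ / 16 * J) (by
      rw [hY] at g4'
      exact g4') g5
  have g7 : CH (P2 pA (slam F W0)) (fun v => z (ptr F J v.2)) (fun v => ptr F J v.1) ≤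
      CH (P2 pA (slam F W0)) Kz (fun e => ptr F J e.1) := by
    refine CH_mono_left hlP.nonneg fun e e' _ _ h => ?_
    have h1 : Kz e = Kz e' := (Prod.ext_iff.1 h).1
    rw [hKz] at h1
    exact (Prod.ext_iff.1 h1).2
  refine g7.trans (g6.trans ?_)
  have k1 : ((r : ℝ) + 1 + k * D) * Real.log 2 * ((W1 - W0 : ℕ) : ℝ) ≤
      (r + 1 + k * D) * Real.log 2 * (w1 - w0) * J + (r + 1 + k * D) := by
    have h1 : 0 ≤ ((r : ℝ) + 1 + k * D) * Real.log 2 := by positivity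
    have h2 := mul_le_mul_of_nonneg_left hWd h1
    have h3 : ((r : ℝ) + 1 + k * D) * Real.log 2 ≤ r + 1 + k * D :=
      mul_le_of_le_one_right (by positivity) hl2'
    linarith
  have k2 : (k : ℝ) * (Ĉm * (φ * J)) ≤ ρ / 16 * J := by
    have h1 : (k : ℝ) * (Ĉm * φ) ≤ ((k : ℝ) + 1) * (Ĉm * φ) :=
      mul_le_mul_of_nonneg_right (by linarith) (by positivity)
    calc (k : ℝ) * (Ĉm * (φ * J)) = k * (Ĉm * φ) * J := by ring
      _ ≤ ρ / 16 * J := mul_le_mul_of_nonneg_right (h1.trans hφρ) hJ0.le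
  have k3 : (k : ℝ) * ((2 * (D : ℝ) + 1) * (h' * J)) ≤ ρ / 16 * J := by
    have h1 : (k : ℝ) * ((2 * (D : ℝ) + 1) * h') ≤ ((k : ℝ) + 1) * ((2 * (D : ℝ) + 1) * h') :=
      mul_le_mul_of_nonneg_right (by linarith) (by positivity)
    calc (k : ℝ) * ((2 * (D : ℝ) + 1) * (h' * J)) = k * ((2 * (D : ℝ) + 1) * h') * J := by ring
      _ ≤ ρ / 16 * J := mul_le_mul_of_nonneg_right (h1.trans hh'ρ) hJ0.le
  have k5 : (k : ℝ) * (β * ((J : ℝ) + 3)) ≤ ρ / 16 * J := by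
    have h1 : (J : ℝ) + 3 ≤ 2 * J := by linarith
    calc (k : ℝ) * (β * ((J : ℝ) + 3)) ≤ ((k : ℝ) + 1) * (β * (2 * J)) := by
          refine mul_le_mul (by linarith) (mul_le_mul_of_nonneg_left h1 hβ0.le) (by positivity)
            (by linarith)
      _ = ((k : ℝ) + 1) * (2 * β) * J := by ring
      _ = ρ / 16 * J := by rw [hβk]
  have k6 : δ₅ * J ≤ ρ / 32 * J := mul_le_mul_of_nonneg_right hδ₅ρ hJ0.le
  have k7 : 0 ≤ ρ * J := by positivity
  have k8 : (k : ℝ) * Real.log 2 ≤ k := mul_le_of_le_one_right hk0 hl2'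
  have k9 : (k : ℝ) * En = k * Real.log 2 + (k * Ĉm + k * (Ĉm * (φ * J)) +
      k * D * Real.log 2 * ((W1 - W0 : ℕ) : ℝ) + k * ((2 * (D : ℝ) + 1) * (h' * J)) +
      k * η * J) + k * (β * ((J : ℝ) + 3)) := by
    rw [hEn]
    ring
  have k10 : ((r : ℝ) + 1 + k * D) * Real.log 2 * ((W1 - W0 : ℕ) : ℝ) =
      ((W1 - W0 : ℕ) : ℝ) * Real.log 2 + r * (((W1 - W0 : ℕ) : ℝ) * Real.log 2) +
      k * D * Real.log 2 * ((W1 - W0 : ℕ) : ℝ) := by ring
  have k11 : ((r + 1 + k * D) * Real.log 2 * (w1 - w0) + k * η + ρ) * (J : ℝ) =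
      (r + 1 + k * D) * Real.log 2 * (w1 - w0) * J + k * η * J + ρ * J := by ring
  rw [hcst] at hJcst
  linarith

end Pool.NJ34
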